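import Mathlib

namespace Pool.Agent.Work.MP_71a505_up

/-- the real number `x` is an integer -/
def IsI (x : ℝ) : Prop := ∃ n : ℤ, (n : ℝ) = x

theorem IsI.add {x y : ℝ} (hx : IsI x) (hy : IsI y) : IsI (x + y) := by
  obtain ⟨n, rfl⟩ := hx
  obtain ⟨m, rfl⟩ := hy
  exact ⟨n + m, by push_cast; ring⟩

theorem IsI.sub {x y : ℝ} (hx : IsI x) (hy : IsI y) : IsI (x - y) := by
  obtain ⟨n, rfl⟩ := hx
  obtain ⟨m, rfl⟩ := hy
  exact ⟨n - m, by push_cast; ring⟩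

theorem IsI.mul {x y : ℝ} (hx : IsI x) (hy : IsI y) : IsI (x * y) := by
  obtain ⟨n, rfl⟩ := hx
  obtain ⟨m, rfl⟩ := hy
  exact ⟨n * m, by push_cast; ring⟩

theorem IsI.neg {x : ℝ} (hx : IsI x) : IsI (-x) := by
  obtain ⟨n, rfl⟩ := hx
  exact ⟨-n, by push_cast; ring⟩

theorem IsI.int (n : ℤ) : IsI (n : ℝ) := ⟨n, rfl⟩

theorem IsI.pow {x : ℝ} (hx : IsI x) (k : ℕ) : IsI (x ^ k) := by
  obtain ⟨n, rfl⟩ := hx
  exact ⟨n ^ k, by push_cast; ring⟩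

/-- a positive integer is at least one -/
theorem IsI.one_le {x : ℝ} (hx : IsI x) (h : 0 < x) : 1 ≤ x := by
  obtain ⟨n, rfl⟩ := hx
  have : 0 < n := by exact_mod_cast h
  exact_mod_cast this

theorem isI_congr {x y : ℝ} (hx : IsI x) (h : x = y) : IsI y := h ▸ hx

/-- rational with integral square is integral -/
theorem isI_of_sq {x : ℝ} {n m k : ℤ} (h1 : x ^ 2 = n) (hm : m ≠ 0) (h2 : x * m = k) : IsI x := by
  have h3 : ((n * m ^ 2 : ℤ) : ℝ) = ((k ^ 2 : ℤ) : ℝ) := by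
    push_cast
    rw [← h1, ← h2]; ring
  have h4 : n * m ^ 2 = k ^ 2 := by exact_mod_cast h3
  have h5 : m ^ 2 ∣ k ^ 2 := ⟨n, by rw [← h4]; ring⟩
  obtain ⟨j, hj⟩ := (Int.pow_dvd_pow_iff two_ne_zero).1 h5
  refine ⟨j, ?_⟩
  have hm' : (m : ℝ) ≠ 0 := by exact_mod_cast hm
  have h6 : x * m = (j : ℝ) * m := by
    rw [h2, hj]; push_cast; ring
  exact (mul_right_cancel₀ hm' h6).symm

/-- The real data attached to an exceptional triple `a < b < c` (all the relations are algebraic):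
`W = W`, `U = e W`, `M = e ^ 2 W`, `A = h e W = α ^ 2`, `B = β ^ 2`, `C = γ ^ 2`, `D = δ ^ 2`. -/
structure RD (a b c r s t W e h α β γ δ : ℝ) : Prop where
  ha : 1 ≤ a
  hb : 12 * a < b
  hc : 4 * a * b < c
  cB : 100000 * c ^ 3 < a ^ 2 * b ^ 7
  hr : 0 < r
  hs : 0 < s
  ht : 0 < t
  r2 : a * b + 1 = r ^ 2
  s2 : a * c + 1 = s ^ 2
  t2 : b * c + 1 = t ^ 2
  hW : 0 < W
  he : 0 < e
  he1 : e < 1
  hh : 0 < h
  hα : 0 < α
  hβ : 0 < β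
  hγ : 0 < γ
  hδ : 0 < δ
  A2 : α ^ 2 = h * e * W
  B2 : β ^ 2 = (h * e + 2 * e ^ 2 + 4 * e) * W
  C2 : γ ^ 2 = (h * e + 2 + 4 * e) * W
  D2 : δ ^ 2 = (2 + 2 * e ^ 2 - 4 * e - 3 * (h * e)) * W
  rα : r * δ = α * ((h + 3) * e * W)
  sβ : s * δ = β * ((h + 1 - e) * e * W)
  tγ : t * δ = γ * ((1 - e - h * e) * W)
  hL2 : e < h + 1
  hL3 : h * e + e < 1
  bca : b * (c - a) = W ^ 2 * (1 + 2 * e)
  acb : a * (c - b) = W ^ 2 * (e ^ 3 * (2 + e))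
  rU : r < e * W
  ab24 : 24 ≤ a * b

/-- The integrality statements. -/
structure II (a b c r s t W e α β γ δ : ℝ) : Prop where
  ia : IsI a
  ib : IsI b
  ic : IsI c
  ir : IsI r
  is' : IsI s
  it : IsI t
  iW : IsI W
  iU : IsI (e * W)
  iM : IsI (e ^ 2 * W)
  iA : IsI (α ^ 2)
  iB : IsI (β ^ 2)
  iC : IsI (γ ^ 2)
  iD : IsI (δ ^ 2)
  iAB : IsI (α * β)
  iAC : IsI (α * γ)
  iBC : IsI (β * γ)
  iAD : IsI (α * δ)
  iBD : IsI (β * δ)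
  iCD : IsI (γ * δ)
  iK : IsI (α * β * γ / δ)
  A24 : 24 ≤ α ^ 2

theorem sq_eq_of_pos {x y : ℝ} (hx : 0 < x) (hy : 0 < y) (h : x ^ 2 = y ^ 2) : x = y :=
  (pow_left_inj₀ hx.le hy.le two_ne_zero).1 h

/-- `x = √(ad+1)`, `d` the smaller regular extension of `{a, b, c}`. -/
structure RX (a b c r s t x d : ℝ) : Prop where
  xe : x = r * s - a * t
  x0 : 0 < x
  x2 : a * d + 1 = x ^ 2
  d1 : 1 ≤ d
  dc : 4 * a * b * d < c
  sy : s * (2 * r * x - s) = r ^ 2 + x ^ 2 - 1 - a ^ 2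
  axt : 2 * (a * x * t) = s ^ 2 + r ^ 2 - x ^ 2 - 1 - a ^ 2
  ix : IsI x
  id' : IsI d

/-- The doubly irregular case: `b` is the larger regular extension of `{a, d, g}` and `c` the
larger regular extension of `{a, b, d}`. -/
structure RQ (a b c d g r s t x y z xb yb xc : ℝ) : Prop where
  a1 : 1 ≤ a
  d1 : 1 ≤ d
  g1 : 1 ≤ g
  dg3 : 3 ≤ d * g
  x0 : 0 < x
  y0 : 0 < y
  z0 : 0 < z
  xb0 : 0 < xb
  yb0 : 0 < yb
  xc0 : 0 < xc
  x2 : a * d + 1 = x ^ 2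
  y2 : a * g + 1 = y ^ 2
  z2 : d * g + 1 = z ^ 2
  xb2 : b * d + 1 = xb ^ 2
  yb2 : b * g + 1 = yb ^ 2
  xc2 : c * d + 1 = xc ^ 2
  eb : b = a + d + g + 2 * a * d * g + 2 * x * y * z
  er : r = a * z + x * y
  exb : xb = d * y + x * z
  eyb : yb = g * x + y * z
  ec : c = a + b + d + 2 * a * b * d + 2 * r * x * xb
  es : s = r * x + a * xb
  et : t = r * xb + b * x
  exc : xc = x * xb + d * r
  ig : IsI g
  iy : IsI y
  iz : IsI z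
  ixb : IsI xb
  iyb : IsI yb
  ixc : IsI xc

/-- `B / W`, `C / W`, `D / W`, `S₃ / W` -/
noncomputable def qB (e h : ℝ) : ℝ := h * e + 2 * e ^ 2 + 4 * e
noncomputable def qC (e h : ℝ) : ℝ := h * e + 2 + 4 * e
noncomputable def qD (e h : ℝ) : ℝ := 2 + 2 * e ^ 2 - 4 * e - 3 * (h * e)
noncomputable def qS (e h : ℝ) : ℝ := 2 + 2 * e + 2 * e ^ 2 - h * e

/-- main part of `f / W`, with `τ = t / W` -/
noncomputable def fm (e τ : ℝ) : ℝ :=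
  (e ^ 4 + 2 * e ^ 2 * (1 + e - τ) - 2 * (1 + e - τ) ^ 2) / (2 * τ)

/-- the bracket of `E'`; `q = γ / δ` -/
noncomputable def PhiE (e h q : ℝ) : ℝ :=
  q - 3 + 6 * (h + 1 - e) / (h + 3)
    - (h + 3) * (h + 1 - e) * e ^ 2 / (qD e h * ((1 - e - h * e) * q))

noncomputable def Phi5 (e h q : ℝ) : ℝ :=
  h * e * qB e h * ((h + 3) * (h + 1 - e) * e ^ 2) / (qD e h * ((1 - e - h * e) * q)) * (q - 1)
    - 16 * (h * e) * fm e ((1 - e - h * e) * q)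
    - 3 * (h * e * qB e h * ((h + 3) * (h + 1 - e) * e ^ 2) ^ 2)
        / (qD e h * ((1 - e - h * e) * q)) ^ 2

noncomputable def Phi36 (e h q : ℝ) : ℝ :=
  -33 * (h * e) - 63 * e ^ 2 + 33 * (2 - q * qD e h)
    + 75 * (qB e h * (h + 1 - e) ^ 2 * e ^ 2 + h * e * (h + 3) ^ 2 * e ^ 2)
        / (2 * (qD e h * ((1 - e - h * e) * q)))
    - 43 * fm e ((1 - e - h * e) * q)
    - 27 * (q - 1) * (e * (4 + 2 * e + h) * (h + 1 - e) / (2 * (h + 3))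
        + h * e * (h + 3) / (2 * (h + 1 - e)))

end Pool.Agent.Work.MP_71a505_up
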