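import Mathlib
import Pool.Agent.Work.MP_71a505_nt.Bounded

namespace Pool.Agent.Work.MP_71a505_up

open Pool.Agent.Work.MP_71a505_nt

/-- signs of the three roots -/
theorem signs3 {α β γ : ℤ} (hs : α * β + β * γ + γ * α = 0) (h1 : α ^ 2 < β ^ 2)
    (h2 : β ^ 2 < γ ^ 2) :
    (0 < α ∧ β < 0 ∧ γ < 0) ∨ (α < 0 ∧ 0 < β ∧ 0 < γ) := by
  obtain ⟨e1, e2, e3⟩ := abs_rel hs h1 h2 (l := -(α + β + γ)) rfl
  have hα : α ≠ 0 := abs_pos.1 e3
  have a1 : |α| < |β| := sq_lt_sq.1 h1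
  have a2 : |β| < |γ| := sq_lt_sq.1 h2
  have hβ : β ≠ 0 := abs_pos.1 (e3.trans a1)
  have hγ : γ ≠ 0 := abs_pos.1 ((e3.trans a1).trans a2)
  have hbg : 0 < β * γ := by
    -- α * l = βγ - α², and |βγ| > α²
    have e4 : α * -(α + β + γ) = β * γ - α ^ 2 := by linear_combination (-1 : ℤ) * hs
    rw [e4] at e2
    have : 0 ≤ α ^ 2 := sq_nonneg α
    linarith
  have h5 : α * (β + γ) < 0 := by
    have : α * (β + γ) = -(β * γ) := by linear_combination hs
    rw [this]; linarith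
  rcases pos_and_pos_or_neg_and_neg_of_mul_pos hbg with ⟨h3, h4⟩ | ⟨h3, h4⟩
  · right
    refine ⟨?_, h3, h4⟩
    by_contra hh
    push Not at hh
    have : 0 ≤ α * (β + γ) := mul_nonneg hh (by linarith)
    linarith
  · left
    refine ⟨?_, h3, h4⟩
    by_contra hh
    push Not at hh
    have : 0 ≤ α * (β + γ) := mul_nonneg_of_nonpos_of_nonpos hh (by linarith)
    linarith

/-- All the integers attached to an exceptional triple, together with the linear relation. -/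
theorem package2 {a b c r s t x l m : ℤ} (h : Sq3 a b c r s t) (ha : 0 < a) (hab : a < b)
    (hbc : b < c) (h4ab : 4 * a ≤ b) (hD : Data a b c x l m) :
    ∃ A B C δ D e : ℤ, 0 < A ∧ 0 < B ∧ 0 < C ∧ 0 < e ∧
      A ^ 2 = r ^ 2 + e ∧ B ^ 2 = s ^ 2 + e ∧ C ^ 2 = t ^ 2 + e ∧ A * (B + C) = B * C ∧
      r < δ ∧ r * s * t = δ * (δ ^ 2 + 3 * D ^ 2) ∧ D ^ 2 = δ ^ 2 + e ∧
      A < D ∧ (12 : ℤ) ∣ D - A ∧
      (D - A) * (D + B) * (D + C) = δ ^ 2 * (B + C - A - 3 * D) := by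
  have h' := h
  obtain ⟨-, -, -, hr, hs, ht, h1, h2, h3⟩ := h'
  have hb : 0 < b := ha.trans hab
  have hc : 0 < c := hb.trans hbc
  have hpc := pairwise_coprime h
  obtain ⟨g1, g2, g3⟩ := dvd24_all h ha hab hbc hD
  have e8 : ∀ {y : ℤ}, (24 : ℤ) ∣ y → (8 : ℤ) ∣ y := fun hy => (by norm_num : (8 : ℤ) ∣ 24).trans hy
  have e3 : ∀ {y : ℤ}, (24 : ℤ) ∣ y → (3 : ℤ) ∣ y := fun hy => (by norm_num : (3 : ℤ) ∣ 24).trans hy
  obtain ⟨α, β, γ, ka, kb, kc, ks, kl, ky⟩ := squares' ha.ne' hb.ne' hc.ne' hab.ne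
    (hab.trans hbc).ne hbc.ne hD
  obtain ⟨hx8, h4a, -, -⟩ := four_dvd (e8 g1) (e8 g2) (e8 g3) ka kb kc ks
  have hxe : Even x := by
    obtain ⟨k, hk⟩ := hx8
    exact ⟨4 * k, by rw [hk]; ring⟩
  have ka' : α ^ 2 = r ^ 2 + (x - 1) := by rw [ka, ← h1]; ring
  have kb' : β ^ 2 = s ^ 2 + (x - 1) := by rw [kb, ← h2]; ring
  have kc' : γ ^ 2 = t ^ 2 + (x - 1) := by rw [kc, ← h3]; ring
  obtain ⟨δ, D, hρ, hw, hDD⟩ := cubes_S hpc hxe ka' kb' kc' ks (sum_sq h hD)
  -- sizes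
  have hd1 := dm_pos_of_data h ha hab hbc hD
  have hlt := dm_lt' ha hb (hab.trans hbc) hbc h hd1
  have hclt : 4 * a * b + a + b + 1 < c := by
    have h5 : 4 * a * b ≤ 4 * a * b * dm a b c r s t := by
      have : 0 < 4 * a * b := by positivity
      nlinarith
    linarith
  have hrs2 : 2 * r ≤ s := two_mul_r_le_s ha hb hs h1 h2 hclt
  have hrs : r < s := by linarith
  have hst : s < t := by
    have : s ^ 2 < t ^ 2 := by
      rw [← h2, ← h3]
      have := mul_lt_mul_of_pos_right hab hc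
      linarith
    exact lt_of_pow_lt_pow_left₀ 2 ht.le this
  have hab2 : α ^ 2 < β ^ 2 := by
    rw [ka', kb']
    have : r ^ 2 < s ^ 2 := pow_lt_pow_left₀ hrs hr.le two_ne_zero
    linarith
  have hbc2 : β ^ 2 < γ ^ 2 := by
    rw [kb', kc']
    have : s ^ 2 < t ^ 2 := pow_lt_pow_left₀ hst hs.le two_ne_zero
    linarith
  obtain ⟨hrel, hαl, hα0⟩ := abs_rel ks hab2 hbc2 kl
  have hβ0 : 0 < |β| := hα0.trans (sq_lt_sq.1 hab2)
  have hγ0 : 0 < |γ| := hβ0.trans (sq_lt_sq.1 hbc2)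
  have qa : |α| ^ 2 = r ^ 2 + (x - 1) := by rw [sq_abs]; exact ka'
  have qb : |β| ^ 2 = s ^ 2 + (x - 1) := by rw [sq_abs]; exact kb'
  have qc : |γ| ^ 2 = t ^ 2 + (x - 1) := by rw [sq_abs]; exact kc'
  have he := e_pos hrs2 hst hr qa qb qc hα0 hβ0 hγ0 hrel
  have hδ0 : 0 < δ := by
    have h5 : 0 < δ * (δ ^ 2 + 3 * D ^ 2) := by rw [← hρ]; positivity
    by_contra hneg
    push Not at hneg
    have : δ * (δ ^ 2 + 3 * D ^ 2) ≤ 0 := mul_nonpos_of_nonpos_of_nonneg hneg (by positivity)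
    linarith
  have hδr := delta_gt hr hrs2 hst (quartic_rel h hD) hδ0 hρ hDD
  have hAD : |α| < |D| := by
    apply sq_lt_sq.1
    rw [ka', hDD]
    have : r ^ 2 < δ ^ 2 := pow_lt_pow_left₀ hδr hr.le two_ne_zero
    linarith
  have hrodd : Odd r := by
    rw [← Int.not_even_iff_odd]
    intro hre
    have h5 : (2 : ℤ) ∣ r ^ 2 := dvd_pow hre.two_dvd two_ne_zero
    rw [← h1] at h5
    have h6 : (2 : ℤ) ∣ a * b := (by norm_num : (2 : ℤ) ∣ 24).trans g1
    have := (dvd_add_right h6).1 h5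
    norm_num at this
  have hsodd : Odd s := by
    rw [← Int.not_even_iff_odd]
    intro hre
    have h5 : (2 : ℤ) ∣ s ^ 2 := dvd_pow hre.two_dvd two_ne_zero
    rw [← h2] at h5
    have h6 : (2 : ℤ) ∣ a * c := (by norm_num : (2 : ℤ) ∣ 24).trans g2
    have := (dvd_add_right h6).1 h5
    norm_num at this
  have htodd : Odd t := by
    rw [← Int.not_even_iff_odd]
    intro hre
    have h5 : (2 : ℤ) ∣ t ^ 2 := dvd_pow hre.two_dvd two_ne_zero
    rw [← h3] at h5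
    have h6 : (2 : ℤ) ∣ b * c := (by norm_num : (2 : ℤ) ∣ 24).trans g3
    have := (dvd_add_right h6).1 h5
    norm_num at this
  have hδodd : Odd δ := by
    have h5 : Odd (δ * (δ ^ 2 + 3 * D ^ 2)) := by
      rw [← hρ]; exact (hrodd.mul hsodd).mul htodd
    exact (Int.odd_mul.1 h5).1
  have h4D : (4 : ℤ) ∣ D := by
    obtain ⟨k1, hk1⟩ := Int.eight_dvd_sq_sub_one_of_odd hrodd
    obtain ⟨k2, hk2⟩ := Int.eight_dvd_sq_sub_one_of_odd hδodd
    obtain ⟨k3, hk3⟩ := h4a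
    have h5 : D ^ 2 = 8 * (2 * k3 ^ 2 + k2 - k1) := by
      have : α ^ 2 = 16 * k3 ^ 2 := by rw [hk3]; ring
      linarith
    have h6 : Even D := by
      rw [← Int.not_odd_iff_even]
      rintro ⟨k, hk⟩
      rw [hk] at h5
      ring_nf at h5
      omega
    obtain ⟨j, hj⟩ := h6
    rw [hj] at h5
    have h7 : j ^ 2 = 2 * (2 * k3 ^ 2 + k2 - k1) := by nlinarith
    have h8 : Even j := by
      rw [← Int.not_odd_iff_even]
      rintro ⟨k, hk⟩
      rw [hk] at h7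
      ring_nf at h7
      omega
    obtain ⟨i, hi⟩ := h8
    exact ⟨i, by rw [hj, hi]; ring⟩
  have h4abs : (4 : ℤ) ∣ |D| - |α| := dvd_sub ((dvd_abs _ _).2 h4D) ((dvd_abs _ _).2 h4a)
  have h3D : (3 : ℤ) ∣ D - α := three_dvd h1 h2 h3 (e3 g1) (e3 g2) (e3 g3) ka kb kc ks kl ky
    hρ hw hDD
  have hlm := lm_nonneg h ha h4ab hbc hD hrs he qa qb qc hα0 hβ0 hγ0 hrel
  have hDlm : 0 ≤ D * (l + m) := by
    rw [hw]
    have : D * (D * (D ^ 2 + 3 * δ ^ 2)) = D ^ 2 * (D ^ 2 + 3 * δ ^ 2) := by ring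
    rw [this]; positivity
  have hD0 : D ≠ 0 := by
    intro h0
    rw [h0, abs_zero] at hAD
    linarith
  -- the linear relation
  have hI : (D - α) * (D - β) * (D - γ) = δ ^ 2 * (l - 3 * D) := by
    have e : (D - α) * (D - β) * (D - γ)
        = D ^ 3 + (-(α + β + γ)) * D ^ 2 + (α * β + β * γ + γ * α) * D - α * β * γ := by ring
    rw [e, ks, ← kl, ky]
    have e2 : m = D * (D ^ 2 + 3 * δ ^ 2) - l := by linarith
    rw [e2]
    linear_combination l * hDD
  have hcop : IsCoprime (3 : ℤ) 4 := ⟨-1, 1, by norm_num⟩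
  rcases signs3 ks hab2 hbc2 with ⟨s1, s2, s3⟩ | ⟨s1, s2, s3⟩
  · -- α > 0, l > 0, D > 0
    have hl : 0 < l := by
      by_contra hh
      push Not at hh
      have : α * l ≤ 0 := mul_nonpos_of_nonneg_of_nonpos s1.le hh
      linarith
    have hm : 0 ≤ m := by
      by_contra hh
      push Not at hh
      have : l * m < 0 := mul_neg_of_pos_of_neg hl hh
      linarith
    have hDpos : 0 < D := by
      rcases lt_or_gt_of_ne hD0 with h5 | h5
      · exfalso
        have : D * (l + m) < 0 := mul_neg_of_neg_of_pos h5 (by linarith)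
        linarith
      · exact h5
    refine ⟨|α|, |β|, |γ|, δ, |D|, x - 1, hα0, hβ0, hγ0, he, qa, qb, qc, hrel, hδr, ?_, ?_,
      hAD, ?_, ?_⟩
    · rw [sq_abs]; exact hρ
    · rw [sq_abs]; exact hDD
    · have h3abs : (3 : ℤ) ∣ |D| - |α| := by
        rw [abs_of_pos s1, abs_of_pos hDpos]; exact h3D
      have := hcop.mul_dvd h3abs h4abs
      simpa using this
    · rw [abs_of_pos s1, abs_of_neg s2, abs_of_neg s3, abs_of_pos hDpos]
      rw [kl] at hI
      linear_combination hI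
  · have hl : l < 0 := by
      by_contra hh
      push Not at hh
      have : α * l ≤ 0 := mul_nonpos_of_nonpos_of_nonneg s1.le hh
      linarith
    have hm : m ≤ 0 := by
      by_contra hh
      push Not at hh
      have : l * m < 0 := mul_neg_of_neg_of_pos hl hh
      linarith
    have hDneg : D < 0 := by
      rcases lt_or_gt_of_ne hD0 with h5 | h5
      · exact h5
      · exfalso
        have : D * (l + m) < 0 := mul_neg_of_pos_of_neg h5 (by linarith)
        linarith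
    refine ⟨|α|, |β|, |γ|, δ, |D|, x - 1, hα0, hβ0, hγ0, he, qa, qb, qc, hrel, hδr, ?_, ?_,
      hAD, ?_, ?_⟩
    · rw [sq_abs]; exact hρ
    · rw [sq_abs]; exact hDD
    · have h3abs : (3 : ℤ) ∣ |D| - |α| := by
        rw [abs_of_neg s1, abs_of_neg hDneg]
        have e : -D - -α = -(D - α) := by ring
        rw [e]
        exact (dvd_neg).2 h3D
      have := hcop.mul_dvd h3abs h4abs
      simpa using this
    · rw [abs_of_neg s1, abs_of_pos s2, abs_of_pos s3, abs_of_neg hDneg]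
      rw [kl] at hI
      linear_combination (-1 : ℤ) * hI

end Pool.Agent.Work.MP_71a505_up
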