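import Mathlib
import Pool.Agent.Work.MP_71a505_up.Defs
import Pool.Agent.Work.MP_71a505_up.Pack2

namespace Pool.Agent.Work.MP_71a505_up

open Pool.Agent.Work.MP_71a505_nt

theorem base {a b c r s t x l m : ℤ} (h : Sq3 a b c r s t) (ha : 0 < a) (hab : a < b)
    (hbc : b < c) (hD : Data a b c x l m) :
    ∃ W e h α β γ δ : ℝ, RD a b c r s t W e h α β γ δ ∧ II a b c r s t W e α β γ δ := by
  obtain ⟨hB5, h12, -⟩ := thmC h ha hab hbc hD
  obtain ⟨U, v, w, d1, D1, x1, hU, hv, hw, hx1, q1, q2, q3, q4, q5, q6, q7, q8, q9, q10⟩ :=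
    package2 h ha hab hbc (by linarith) hD
  have hd1 := dm_pos_of_data h ha hab hbc hD
  have hb : 0 < b := ha.trans hab
  have hlt4 := (dm_lt ha hb (hab.trans hbc) hbc h).1
  have h4c : 4 * a * b < c := by
    have : 4 * a * b * 1 ≤ 4 * a * b * dm a b c r s t := mul_le_mul_of_nonneg_left hd1 (by positivity)
    linarith
  obtain ⟨g24, -, -⟩ := dvd24_all h ha hab hbc hD
  have h24ab : 24 ≤ a * b := Int.le_of_dvd (by positivity) g24
  obtain ⟨-, -, -, hr, hs, ht, h1, h2, h3⟩ := h
  have hrU : r < U := lt_of_pow_lt_pow_left₀ 2 hU.le (by rw [q1]; linarith)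
  obtain ⟨k12, hk12⟩ := q9
  -- integers
  set M : ℤ := v - U with hM
  set W : ℤ := w - U with hW
  set A : ℤ := 2 * (D1 - U) with hA
  have hA24 : A = 24 * k12 := by rw [hA, hk12]; ring
  have hApos : 0 < A := by rw [hA]; linarith
  have hA24' : 24 ≤ A := by
    have : 0 < k12 := by linarith
    rw [hA24]; linarith
  set B : ℤ := A + 2 * M + 4 * U with hB
  set C : ℤ := A + 2 * W + 4 * U with hC
  set D : ℤ := 2 * W + 2 * M - 4 * U - 3 * A with hDd
  have hMW : M * W = U ^ 2 := by rw [hM, hW]; linear_combination (-1 : ℤ) * q4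
  have hrs : r ^ 2 < s ^ 2 := by
    rw [← h1, ← h2]
    have := mul_lt_mul_of_pos_left hbc ha
    linarith
  have hst : s ^ 2 < t ^ 2 := by
    have hc : 0 < c := hb.trans hbc
    rw [← h2, ← h3]
    have := mul_lt_mul_of_pos_right hab hc
    linarith
  have hUv : U < v := lt_of_pow_lt_pow_left₀ 2 hv.le (by rw [q1, q2]; linarith)
  have hvw : v < w := lt_of_pow_lt_pow_left₀ 2 hw.le (by rw [q2, q3]; linarith)
  have hMpos : 0 < M := by rw [hM]; linarith
  have hWpos : 0 < W := by rw [hW]; linarith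
  have hMW' : M < W := by rw [hM, hW]; linarith
  have hUW : U < W := by
    have : U ^ 2 < W ^ 2 := by
      rw [← hMW]
      have := mul_lt_mul_of_pos_right hMW' hWpos
      nlinarith
    exact lt_of_pow_lt_pow_left₀ 2 hWpos.le this
  have hBpos : 0 < B := by rw [hB]; linarith
  have hCpos : 0 < C := by rw [hC]; linarith
  have hr2 : 4 * r ^ 2 = 4 * d1 ^ 2 - A * (A + 4 * U) := by
    rw [hA]; linear_combination (4 : ℤ) * q7 - 4 * q1
  have hs2 : 4 * s ^ 2 = 4 * d1 ^ 2 - (A - 2 * M) * B := by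
    rw [hB, hM, hA]; linear_combination (4 : ℤ) * q7 - 4 * q2
  have ht2 : 4 * t ^ 2 = 4 * d1 ^ 2 - (A - 2 * W) * C := by
    rw [hC, hW, hA]; linear_combination (4 : ℤ) * q7 - 4 * q3
  have hK : 4 * d1 ^ 2 * D = A * B * C := by
    rw [hDd, hB, hC, hM, hW, hA]; linear_combination (-8 : ℤ) * q10
  have hd1pos : 0 < d1 := by linarith
  have hDpos : 0 < D := by
    have h5 : 0 < 4 * d1 ^ 2 * D := by rw [hK]; positivity
    exact pos_of_mul_pos' (by positivity) h5
  -- clear the definitions but keep the relations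
  have eB : B = A + 2 * M + 4 * U := hB
  have eC : C = A + 2 * W + 4 * U := hC
  have eD : D = 2 * W + 2 * M - 4 * U - 3 * A := hDd
  have rD : r ^ 2 * D = A * (A + 3 * U) ^ 2 := by
    have h5 : 4 * (r ^ 2 * D) = 4 * (A * (A + 3 * U) ^ 2) := by
      have : 4 * (r ^ 2 * D) = (4 * d1 ^ 2 * D) - A * (A + 4 * U) * D := by
        linear_combination D * hr2
      rw [this, hK, eB, eC, eD]
      linear_combination (4 * A) * hMW
    exact mul_left_cancel₀ (by norm_num : (4 : ℤ) ≠ 0) h5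
  have sD : s ^ 2 * D = B * (A + U - M) ^ 2 := by
    have h5 : 4 * (s ^ 2 * D) = 4 * (B * (A + U - M) ^ 2) := by
      have : 4 * (s ^ 2 * D) = (4 * d1 ^ 2 * D) - (A - 2 * M) * B * D := by
        linear_combination D * hs2
      rw [this, hK, eC, eD]
      linear_combination (4 * B) * hMW
    exact mul_left_cancel₀ (by norm_num : (4 : ℤ) ≠ 0) h5
  have tD : t ^ 2 * D = C * (W - U - A) ^ 2 := by
    have h5 : 4 * (t ^ 2 * D) = 4 * (C * (W - U - A) ^ 2) := by
      have : 4 * (t ^ 2 * D) = (4 * d1 ^ 2 * D) - (A - 2 * W) * C * D := by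
        linear_combination D * ht2
      rw [this, hK, eB, eD]
      linear_combination (4 * C) * hMW
    exact mul_left_cancel₀ (by norm_num : (4 : ℤ) ≠ 0) h5
  -- signs
  have hσ : 2 * D1 = A + 2 * U := by rw [hA]; ring
  have hrst : r * s * t * D = 2 * d1 * ((A + 3 * U) * (A + U - M) * (W - U - A)) := by
    have h5 : 8 * (r * s * t * D) = 8 * (2 * d1 * ((A + 3 * U) * (A + U - M) * (W - U - A))) := by
      have e1 : 8 * (r * s * t * D) = 2 * d1 * ((4 * d1 ^ 2 * D) + 3 * (2 * D1) ^ 2 * D) := by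
        rw [q6]; ring
      rw [e1, hK, hσ, eB, eC, eD]
      linear_combination (2 * d1 * (12 * A + 24 * U)) * hMW
    exact mul_left_cancel₀ (by norm_num : (8 : ℤ) ≠ 0) h5
  have hL1 : 0 < A + 3 * U := by linarith
  have hprod : 0 < (A + U - M) * (W - U - A) := by
    have h5 : 0 < (2 * d1 * (A + 3 * U)) * ((A + U - M) * (W - U - A)) := by
      have : (2 * d1 * (A + 3 * U)) * ((A + U - M) * (W - U - A)) = r * s * t * D := by
        rw [hrst]; ring
      rw [this]; positivity
    exact pos_of_mul_pos' (by positivity) h5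
  have hL23 : 0 < A + U - M ∧ 0 < W - U - A := by
    rcases pos_and_pos_or_neg_and_neg_of_mul_pos hprod with h5 | ⟨h5, h6⟩
    · exact h5
    · exfalso; linarith
  obtain ⟨hL2, hL3⟩ := hL23
  clear_value M W A B C D
  -- real numbers
  have hWR : (0 : ℝ) < W := by exact_mod_cast hWpos
  have hUR : (0 : ℝ) < U := by exact_mod_cast hU
  have hMR : (0 : ℝ) < M := by exact_mod_cast hMpos
  have hAR : (0 : ℝ) < A := by exact_mod_cast hApos
  have hBR : (0 : ℝ) < B := by exact_mod_cast hBpos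
  have hCR : (0 : ℝ) < C := by exact_mod_cast hCpos
  have hDR : (0 : ℝ) < D := by exact_mod_cast hDpos
  have hrR : (0 : ℝ) < r := by exact_mod_cast hr
  have hsR : (0 : ℝ) < s := by exact_mod_cast hs
  have htR : (0 : ℝ) < t := by exact_mod_cast ht
  have hdR : (0 : ℝ) < d1 := by exact_mod_cast hd1pos
  have hL1R : (0 : ℝ) < A + 3 * U := by positivity
  have hL2R : (0 : ℝ) < A + U - M := by exact_mod_cast hL2
  have hL3R : (0 : ℝ) < W - U - A := by exact_mod_cast hL3
  have hMWR : (M : ℝ) * W = U ^ 2 := by exact_mod_cast hMW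
  have rDR : (r : ℝ) ^ 2 * D = A * (A + 3 * U) ^ 2 := by exact_mod_cast rD
  have sDR : (s : ℝ) ^ 2 * D = B * (A + U - M) ^ 2 := by exact_mod_cast sD
  have tDR : (t : ℝ) ^ 2 * D = C * (W - U - A) ^ 2 := by exact_mod_cast tD
  have hKR : 4 * (d1 : ℝ) ^ 2 * D = A * B * C := by exact_mod_cast hK
  obtain ⟨e, he⟩ : ∃ e : ℝ, e = U / W := ⟨_, rfl⟩
  obtain ⟨g, hg⟩ : ∃ g : ℝ, g = A / U := ⟨_, rfl⟩
  have eU : e * W = U := by rw [he]; field_simp
  have eM : e ^ 2 * W = M := by
    rw [he]; field_simp; linear_combination (-1 : ℝ) * hMWR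
  have eA : g * e * W = A := by
    rw [mul_assoc, eU, hg]; field_simp
  obtain ⟨α, hα⟩ : ∃ α : ℝ, α = Real.sqrt A := ⟨_, rfl⟩
  obtain ⟨β, hβ⟩ : ∃ β : ℝ, β = Real.sqrt B := ⟨_, rfl⟩
  obtain ⟨γ, hγ⟩ : ∃ γ : ℝ, γ = Real.sqrt C := ⟨_, rfl⟩
  obtain ⟨δ, hδ⟩ : ∃ δ : ℝ, δ = Real.sqrt D := ⟨_, rfl⟩
  have α0 : 0 < α := by rw [hα]; exact Real.sqrt_pos.2 hAR
  have β0 : 0 < β := by rw [hβ]; exact Real.sqrt_pos.2 hBR
  have γ0 : 0 < γ := by rw [hγ]; exact Real.sqrt_pos.2 hCR
  have δ0 : 0 < δ := by rw [hδ]; exact Real.sqrt_pos.2 hDR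
  have α2 : α ^ 2 = A := by rw [hα]; exact Real.sq_sqrt hAR.le
  have β2 : β ^ 2 = B := by rw [hβ]; exact Real.sq_sqrt hBR.le
  have γ2 : γ ^ 2 = C := by rw [hγ]; exact Real.sq_sqrt hCR.le
  have δ2 : δ ^ 2 = D := by rw [hδ]; exact Real.sq_sqrt hDR.le
  have fr : (r : ℝ) * δ = α * (A + 3 * U) := by
    apply sq_eq_of_pos (by positivity) (by positivity)
    rw [mul_pow, mul_pow, δ2, α2, rDR]
  have fs : (s : ℝ) * δ = β * (A + U - M) := by
    apply sq_eq_of_pos (by positivity) (by positivity)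
    rw [mul_pow, mul_pow, δ2, β2, sDR]
  have ft : (t : ℝ) * δ = γ * (W - U - A) := by
    apply sq_eq_of_pos (by positivity) (by positivity)
    rw [mul_pow, mul_pow, δ2, γ2, tDR]
  have fK : 2 * (d1 : ℝ) = α * β * γ / δ := by
    rw [eq_div_iff δ0.ne']
    apply sq_eq_of_pos (by positivity) (by positivity)
    rw [mul_pow, mul_pow, mul_pow, mul_pow, δ2, α2, β2, γ2, ← hKR]; ring
  refine ⟨W, e, g, α, β, γ, δ, ?_, ?_⟩
  · refine ⟨by exact_mod_cast (show 1 ≤ a from ha), by exact_mod_cast h12, by exact_mod_cast h4c,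
      by exact_mod_cast hB5, hrR, hsR,
      htR, by exact_mod_cast h1, by exact_mod_cast h2, by exact_mod_cast h3, hWR, ?_, ?_, ?_,
      α0, β0, γ0, δ0, ?_, ?_, ?_, ?_, ?_, ?_, ?_, ?_, ?_, ?_, ?_, ?_, ?_⟩
    · rw [he]; positivity
    · rw [he, div_lt_one hWR]; exact_mod_cast hUW
    · rw [hg]; positivity
    · rw [α2, eA]
    · rw [β2, eB]; push_cast
      linear_combination (-1 : ℝ) * eA - 2 * eM - 4 * eU
    · rw [γ2, eC]; push_cast
      linear_combination (-1 : ℝ) * eA - 4 * eU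
    · rw [δ2, eD]; push_cast
      linear_combination (3 : ℝ) * eA - 2 * eM + 4 * eU
    · rw [fr]; linear_combination (-α) * eA - (3 * α) * eU
    · rw [fs]; linear_combination (-β) * eA - β * eU + β * eM
    · rw [ft]; linear_combination γ * eA + γ * eU
    · have : 0 < (g + 1 - e) * (e * W) := by
        have e1 : (g + 1 - e) * (e * W) = A + U - M := by
          linear_combination eA + eU - eM
        rw [e1]; exact hL2R
      have h6 : 0 < e * W := by rw [eU]; exact hUR
      have h7 := (mul_pos_iff_of_pos_right h6).1 this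
      linarith
    · have : 0 < (1 - e - g * e) * W := by
        have e1 : (1 - e - g * e) * W = W - U - A := by
          linear_combination (-1 : ℝ) * eA - eU
        rw [e1]; exact hL3R
      have h7 := (mul_pos_iff_of_pos_right hWR).1 this
      linarith
    · have e1 : (b : ℝ) * (c - a) = W * (W + 2 * U) := by
        have : b * (c - a) = W * (W + 2 * U) := by
          rw [hW]; linear_combination h3 - h1 - q3 + q1
        exact_mod_cast this
      rw [e1]; linear_combination (-2 * (W : ℝ)) * eU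
    · have e1 : (a : ℝ) * (c - b) = M * (M + 2 * U) := by
        have : a * (c - b) = M * (M + 2 * U) := by
          rw [hM]; linear_combination h2 - h1 - q2 + q1
        exact_mod_cast this
      rw [e1, ← eM, ← eU]; ring
    · rw [eU]; exact_mod_cast hrU
    · exact_mod_cast h24ab
  · refine ⟨IsI.int _, IsI.int _, IsI.int _, IsI.int _, IsI.int _, IsI.int _, IsI.int _,
      ⟨U, eU.symm⟩, ⟨M, eM.symm⟩, ⟨A, α2.symm⟩, ⟨B, β2.symm⟩, ⟨C, γ2.symm⟩, ⟨D, δ2.symm⟩,
      ?_, ?_, ?_, ?_, ?_, ?_, ?_, ?_⟩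
    · apply isI_of_sq (n := A * B) (m := (A + 3 * U) * (A + U - M)) (k := r * s * D)
      · push_cast; rw [mul_pow, α2, β2]
      · positivity
      · push_cast; rw [← δ2]; linear_combination (-(β * (A + U - M))) * fr - (r * δ) * fs
    · apply isI_of_sq (n := A * C) (m := (A + 3 * U) * (W - U - A)) (k := r * t * D)
      · push_cast; rw [mul_pow, α2, γ2]
      · positivity
      · push_cast; rw [← δ2]; linear_combination (-(γ * (W - U - A))) * fr - (r * δ) * ft
    · apply isI_of_sq (n := B * C) (m := (A + U - M) * (W - U - A)) (k := s * t * D)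
      · push_cast; rw [mul_pow, β2, γ2]
      · positivity
      · push_cast; rw [← δ2]; linear_combination (-(γ * (W - U - A))) * fs - (s * δ) * ft
    · apply isI_of_sq (n := A * D) (m := (A + 3 * U)) (k := r * D)
      · push_cast; rw [mul_pow, α2, δ2]
      · positivity
      · push_cast; rw [← δ2]; linear_combination (-δ) * fr
    · apply isI_of_sq (n := B * D) (m := (A + U - M)) (k := s * D)
      · push_cast; rw [mul_pow, β2, δ2]
      · exact hL2.ne'
      · push_cast; rw [← δ2]; linear_combination (-δ) * fs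
    · apply isI_of_sq (n := C * D) (m := (W - U - A)) (k := t * D)
      · push_cast; rw [mul_pow, γ2, δ2]
      · exact hL3.ne'
      · push_cast; rw [← δ2]; linear_combination (-δ) * ft
    · exact ⟨2 * d1, by push_cast; exact fK⟩
    · rw [α2]; exact_mod_cast hA24'

end Pool.Agent.Work.MP_71a505_up
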