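import Mathlib
import Pool.Agent.Work.MP_71a505_up.Base

namespace Pool.Agent.Work.MP_71a505_up

open Pool.Agent.Work.MP_71a505_nt

theorem ats_lt {a b c r s t : ℤ} (h : Sq3 a b c r s t) (ha : 0 < a) (hb : 0 < b)
    (hac : a < c) : a * t < r * s := by
  obtain ⟨-, -, -, hr, hs, ht, h1, h2, h3⟩ := h
  have h4 : (a * t) ^ 2 < (r * s) ^ 2 := by
    rw [mul_pow, mul_pow, ← h1, ← h2, ← h3]
    have : 0 < a * b := by positivity
    nlinarith
  exact lt_of_pow_lt_pow_left₀ 2 (by positivity) h4

/-- the integer `x = rs - at` and the real structure `RX` -/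
theorem rx_of {a b c r s t : ℤ} (h : Sq3 a b c r s t) (ha : 0 < a) (hab : a < b)
    (hbc : b < c) (hd1 : 1 ≤ dm a b c r s t) :
    RX (a : ℝ) b c r s t ((r * s - a * t : ℤ) : ℝ) ((dm a b c r s t : ℤ) : ℝ) := by
  have hb : 0 < b := ha.trans hab
  have hlt := (dm_lt ha hb (hab.trans hbc) hbc h).1
  have hx := ats_lt h ha hb (hab.trans hbc)
  have hu := dm_u h
  obtain ⟨-, -, -, hr, hs, ht, h1, h2, h3⟩ := h
  have hx2 : a * dm a b c r s t + 1 = (r * s - a * t) ^ 2 := by
    rw [hu]; ring
  refine ⟨by push_cast; ring, ?_, ?_, by exact_mod_cast hd1, by exact_mod_cast hlt, ?_, ?_,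
    IsI.int _, IsI.int _⟩
  · have : (0 : ℤ) < r * s - a * t := by linarith
    exact_mod_cast this
  · exact_mod_cast hx2
  · have : s * (2 * r * (r * s - a * t) - s) = r ^ 2 + (r * s - a * t) ^ 2 - 1 - a ^ 2 := by
      linear_combination (-(s ^ 2 - 1)) * h1 - (a * b) * h2 + (a ^ 2) * h3
    exact_mod_cast this
  · have : 2 * (a * (r * s - a * t) * t) = s ^ 2 + r ^ 2 - (r * s - a * t) ^ 2 - 1 - a ^ 2 := by
      linear_combination (-(s ^ 2 - 1)) * h1 - (a * b) * h2 + (a ^ 2) * h3
    exact_mod_cast this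


/-- the doubly irregular case -/
theorem rq_of {a b c r s t x xb : ℤ} (h : Sq3 a b c r s t) (ha : 0 < a) (hab : a < b)
    (hbc : b < c) (hd1 : 1 ≤ dm a b c r s t) (hdb : dm a b c r s t < b)
    (hx : x = r * s - a * t) (hxb : xb = r * t - b * s)
    (hg : 1 ≤ dm a (dm a b c r s t) b x r xb) :
    RQ (a : ℝ) b c ((dm a b c r s t : ℤ) : ℝ) ((dm a (dm a b c r s t) b x r xb : ℤ) : ℝ)
      r s t x ((x * r - a * xb : ℤ) : ℝ) ((x * xb - dm a b c r s t * r : ℤ) : ℝ) xb
      ((b * x - r * xb : ℤ) : ℝ) ((c * r - s * t : ℤ) : ℝ) ∧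
    4 * a * dm a b c r s t * dm a (dm a b c r s t) b x r xb < b := by
  have hb : 0 < b := ha.trans hab
  have hc : 0 < c := hb.trans hbc
  have hx0 : 0 < x := by
    have := ats_lt h ha hb (hab.trans hbc)
    rw [hx]; linarith
  have hu := dm_u h
  have hv := dm_v h
  have hw := dm_w h
  obtain ⟨q1, q2, q3, hr, hs, ht, h1, h2, h3⟩ := h
  have hx2 : a * dm a b c r s t + 1 = x ^ 2 := by
    rw [hx, hu]; ring
  have hxb2 : b * dm a b c r s t + 1 = xb ^ 2 := by
    rw [hxb, hv]; ring
  have hxc2 : c * dm a b c r s t + 1 = (c * r - s * t) ^ 2 := by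
    rw [hw]
  have hxb0 : 0 < xb := by
    have h4 : (b * s) ^ 2 < (r * t) ^ 2 := by
      rw [mul_pow, mul_pow, ← h1, ← h2, ← h3]
      have : 0 < a * b := by positivity
      nlinarith
    have := lt_of_pow_lt_pow_left₀ 2 (by positivity) h4
    rw [hxb]; linarith
  have hxc0 : 0 < c * r - s * t := by
    have h4 : (s * t) ^ 2 < (c * r) ^ 2 := by
      rw [mul_pow, mul_pow, ← h1, ← h2, ← h3]
      have h5 : a + b + 1 ≤ c ∨ c < a + b + 1 := by omega
      rcases h5 with h5 | h5
      · nlinarith [mul_pos ha hb]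
      · exfalso
        have hlt := (dm_lt ha hb (hab.trans hbc) hbc ⟨q1, q2, q3, hr, hs, ht, h1, h2, h3⟩).1
        have h6 : a * b * 1 ≤ a * b * dm a b c r s t := mul_le_mul_of_nonneg_left hd1 (by positivity)
        nlinarith
    have := lt_of_pow_lt_pow_left₀ 2 (by positivity) h4
    linarith
  have hdef : dm a b c r s t = a + b + c + 2 * a * b * c - 2 * r * s * t := by unfold dm; ring
  generalize dm a b c r s t = d at *
  have hd0 : 0 < d := hd1
  have hS : Sq3 a d b x r xb := ⟨ha.le, hd0.le, hb.le, hx0, hr, hxb0, hx2, h1, by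
    rw [← hxb2]; ring⟩
  have k1 := dm_u hS
  have k2 := dm_v hS
  have k3 := dm_w hS
  have k4 := (dm_lt ha hd0 hab hdb hS).1
  have hgdef : dm a d b x r xb = a + d + b + 2 * a * d * b - 2 * x * r * xb := by unfold dm; ring
  generalize dm a d b x r xb = g at *
  have hy0 : 0 < x * r - a * xb := by
    have := ats_lt hS ha hd0 hab
    linarith
  have hg0 : 0 < g := hg
  have hz0 : 0 < x * xb - d * r := by
    have h4 : (d * r) ^ 2 < (x * xb) ^ 2 := by
      rw [mul_pow, mul_pow, ← h1, ← hx2, ← hxb2]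
      have : 0 < a * d := by positivity
      nlinarith
    have := lt_of_pow_lt_pow_left₀ 2 (by positivity) h4
    linarith
  have hyb : b * x - r * xb = g * x + (x * r - a * xb) * (x * xb - d * r) := by
    rw [hgdef]
    linear_combination (-(r * xb)) * hx2 - (x * d) * h1 - (a * x) * hxb2
  have hyb0 : 0 < b * x - r * xb := by rw [hyb]; positivity
  have er : r = a * (x * xb - d * r) + x * (x * r - a * xb) := by
    linear_combination r * hx2
  have exb : xb = d * (x * r - a * xb) + x * (x * xb - d * r) := by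
    linear_combination xb * hx2
  have eb : b = a + d + g + 2 * a * d * g + 2 * x * (x * r - a * xb) * (x * xb - d * r) := by
    rw [hgdef]
    linear_combination (2 * x * r * xb - 2 * (d * r ^ 2 + a * xb ^ 2)) * hx2
      - (2 * (a * d + 1) * d) * h1 - (2 * (a * d + 1) * a) * hxb2
  have ec : c = a + b + d + 2 * a * b * d + 2 * r * x * xb := by
    linear_combination (2 * r * s * t - 2 * (b * s ^ 2 + a * t ^ 2)) * h1
      - (2 * (a * b + 1) * b) * h2 - (2 * (a * b + 1) * a) * h3
      - (2 * r * xb) * hx - (2 * r * (r * s - a * t)) * hxb - (1 + 2 * a * b) * hdef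
  have es : s = r * x + a * xb := by
    linear_combination s * h1 - r * hx - a * hxb
  have et : t = r * xb + b * x := by
    linear_combination t * h1 - r * hxb - b * hx
  have exc : c * r - s * t = x * xb + d * r := by
    linear_combination (-(s * t)) * h1 - (r * b) * h2 - (r * a) * h3 - xb * hx
      - (r * s - a * t) * hxb - r * hdef
  have hk1 : a * g + 1 = (x * r - a * xb) ^ 2 := by rw [k1]; ring
  have hk2 : d * g + 1 = (x * xb - d * r) ^ 2 := by rw [k2]; ring
  have hdg := dd_ge3 hd0 hg hk2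
  have ha1 : 1 ≤ a := ha
  refine ⟨⟨by exact_mod_cast ha1, by exact_mod_cast hd1, by exact_mod_cast hg,
    by exact_mod_cast hdg, by exact_mod_cast hx0, by exact_mod_cast hy0, by exact_mod_cast hz0,
    by exact_mod_cast hxb0, by exact_mod_cast hyb0, by exact_mod_cast hxc0,
    by exact_mod_cast hx2, by exact_mod_cast hk1, by exact_mod_cast hk2, by exact_mod_cast hxb2,
    by exact_mod_cast k3, by exact_mod_cast hxc2, by exact_mod_cast eb, by exact_mod_cast er,
    by exact_mod_cast exb, by exact_mod_cast hyb, by exact_mod_cast ec, by exact_mod_cast es,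
    by exact_mod_cast et, by exact_mod_cast exc, IsI.int _, IsI.int _, IsI.int _, IsI.int _,
    IsI.int _, IsI.int _⟩, k4⟩

/-- the three cases -/
theorem classify {a b c r s t x l m : ℤ} (h : Sq3 a b c r s t) (ha : 0 < a) (hab : a < b)
    (hbc : b < c) (hD : Data a b c x l m) :
    16 * a ^ 2 * b ^ 2 < c ∨
    ((r * s - a * t - r) ^ 2 = a ^ 2 ∧ 6000000 * a < b) ∨
    (dm a b c r s t < b ∧
      1 ≤ dm a (dm a b c r s t) b (r * s - a * t) r (r * t - b * s)) := by
  have h4 := thmA h ha hab hbc hD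
  have hB := thmB h ha hab hbc hD
  have hb : 0 < b := ha.trans hab
  obtain ⟨g1, -, -⟩ := dvd24_all h ha hab hbc hD
  have g1' : 24 ≤ a * b := Int.le_of_dvd (by positivity) g1
  have hb10 : 10 ≤ b := by
    by_contra hh
    push Not at hh
    have h5 : a ≤ 2 := by linarith
    have h6 : a * b ≤ 2 * b := mul_le_mul_of_nonneg_right h5 hb.le
    linarith
  have hd1 := dm_pos_of_data h ha hab hbc hD
  have hS := Sq3_dm ha hb h
  have hlt4 := (dm_lt ha hb (hab.trans hbc) hbc h).1
  have hats := ats_lt h ha hb (hab.trans hbc)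
  have hu := dm_u h
  have habs1 : |a * t - r * s| = r * s - a * t := by
    rw [abs_sub_comm]; exact abs_of_pos (by linarith)
  have hxb0 : 0 < r * t - b * s := by
    obtain ⟨-, -, -, hr, hs, ht, h1, h2, h3⟩ := h
    have h4 : (b * s) ^ 2 < (r * t) ^ 2 := by
      rw [mul_pow, mul_pow, ← h1, ← h2, ← h3]
      have : 0 < a * b := by positivity
      nlinarith
    have := lt_of_pow_lt_pow_left₀ 2 (by positivity) h4
    linarith
  have habs2 : |b * s - r * t| = r * t - b * s := by
    rw [abs_sub_comm]; exact abs_of_pos hxb0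
  rw [habs1, habs2] at hS
  have h1 := h.2.2.2.2.2.2.1
  have hr := h.2.2.2.1
  have hx2 : a * dm a b c r s t + 1 = (r * s - a * t) ^ 2 := by rw [hu]; ring
  generalize dm a b c r s t = d at *
  have hx0 : 0 < r * s - a * t := by linarith
  generalize r * s - a * t = u at *
  generalize r * t - b * s = v at *
  have hra : a < r := by
    by_contra hh
    push Not at hh
    have : r ^ 2 ≤ a ^ 2 := pow_le_pow_left₀ hr.le hh 2
    nlinarith
  -- if `d = a + b ± 2r`
  have hplus : d = a + b + 2 * r → (u - r) ^ 2 = a ^ 2 := by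
    intro hd
    have h5 : u ^ 2 = (r + a) ^ 2 := by rw [← hx2, hd]; linear_combination h1
    have h6 : u = r + a := (pow_left_inj₀ hx0.le (by linarith) two_ne_zero).1 h5
    rw [h6]; ring
  have hminus : d = a + b - 2 * r → (u - r) ^ 2 = a ^ 2 := by
    intro hd
    have h5 : u ^ 2 = (r - a) ^ 2 := by rw [← hx2, hd]; linear_combination h1
    have h6 : u = r - a := (pow_left_inj₀ hx0.le (by linarith) two_ne_zero).1 h5
    rw [h6]; ring
  have hd0 : 0 < d := hd1
  have hne : b ≠ d := ne_of_sq hb hS.2.2.2.2.2.1 hS.2.2.2.2.2.2.2.2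
  rcases lt_or_gt_of_ne hne with hbd | hbd
  · -- b < d
    have h5 := caseC1 ha hb hbd hlt4 hB
    have hg0 := dm_nonneg ha hb hS
    rcases hg0.eq_or_lt with h0 | h0
    · right; left
      rcases dm_zero hS h0.symm with h6 | h6
      · exact ⟨hplus h6, by linarith⟩
      · exact ⟨hminus h6, by linarith⟩
    · left
      have h6 := (dm_lt ha hb (hab.trans hbd) hbd hS).1
      have h7 : 1 ≤ dm a b d r u v := h0
      have h8 : 4 * a * b * 1 ≤ 4 * a * b * dm a b d r u v :=
        mul_le_mul_of_nonneg_left h7 (by positivity)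
      have h9 : 4 * a * b * (4 * a * b) < 4 * a * b * d :=
        mul_lt_mul_of_pos_left (by linarith) (by positivity)
      nlinarith
  · -- d < b
    have hs' : Sq3 a d b u r v := ⟨ha.le, hd0.le, hb.le, hx0, hr, hxb0, hx2, h1, by
      have := hS.2.2.2.2.2.2.2.2
      rw [← this]; ring⟩
    have hg0 := dm_nonneg ha hd0 hs'
    rcases hg0.eq_or_lt with h0 | h0
    · right; left
      have hsym : dm a d b u r v = dm a b d r u v := by unfold dm; ring
      have h00 : dm a b d r u v = 0 := by rw [← hsym]; exact h0.symm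
      rcases dm_zero hS h00 with h6 | h6
      · exfalso; linarith
      · refine ⟨hminus h6, ?_⟩
        have h7 := d_lower1 ha h4 h1
        rw [← h6] at h7
        have h8 := caseC2a ha hb10 h7 hlt4 hB
        exact caseC2 ha h1 h6 h8 hlt4 hB
    · right; right
      exact ⟨hbd, h0⟩

end Pool.Agent.Work.MP_71a505_up
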