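import Mathlib
import Pool.Agent.Work.MP_71a505_up.Defs

namespace Pool.Agent.Work.MP_71a505_up

/-- final combination of the upper bounds -/
theorem final_upper {a b c : ℝ} (ha1 : 1 ≤ a) (hb0 : 0 < b) (hc0 : 0 < c)
    (hB : 100000 * c ^ 3 < a ^ 2 * b ^ 7) (hf : b ^ 5 < 2 * (a ^ 8 * c ^ 3))
    (hE : c ^ 3 ≤ 1000000 * (a * b ^ 5) ∨ b ≤ 1000000 * a ^ 4)
    (h12 : a = 1 ∨ 2 ≤ a) (h5 : a = 1 → b < 1000000000)
    (h36 : 2 ≤ a → c < 1000000 * (a ^ 2 * b) ∨ b ^ 7 < 1000000000000 * (a ^ 10 * c ^ 3))
    (hc2 : c < b ^ 2) :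
    b < 10 ^ 10 * a ^ 7 ∧ c < 10 ^ 11 * a ^ 4 * b := by
  have ha0 : 0 < a := by linarith
  rcases h12 with h1 | h2
  · have h6 := h5 h1
    subst h1
    constructor
    · norm_num; linarith
    · have h7 : b ^ 4 < 1000000000 ^ 4 := pow_lt_pow_left₀ h6 hb0.le (by norm_num)
      have h8 : c ^ 3 < (10 ^ 11 * 1 ^ 4 * b) ^ 3 := by
        have h9 : b ^ 4 * b ^ 3 < 1000000000 ^ 4 * b ^ 3 := mul_lt_mul_of_pos_right h7 (by positivity)
        have h10 : b ^ 4 * b ^ 3 = b ^ 7 := by ring
        have h11 : 0 < b ^ 3 := by positivity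
        have h12 : (10 ^ 11 * 1 ^ 4 * b) ^ 3 = 10 ^ 33 * b ^ 3 := by ring
        rw [h12]
        norm_num at h9 ⊢
        nlinarith
      exact lt_of_pow_lt_pow_left₀ 3 (by positivity) h8
  · have key : ∀ {n : ℕ} {x y : ℝ}, 0 ≤ y → x ^ n < y ^ n → x < y := fun hy h =>
      lt_of_pow_lt_pow_left₀ _ hy h
    have ha7 : 1 ≤ a ^ 7 := one_le_pow₀ ha1
    rcases h36 h2 with h3 | h3
    · -- c < 10^6 a^2 b
      constructor
      · have h4 : c ^ 3 < (1000000 * (a ^ 2 * b)) ^ 3 := pow_lt_pow_left₀ h3 hc0.le (by norm_num)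
        have h5 : b ^ 3 * b ^ 2 < b ^ 3 * (2000000000000000000 * a ^ 14) := by
          calc b ^ 3 * b ^ 2 = b ^ 5 := by ring
            _ < 2 * (a ^ 8 * c ^ 3) := hf
            _ < 2 * (a ^ 8 * (1000000 * (a ^ 2 * b)) ^ 3) := by
                have : 0 < a ^ 8 := by positivity
                have := mul_lt_mul_of_pos_left h4 this
                linarith
            _ = b ^ 3 * (2000000000000000000 * a ^ 14) := by ring
        have h6 : b ^ 2 < 2000000000000000000 * a ^ 14 := lt_of_mul_lt_mul_left h5 (by positivity)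
        apply key (n := 2) (by positivity)
        have h7 : (10 ^ 10 * a ^ 7) ^ 2 = 10 ^ 20 * a ^ 14 := by ring
        rw [h7]
        have h8 : 0 < a ^ 14 := by positivity
        norm_num
        linarith
      · have h4 : a ^ 2 * b ≤ a ^ 4 * b := by
          apply mul_le_mul_of_nonneg_right _ hb0.le
          exact pow_le_pow_right₀ ha1 (by norm_num)
        have h5 : 0 < a ^ 4 * b := by positivity
        have h6 : 10 ^ 11 * a ^ 4 * b = 100000000000 * (a ^ 4 * b) := by ring
        rw [h6]
        linarith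
    · rcases hE with h4 | h4
      · have h5 : b ^ 5 * b ^ 2 < b ^ 5 * (1000000000000000000 * a ^ 11) := by
          calc b ^ 5 * b ^ 2 = b ^ 7 := by ring
            _ < 1000000000000 * (a ^ 10 * c ^ 3) := h3
            _ ≤ 1000000000000 * (a ^ 10 * (1000000 * (a * b ^ 5))) := by
                have : 0 ≤ a ^ 10 := by positivity
                have := mul_le_mul_of_nonneg_left h4 this
                linarith
            _ = b ^ 5 * (1000000000000000000 * a ^ 11) := by ring
        have h6 : b ^ 2 < 1000000000000000000 * a ^ 11 := lt_of_mul_lt_mul_left h5 (by positivity)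
        constructor
        · apply key (n := 2) (by positivity)
          have h7 : (10 ^ 10 * a ^ 7) ^ 2 = 10 ^ 20 * a ^ 14 := by ring
          rw [h7]
          have h8 : a ^ 11 ≤ a ^ 14 := pow_le_pow_right₀ ha1 (by norm_num)
          have h9 : 0 < a ^ 14 := by positivity
          norm_num
          linarith
        · apply key (n := 3) (by positivity)
          have h7 : (10 ^ 11 * a ^ 4 * b) ^ 3 = 10 ^ 33 * (a ^ 12 * b ^ 3) := by ring
          rw [h7]
          have h8 : c ^ 3 < 1000000000000000000000000 * (a ^ 12 * b ^ 3) := by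
            calc c ^ 3 ≤ 1000000 * (a * b ^ 5) := h4
              _ = (1000000 * (a * b ^ 3)) * b ^ 2 := by ring
              _ < (1000000 * (a * b ^ 3)) * (1000000000000000000 * a ^ 11) :=
                  mul_lt_mul_of_pos_left h6 (by positivity)
              _ = 1000000000000000000000000 * (a ^ 12 * b ^ 3) := by ring
          have h9 : 0 < a ^ 12 * b ^ 3 := by positivity
          norm_num
          linarith
      · constructor
        · have h5 : a ^ 4 ≤ a ^ 7 := pow_le_pow_right₀ ha1 (by norm_num)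
          norm_num
          linarith
        · have h5 : b * b ≤ (1000000 * a ^ 4) * b := mul_le_mul_of_nonneg_right h4 hb0.le
          have h6 : b ^ 2 = b * b := by ring
          have h7 : 10 ^ 11 * a ^ 4 * b = 100000000000 * (a ^ 4 * b) := by ring
          have h8 : 0 < a ^ 4 * b := by positivity
          rw [h7]
          linarith

/-- `c < b ^ 2` in the doubly irregular case -/
theorem c_lt_sq {a b c d g r s t x y z xb yb xc : ℝ} (h12 : 12 * a < b)
    (r2 : a * b + 1 = r ^ 2) (r0 : 0 < r)
    (Q : RQ a b c d g r s t x y z xb yb xc) : c < b ^ 2 := by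
  have ha := Q.a1
  have hd := Q.d1
  have hg := Q.g1
  have hdg := Q.dg3
  have hb0 : 0 < b := by linarith
  have hx := Q.x0
  have hy := Q.y0
  have hz := Q.z0
  have hxb := Q.xb0
  -- xyz > adg
  have h1 : a * d * g < x * y * z := by
    have h2 : (a * d * g) ^ 2 < (x * y * z) ^ 2 := by
      have e1 : (x * y * z) ^ 2 = (a * d + 1) * (a * g + 1) * (d * g + 1) := by
        rw [Q.x2, Q.y2, Q.z2]; ring
      rw [e1]
      have e2 : (a * d + 1) * (a * g + 1) * (d * g + 1) = (a * d * g) ^ 2
        + (a * d * (a * g) + a * d * (d * g) + a * g * (d * g) + a * d + a * g + d * g + 1) := by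
        ring
      rw [e2]
      have : 0 < a * d * (a * g) + a * d * (d * g) + a * g * (d * g) + a * d + a * g + d * g + 1 := by
        positivity
      linarith
    exact lt_of_pow_lt_pow_left₀ 2 (by positivity) h2
  have hb1 : 4 * (a * d * g) + a + d + g < b := by
    have := Q.eb
    linarith
  -- upper bound for r x xb
  have h3 : r * x * xb ≤ a * b * d + a + b + d := by
    have h4 : (r * x * xb) ^ 2 ≤ (a * b * d + a + b + d) ^ 2 := by
      have e1 : (r * x * xb) ^ 2 = (a * b + 1) * (a * d + 1) * (b * d + 1) := by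
        rw [r2, Q.x2, Q.xb2]; ring
      rw [e1]
      have e2 : (a * b * d + a + b + d) ^ 2 - (a * b + 1) * (a * d + 1) * (b * d + 1)
        = a * b * d * (a + b + d) + (a ^ 2 + b ^ 2 + d ^ 2 + a * b + a * d + b * d - 1) := by ring
      have h5 : 1 ≤ a ^ 2 := one_le_pow₀ ha
      have h6 : 0 < a * b * d * (a + b + d) := by positivity
      have h7 : 0 < b ^ 2 + d ^ 2 + a * b + a * d + b * d := by positivity
      linarith
    exact (pow_le_pow_iff_left₀ (by positivity) (by positivity) two_ne_zero).1 h4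
  have hc1 : c ≤ 4 * (a * b * d) + 3 * (a + b + d) := by
    have := Q.ec
    linarith
  -- 5 ≤ 4 a d (g - 1) + a + d + g
  have h5 : 5 ≤ 4 * (a * d) * (g - 1) + a + d + g := by
    rcases le_or_gt d 3 with h6 | h6
    · have h7 : 4 * (1 * d) * (g - 1) ≤ 4 * (a * d) * (g - 1) := by
        apply mul_le_mul_of_nonneg_right _ (by linarith)
        nlinarith
      nlinarith
    · have h7 : 0 ≤ 4 * (a * d) * (g - 1) := by
        apply mul_nonneg (by positivity) (by linarith)
      linarith
  have h6 : b * (4 * (a * d) + 5) ≤ b * (4 * (a * d * g) + a + d + g) := by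
    apply mul_le_mul_of_nonneg_left _ hb0.le
    linarith
  have h7 : b * (4 * (a * d * g) + a + d + g) < b * b := mul_lt_mul_of_pos_left hb1 hb0
  have h8 : 4 * (1 * d * 1) ≤ 4 * (a * d * g) := by
    have : 1 * d * 1 ≤ a * d * g := mul_le_mul (mul_le_mul_of_nonneg_right ha (by linarith)) hg
      (by norm_num) (by positivity)
    linarith
  have h9 : b ^ 2 = b * b := by ring
  rw [h9]
  have h10 : b * (4 * (a * d) + 5) = 4 * (a * b * d) + 5 * b := by ring
  linarith

end Pool.Agent.Work.MP_71a505_up
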