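import Mathlib
import Pool.Agent.Work.MP_71a505_up.Defs
import Pool.Agent.Work.MP_71a505_up_helper67.H1F
import Pool.Agent.Work.MP_71a505_up_helper43.H2F
import Pool.Agent.Work.MP_71a505_up_helper40.H1B
import Pool.Agent.Work.MP_71a505_up_helper43.H2B

namespace Pool.Agent.Work.MP_71a505_up

/-- an integral combination of `α, β, γ` has integral square -/
theorem sq_isI {a b c r s t W e α β γ δ F1 F2 F3 : ℝ} (I : II a b c r s t W e α β γ δ)
    (h1 : IsI F1) (h2 : IsI F2) (h3 : IsI F3) : IsI ((α * F1 + β * F2 + γ * F3) ^ 2) := by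
  have e1 : (α * F1 + β * F2 + γ * F3) ^ 2 = α ^ 2 * (F1 * F1) + β ^ 2 * (F2 * F2)
      + γ ^ 2 * (F3 * F3) + (α * β * (F1 * F2) + α * β * (F1 * F2))
      + (α * γ * (F1 * F3) + α * γ * (F1 * F3)) + (β * γ * (F2 * F3) + β * γ * (F2 * F3)) := by
    ring
  rw [e1]
  exact (((((I.iA.mul (h1.mul h1)).add (I.iB.mul (h2.mul h2))).add (I.iC.mul (h3.mul h3))).add
    ((I.iAB.mul (h1.mul h2)).add (I.iAB.mul (h1.mul h2)))).add
    ((I.iAC.mul (h1.mul h3)).add (I.iAC.mul (h1.mul h3)))).add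
    ((I.iBC.mul (h2.mul h3)).add (I.iBC.mul (h2.mul h3)))

/-- if `F = δ Y ≠ 0` with `F²` integral and `|Y e W| ≤ B` then `e² W ≤ 2 B²` -/
theorem M_le {W e D F δ Y B : ℝ} (hW : 0 < W) (he : 0 < e) (hD : δ ^ 2 = D) (hD2 : D ≤ 2 * W)
    (hF : F = δ * Y) (hI : IsI (F ^ 2)) (hne : F ≠ 0) (hB0 : 0 ≤ B)
    (hB : |Y * (e * W)| ≤ B) : e ^ 2 * W ≤ 2 * B ^ 2 := by
  have h1 : 0 < F ^ 2 := by positivity
  have h2 := hI.one_le h1
  have h3 : F ^ 2 = D * Y ^ 2 := by rw [hF, mul_pow, hD]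
  have h4 : (Y * (e * W)) ^ 2 ≤ B ^ 2 := by
    rw [← sq_abs]
    exact pow_le_pow_left₀ (abs_nonneg _) hB 2
  have h5 : D * Y ^ 2 ≤ 2 * W * Y ^ 2 := mul_le_mul_of_nonneg_right hD2 (sq_nonneg _)
  have h6 : 1 ≤ 2 * W * Y ^ 2 := by linarith
  have h7 : W * (e ^ 2 * W) * 1 ≤ W * (e ^ 2 * W) * (2 * W * Y ^ 2) :=
    mul_le_mul_of_nonneg_left h6 (by positivity)
  have h8 : W * (e ^ 2 * W) ≤ W * (2 * B ^ 2) := by
    calc W * (e ^ 2 * W) = W * (e ^ 2 * W) * 1 := by ring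
      _ ≤ W * (e ^ 2 * W) * (2 * W * Y ^ 2) := h7
      _ = W * (2 * (Y * (e * W)) ^ 2) := by ring
      _ ≤ W * (2 * B ^ 2) := by
          apply mul_le_mul_of_nonneg_left _ hW.le
          linarith
  exact le_of_mul_le_mul_left h8 hW

/-- lower bound for `M = e² W` -/
theorem M_ge {a b c d g r s t x y z xb yb xc W e h α β γ δ : ℝ}
    (R : RD a b c r s t W e h α β γ δ) (Q : RQ a b c d g r s t x y z xb yb xc)
    (hdc : 4 * a * b * d < c) (hgb : 4 * a * d * g < b) :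
    4 * (a ^ 9 * d ^ 5 * g ^ 2) ≤ (e ^ 2 * W) ^ 6 := by
  have ha := Q.a1
  have hd := Q.d1
  have hg := Q.g1
  have hW := R.hW
  have he := R.he
  have h12 := R.hb
  have hb0 : 0 < b := by linarith
  have hc0 : 0 < c := by
    have := R.hc
    have : 0 < 4 * a * b := by positivity
    linarith
  have h1 : a * c / 4 ≤ e ^ 3 * W ^ 2 := by
    have h2 := R.acb
    have h3 : 4 * b ≤ c := by
      have h4 := R.hc
      have : 4 * b * 1 ≤ 4 * b * a := mul_le_mul_of_nonneg_left ha (by positivity)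
      linarith
    have h4 : a * (3 / 4 * c) ≤ a * (c - b) := mul_le_mul_of_nonneg_left (by linarith) (by linarith)
    have h5 : W ^ 2 * (e ^ 3 * (2 + e)) ≤ W ^ 2 * (e ^ 3 * 3) := by
      have := R.he1
      gcongr
      linarith
    linarith
  have h2 : W ^ 2 ≤ b * c := by
    have h3 := R.bca
    have h4 : W ^ 2 * 1 ≤ W ^ 2 * (1 + 2 * e) := by
      apply mul_le_mul_of_nonneg_left _ (by positivity)
      linarith
    have h5 : 0 < b * a := by positivity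
    linarith
  have h3 : (a * c / 4) ^ 4 ≤ (e ^ 3 * W ^ 2) ^ 4 := pow_le_pow_left₀ (by positivity) h1 4
  -- (e³W²)⁴ = M⁶ W²
  have h4 : (e ^ 3 * W ^ 2) ^ 4 = (e ^ 2 * W) ^ 6 * W ^ 2 := by ring
  rw [h4] at h3
  have h5 : (e ^ 2 * W) ^ 6 * W ^ 2 ≤ (e ^ 2 * W) ^ 6 * (b * c) :=
    mul_le_mul_of_nonneg_left h2 (by positivity)
  have h6 : (b * c) * (a ^ 4 * c ^ 3 / (256 * b)) ≤ (b * c) * (e ^ 2 * W) ^ 6 := by
    calc (b * c) * (a ^ 4 * c ^ 3 / (256 * b)) = (a * c / 4) ^ 4 := by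
          field_simp; ring
      _ ≤ (e ^ 2 * W) ^ 6 * W ^ 2 := h3
      _ ≤ (e ^ 2 * W) ^ 6 * (b * c) := h5
      _ = _ := by ring
  have h7 : a ^ 4 * c ^ 3 / (256 * b) ≤ (e ^ 2 * W) ^ 6 :=
    le_of_mul_le_mul_left h6 (by positivity)
  refine le_trans ?_ h7
  rw [le_div_iff₀ (by positivity)]
  have h8 : (4 * a * b * d) ^ 3 ≤ c ^ 3 := pow_le_pow_left₀ (by positivity) hdc.le 3
  have h9 : (4 * a * d * g) ^ 2 ≤ b ^ 2 := pow_le_pow_left₀ (by positivity) hgb.le 2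
  calc 4 * (a ^ 9 * d ^ 5 * g ^ 2) * (256 * b)
      = (64 * (a ^ 7 * b * d ^ 3)) * (4 * a * d * g) ^ 2 := by ring
    _ ≤ (64 * (a ^ 7 * b * d ^ 3)) * b ^ 2 := mul_le_mul_of_nonneg_left h9 (by positivity)
    _ = a ^ 4 * (4 * a * b * d) ^ 3 := by ring
    _ ≤ a ^ 4 * c ^ 3 := mul_le_mul_of_nonneg_left h8 (by positivity)

/-- the lower bound -/
theorem lower_bound {a b c d g r s t x y z xb yb xc W e h α β γ δ : ℝ}
    (hz1 : e ^ 3 * b < a ∧ 3 * a ≤ 8 * (e ^ 3 * b) ∧ W ^ 2 ≤ b * c ∧ b * c ≤ 4 * W ^ 2 ∧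
      h * c ≤ b ∧ 50 ≤ b ∧ W < t ∧ 47 * c ≤ 48 * (c - a))
    (R : RD a b c r s t W e h α β γ δ) (I : II a b c r s t W e α β γ δ)
    (Q : RQ a b c d g r s t x y z xb yb xc) (ix : IsI x)
    (hdc : 4 * a * b * d < c) (hgb : 4 * a * d * g < b) :
    a ^ 13 < (10 ^ 4 * b) ^ 10 := by
  have ha := Q.a1
  have hd := Q.d1
  have hg := Q.g1
  have ha0 : 0 < a := by linarith
  have hb0 : 0 < b := by linarith [R.hb]
  -- main consequence of `a³ ≤ C (dg)^10`
  have hfin : a ^ 3 ≤ 10 ^ 43 * (d * g) ^ 10 → a ^ 13 < (10 ^ 4 * b) ^ 10 := by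
    intro h1
    have h2 : (4 * a * d * g) ^ 10 < b ^ 10 := pow_lt_pow_left₀ hgb (by positivity) (by norm_num)
    have h3 : a ^ 10 * a ^ 3 ≤ a ^ 10 * (10 ^ 43 * (d * g) ^ 10) :=
      mul_le_mul_of_nonneg_left h1 (by positivity)
    calc a ^ 13 = a ^ 10 * a ^ 3 := by ring
      _ ≤ a ^ 10 * (10 ^ 43 * (d * g) ^ 10) := h3
      _ = 10 ^ 43 / 4 ^ 10 * (4 * a * d * g) ^ 10 := by ring
      _ < 10 ^ 43 / 4 ^ 10 * b ^ 10 := mul_lt_mul_of_pos_left h2 (by norm_num)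
      _ ≤ 10 ^ 40 * b ^ 10 := mul_le_mul_of_nonneg_right (by norm_num) (by positivity)
      _ = (10 ^ 4 * b) ^ 10 := by ring
  rcases lt_or_ge a (1000 * (d * g)) with hadg | hadg
  · apply hfin
    have h1 : a ^ 3 ≤ (1000 * (d * g)) ^ 3 := pow_le_pow_left₀ ha0.le hadg.le 3
    have h2 : (d * g) ^ 3 ≤ (d * g) ^ 10 := pow_le_pow_right₀ (by nlinarith) (by norm_num)
    have h3 : 0 < (d * g) ^ 10 := by positivity
    calc a ^ 3 ≤ (1000 * (d * g)) ^ 3 := h1
      _ = 1000000000 * (d * g) ^ 3 := by ring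
      _ ≤ 1000000000 * (d * g) ^ 10 := mul_le_mul_of_nonneg_left h2 (by norm_num)
      _ ≤ 10 ^ 43 * (d * g) ^ 10 := mul_le_mul_of_nonneg_right (by norm_num) h3.le
  · have hM := M_ge R Q hdc hgb
    have hx2 : x ^ 2 ≤ 2 * (a * d) := by
      rw [← Q.x2]
      have : 1 * 1 ≤ a * d := mul_le_mul ha hd (by norm_num) (by linarith)
      linarith
    have hy2 : y ^ 2 ≤ 2 * (a * g) := by
      rw [← Q.y2]
      have : 1 * 1 ≤ a * g := mul_le_mul ha hg (by norm_num) (by linarith)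
      linarith
    have hD2 : δ ^ 2 ≤ 2 * W := by
      rw [R.D2]
      apply mul_le_mul_of_nonneg_right _ R.hW.le
      have h1 := R.he
      have h2 := R.he1
      have h3 : 0 < h * e := mul_pos R.hh R.he
      nlinarith
    have hM0 : 0 < e ^ 2 * W := by
      have := R.he
      have := R.hW
      positivity
    rcases le_total g d with hgd | hgd
    · -- H1
      have k1 := H1_formula R Q rfl rfl rfl (rfl : (c - a - b - d) / 2 = (c - a - b - d) / 2)
      obtain ⟨k2, k3⟩ := H1_size hz1 R Q hadg rfl rfl rfl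
        (rfl : (c - a - b - d) / 2 = (c - a - b - d) / 2)
      have hI : IsI ((27 * α * y * xc - 8 * α * y * z + 33 * α * yb - 11 * β * g
          - 9 * β * y * xb + 9 * γ * x * y) ^ 2) := by
        have e1 : 27 * α * y * xc - 8 * α * y * z + 33 * α * yb - 11 * β * g
          - 9 * β * y * xb + 9 * γ * x * y = α * (((27 : ℤ) : ℝ) * (y * xc)
            - ((8 : ℤ) : ℝ) * (y * z) + ((33 : ℤ) : ℝ) * yb)
          + β * (-(((11 : ℤ) : ℝ) * g) - ((9 : ℤ) : ℝ) * (y * xb)) + γ * (((9 : ℤ) : ℝ) * (x * y)) := by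
          push_cast; ring
        rw [e1]
        apply sq_isI I
        · exact (((IsI.int 27).mul (Q.iy.mul Q.ixc)).sub ((IsI.int 8).mul (Q.iy.mul Q.iz))).add
            ((IsI.int 33).mul Q.iyb)
        · exact (((IsI.int 11).mul Q.ig).neg).sub ((IsI.int 9).mul (Q.iy.mul Q.ixb))
        · exact (IsI.int 9).mul (ix.mul Q.iy)
      set F := 27 * α * y * xc - 8 * α * y * z + 33 * α * yb - 11 * β * g
          - 9 * β * y * xb + 9 * γ * x * y
      set Y := y * (9 * ((c - a - b - d) / 2) * (3 / ((h + 3) * e * W) - 1 / ((h + 1 - e) * e * W)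
          + 1 / ((1 - e - h * e) * W)) + (29 * b - 4 * a + 31 * d + 4 * g) / ((h + 3) * e * W)
          + (-11 * b + 2 * a - 11 * d) / ((h + 1 - e) * e * W) + 9 * b / ((1 - e - h * e) * W))
          + xb * (22 / ((h + 1 - e) * e * W) - 33 / ((h + 3) * e * W))
      have hY0 : Y ≠ 0 := by
        intro h0
        rw [h0, zero_mul] at k2
        exact lt_irrefl _ k2
      have hF0 : F ≠ 0 := by
        rw [k1]
        exact mul_ne_zero R.hδ.ne' hY0
      have h1 := M_le R.hW R.he rfl hD2 k1 hI hF0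
        (B := 1000 * (y * (d + g))) (by
          have := Q.y0
          positivity) (by rw [abs_of_pos k2]; exact k3)
      apply hfin
      have h2 : e ^ 2 * W ≤ 16000000 * (a * g * d ^ 2) := by
        calc e ^ 2 * W ≤ 2 * (1000 * (y * (d + g))) ^ 2 := h1
          _ = 2000000 * (y ^ 2 * (d + g) ^ 2) := by ring
          _ ≤ 2000000 * ((2 * (a * g)) * (2 * d) ^ 2) := by
              gcongr
              linarith
          _ = 16000000 * (a * g * d ^ 2) := by ring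
      have h3 : (e ^ 2 * W) ^ 6 ≤ (16000000 * (a * g * d ^ 2)) ^ 6 :=
        pow_le_pow_left₀ hM0.le h2 6
      have h4 : (a ^ 6 * d ^ 5 * g ^ 2) * a ^ 3
          ≤ (a ^ 6 * d ^ 5 * g ^ 2) * (16000000 ^ 6 / 4 * (g ^ 4 * d ^ 7)) := by
        calc (a ^ 6 * d ^ 5 * g ^ 2) * a ^ 3 = 4 * (a ^ 9 * d ^ 5 * g ^ 2) / 4 := by ring
          _ ≤ (16000000 * (a * g * d ^ 2)) ^ 6 / 4 := by linarith
          _ = _ := by ring
      have h5 : a ^ 3 ≤ 16000000 ^ 6 / 4 * (g ^ 4 * d ^ 7) :=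
        le_of_mul_le_mul_left h4 (by positivity)
      have h6 : g ^ 4 * d ^ 7 ≤ (d * g) ^ 10 := by
        have h7 : g ^ 4 ≤ g ^ 10 := pow_le_pow_right₀ hg (by norm_num)
        have h8 : d ^ 7 ≤ d ^ 10 := pow_le_pow_right₀ hd (by norm_num)
        calc g ^ 4 * d ^ 7 ≤ g ^ 10 * d ^ 10 := mul_le_mul h7 h8 (by positivity) (by positivity)
          _ = (d * g) ^ 10 := by ring
      have h7 : 0 < (d * g) ^ 10 := by positivity
      calc a ^ 3 ≤ 16000000 ^ 6 / 4 * (g ^ 4 * d ^ 7) := h5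
        _ ≤ 16000000 ^ 6 / 4 * (d * g) ^ 10 := mul_le_mul_of_nonneg_left h6 (by norm_num)
        _ ≤ 10 ^ 43 * (d * g) ^ 10 := mul_le_mul_of_nonneg_right (by norm_num) h7.le
    · -- H2
      have k1 := H2_formula R Q rfl rfl rfl (rfl : (c - a - b - d) / 2 = (c - a - b - d) / 2)
      obtain ⟨k2, k3⟩ := H2_size R Q hadg rfl rfl rfl
        (rfl : (c - a - b - d) / 2 = (c - a - b - d) / 2)
      have hI : IsI ((54 * α * x * xc - 16 * α * x * z - 66 * α * xb - 9 * β * xc + 13 * β * z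
          - 22 * γ + 18 * γ * x ^ 2) ^ 2) := by
        have e1 : 54 * α * x * xc - 16 * α * x * z - 66 * α * xb - 9 * β * xc + 13 * β * z
          - 22 * γ + 18 * γ * x ^ 2 = α * (((54 : ℤ) : ℝ) * (x * xc)
            - ((16 : ℤ) : ℝ) * (x * z) - ((66 : ℤ) : ℝ) * xb)
          + β * (((13 : ℤ) : ℝ) * z - ((9 : ℤ) : ℝ) * xc)
          + γ * (((18 : ℤ) : ℝ) * (x * x) - ((22 : ℤ) : ℝ)) := by
          push_cast; ring
        rw [e1]
        apply sq_isI I
        · exact (((IsI.int 54).mul (ix.mul Q.ixc)).sub ((IsI.int 16).mul (ix.mul Q.iz))).sub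
            ((IsI.int 66).mul Q.ixb)
        · exact ((IsI.int 13).mul Q.iz).sub ((IsI.int 9).mul Q.ixc)
        · exact ((IsI.int 18).mul (ix.mul ix)).sub (IsI.int 22)
      set F := 54 * α * x * xc - 16 * α * x * z - 66 * α * xb - 9 * β * xc + 13 * β * z
          - 22 * γ + 18 * γ * x ^ 2
      set Y := x * (18 * ((c - a - b - d) / 2) * (3 / ((h + 3) * e * W)
          - 1 / ((h + 1 - e) * e * W) + 1 / ((1 - e - h * e) * W))
          + (-74 * b - 8 * a + 62 * d + 8 * g) / ((h + 3) * e * W)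
          + (22 * b + 4 * a - 22 * d) / ((h + 1 - e) * e * W) - 26 * b / ((1 - e - h * e) * W))
          + 22 * yb * (3 / ((h + 3) * e * W) - 1 / ((h + 1 - e) * e * W)
          + 1 / ((1 - e - h * e) * W))
      have hY0 : Y ≠ 0 := by
        intro h0
        rw [h0, zero_mul] at k2
        exact lt_irrefl _ k2
      have hF0 : F ≠ 0 := by
        rw [k1]
        exact mul_ne_zero R.hδ.ne' hY0
      have h1 := M_le R.hW R.he rfl hD2 k1 hI hF0
        (B := 1000 * (x * (d + g))) (by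
          have := Q.x0
          positivity) (by rw [abs_of_neg k2]; linarith)
      apply hfin
      have h2 : e ^ 2 * W ≤ 16000000 * (a * d * g ^ 2) := by
        calc e ^ 2 * W ≤ 2 * (1000 * (x * (d + g))) ^ 2 := h1
          _ = 2000000 * (x ^ 2 * (d + g) ^ 2) := by ring
          _ ≤ 2000000 * ((2 * (a * d)) * (2 * g) ^ 2) := by
              gcongr
              linarith
          _ = 16000000 * (a * d * g ^ 2) := by ring
      have h3 : (e ^ 2 * W) ^ 6 ≤ (16000000 * (a * d * g ^ 2)) ^ 6 :=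
        pow_le_pow_left₀ hM0.le h2 6
      have h4 : (a ^ 6 * d ^ 5 * g ^ 2) * a ^ 3
          ≤ (a ^ 6 * d ^ 5 * g ^ 2) * (16000000 ^ 6 / 4 * (d * g ^ 10)) := by
        calc (a ^ 6 * d ^ 5 * g ^ 2) * a ^ 3 = 4 * (a ^ 9 * d ^ 5 * g ^ 2) / 4 := by ring
          _ ≤ (16000000 * (a * d * g ^ 2)) ^ 6 / 4 := by linarith
          _ = _ := by ring
      have h5 : a ^ 3 ≤ 16000000 ^ 6 / 4 * (d * g ^ 10) :=
        le_of_mul_le_mul_left h4 (by positivity)
      have h6 : d * g ^ 10 ≤ (d * g) ^ 10 := by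
        have h8 : d ^ 1 ≤ d ^ 10 := pow_le_pow_right₀ hd (by norm_num)
        calc d * g ^ 10 = d ^ 1 * g ^ 10 := by ring
          _ ≤ d ^ 10 * g ^ 10 := mul_le_mul_of_nonneg_right h8 (by positivity)
          _ = (d * g) ^ 10 := by ring
      have h7 : 0 < (d * g) ^ 10 := by positivity
      calc a ^ 3 ≤ 16000000 ^ 6 / 4 * (d * g ^ 10) := h5
        _ ≤ 16000000 ^ 6 / 4 * (d * g) ^ 10 := mul_le_mul_of_nonneg_left h6 (by norm_num)
        _ ≤ 10 ^ 43 * (d * g) ^ 10 := mul_le_mul_of_nonneg_right (by norm_num) h7.le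

end Pool.Agent.Work.MP_71a505_up
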