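import Mathlib

namespace Pool.Agent.Work.MP_71a505_up

theorem fin0 {L P : ℝ} (hP : 0 ≤ P) (hL : 0 ≤ L) : 0 ≤ L + P - 0 := by linarith
theorem fins0 {L P : ℝ} (hP : 0 ≤ P) (hL : 0 < L) : 0 < L + P - 0 := by linarith

theorem fin1 {L P m1 Q1 c1 : ℝ} (hm1 : 0 ≤ m1) (hP : 0 ≤ P) (h1 : Q1 ≤ c1)
    (hL : m1 * c1 ≤ L) : 0 ≤ L + P - (m1 * Q1) := by
  have := mul_le_mul_of_nonneg_left h1 hm1
  linarith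
theorem fins1 {L P m1 Q1 c1 : ℝ} (hm1 : 0 ≤ m1) (hP : 0 ≤ P) (h1 : Q1 ≤ c1)
    (hL : m1 * c1 < L) : 0 < L + P - (m1 * Q1) := by
  have := mul_le_mul_of_nonneg_left h1 hm1
  linarith

theorem fin2 {L P m1 Q1 c1 m2 Q2 c2 : ℝ} (hm1 : 0 ≤ m1) (hm2 : 0 ≤ m2) (hP : 0 ≤ P)
    (h1 : Q1 ≤ c1) (h2 : Q2 ≤ c2) (hL : m1 * c1 + m2 * c2 ≤ L) :
    0 ≤ L + P - (m1 * Q1 + m2 * Q2) := by
  have := mul_le_mul_of_nonneg_left h1 hm1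
  have := mul_le_mul_of_nonneg_left h2 hm2
  linarith
theorem fins2 {L P m1 Q1 c1 m2 Q2 c2 : ℝ} (hm1 : 0 ≤ m1) (hm2 : 0 ≤ m2) (hP : 0 ≤ P)
    (h1 : Q1 ≤ c1) (h2 : Q2 ≤ c2) (hL : m1 * c1 + m2 * c2 < L) :
    0 < L + P - (m1 * Q1 + m2 * Q2) := by
  have := mul_le_mul_of_nonneg_left h1 hm1
  have := mul_le_mul_of_nonneg_left h2 hm2
  linarith

theorem fin3 {L P m1 Q1 c1 m2 Q2 c2 m3 Q3 c3 : ℝ} (hm1 : 0 ≤ m1) (hm2 : 0 ≤ m2) (hm3 : 0 ≤ m3)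
    (hP : 0 ≤ P) (h1 : Q1 ≤ c1) (h2 : Q2 ≤ c2) (h3 : Q3 ≤ c3)
    (hL : m1 * c1 + m2 * c2 + m3 * c3 ≤ L) :
    0 ≤ L + P - (m1 * Q1 + m2 * Q2 + m3 * Q3) := by
  have := mul_le_mul_of_nonneg_left h1 hm1
  have := mul_le_mul_of_nonneg_left h2 hm2
  have := mul_le_mul_of_nonneg_left h3 hm3
  linarith

end Pool.Agent.Work.MP_71a505_up
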