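import Mathlib
import Pool.Agent.Work.MP_71a505_up.QFin

namespace Pool.Agent.Work.MP_71a505_up

noncomputable def R036_p0 (e h : ℝ) : ℝ :=
  240 + 336 * e + 320 * h + 40 * (e * h) + 80 * h ^ 2 + 1764 * e ^ 4 + 2184 * (e ^ 3 * h)
  + 1524 * (e ^ 4 * h) + 4668 * (e ^ 3 * h ^ 2) + 408 * e ^ 6

noncomputable def R036_p1 (e h : ℝ) : ℝ :=
  921 * (e ^ 4 * h ^ 2) + 3294 * (e ^ 3 * h ^ 3) + 814 * (e ^ 6 * h) + 558 * (e ^ 4 * h ^ 3)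
  + 908 * (e ^ 3 * h ^ 4) + 214 * (e ^ 6 * h ^ 2) + 94 * (e ^ 4 * h ^ 4) + 92 * (e ^ 3 * h ^ 5)

noncomputable def R036_n0 (e h : ℝ) : ℝ :=
  1404 * e ^ 2 + 36 * e ^ 3 + 2520 * (e ^ 2 * h) + 336 * (e * h ^ 2) + 1572 * (e ^ 2 * h ^ 2)
  + 96 * (e * h ^ 3) + 1116 * e ^ 5 + 288 * (e ^ 2 * h ^ 3) + 2298 * (e ^ 5 * h)
  + 12 * (e ^ 2 * h ^ 4)

noncomputable def R036_n1 (e h : ℝ) : ℝ :=
  192 * e ^ 7 + 1653 * (e ^ 5 * h ^ 2) + 64 * (e ^ 7 * h) + 309 * (e ^ 5 * h ^ 3)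

noncomputable def R036 (e h : ℝ) : ℝ :=
  R036_p0 e h + R036_p1 e h - (R036_n0 e h + R036_n1 e h)

noncomputable def P36_p0 (e h : ℝ) : ℝ :=
  240 + 320 * h + 80 * h ^ 2 + 2652 * e ^ 3 + 5156 * (e ^ 3 * h) + 72 * e ^ 5
  + 4052 * (e ^ 3 * h ^ 2) + 128 * (e ^ 2 * h ^ 3) + 240 * (e ^ 5 * h) + 1986 * (e ^ 3 * h ^ 3)

noncomputable def P36_p1 (e h : ℝ) : ℝ :=
  60 * (e ^ 2 * h ^ 4) + 108 * e ^ 7 + 75 * (e ^ 5 * h ^ 2) + 420 * (e ^ 3 * h ^ 4)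
  + 108 * (e ^ 7 * h) + 175 * (e ^ 5 * h ^ 3) + 36 * (e ^ 3 * h ^ 5)

noncomputable def P36_n0 (e h : ℝ) : ℝ :=
  144 * e + 1476 * e ^ 2 + 840 * (e * h) + 1896 * (e ^ 2 * h) + 816 * (e * h ^ 2) + 1368 * e ^ 4
  + 804 * (e ^ 2 * h ^ 2) + 176 * (e * h ^ 3) + 2868 * (e ^ 4 * h) + 84 * e ^ 6

noncomputable def P36_n1 (e h : ℝ) : ℝ :=
  2343 * (e ^ 4 * h ^ 2) + 220 * (e ^ 6 * h) + 574 * (e ^ 4 * h ^ 3) + 244 * (e ^ 6 * h ^ 2)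
  + 102 * (e ^ 4 * h ^ 4)

noncomputable def P36 (e h : ℝ) : ℝ :=
  P36_p0 e h + P36_p1 e h - (P36_n0 e h + P36_n1 e h)


end Pool.Agent.Work.MP_71a505_up
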