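import Mathlib
import Pool.Agent.Work.MP_71a505_up.Q36d

namespace Pool.Agent.Work.MP_71a505_up

noncomputable def N36_lower0_c0 (e h : ℝ) : ℝ :=
  3033936 * (e ^ 3 * h ^ 2) + 45840 * (e ^ 2 * h ^ 3) + 7254528 * (e ^ 3 * h ^ 3)
  + 391680 * (e ^ 2 * h ^ 4) + 646848 * e ^ 7 + 30407808 * (e ^ 6 * h) + 3456000 * (e ^ 3 * h ^ 4)
  + 92160 * (e ^ 2 * h ^ 5) + 4696704 * e ^ 8 + 135382496 * (e ^ 6 * h ^ 2)

theorem N36_lower0_c0_nn {e h : ℝ} (he : 0 < e) (hh : 0 < h) : 0 ≤ N36_lower0_c0 e h := by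
  unfold N36_lower0_c0; positivity

noncomputable def N36_lower0_c1 (e h : ℝ) : ℝ :=
  746496 * (e ^ 3 * h ^ 5) + 7680 * (e ^ 2 * h ^ 6) + 263396608 * (e ^ 6 * h ^ 3)
  + 70656 * (e ^ 3 * h ^ 6) + 25171776 * e ^ 10 + 299273600 * (e ^ 6 * h ^ 4)
  + 7350144 * (e ^ 5 * h ^ 5) + 2304 * (e ^ 3 * h ^ 7) + 64865376 * (e ^ 10 * h)
  + 90966144 * (e ^ 9 * h ^ 2)

theorem N36_lower0_c1_nn {e h : ℝ} (he : 0 < e) (hh : 0 < h) : 0 ≤ N36_lower0_c1 e h := by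
  unfold N36_lower0_c1; positivity

noncomputable def N36_lower0_c2 (e h : ℝ) : ℝ :=
  215778560 * (e ^ 6 * h ^ 5) + 10553856 * (e ^ 5 * h ^ 6) + 14124672 * e ^ 12
  + 54948840 * (e ^ 10 * h ^ 2) + 208807776 * (e ^ 9 * h ^ 3) + 97953856 * (e ^ 6 * h ^ 6)
  + 4089600 * (e ^ 5 * h ^ 7) + 47022912 * (e ^ 12 * h) + 238775360 * (e ^ 9 * h ^ 4)
  + 27643136 * (e ^ 6 * h ^ 7)

theorem N36_lower0_c2_nn {e h : ℝ} (he : 0 < e) (hh : 0 < h) : 0 ≤ N36_lower0_c2 e h := by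
  unfold N36_lower0_c2; positivity

noncomputable def N36_lower0_c3 (e h : ℝ) : ℝ :=
  716544 * (e ^ 5 * h ^ 8) + 1939680 * e ^ 14 + 69066240 * (e ^ 12 * h ^ 2)
  + 169212596 * (e ^ 9 * h ^ 5) + 4672160 * (e ^ 6 * h ^ 8) + 48576 * (e ^ 5 * h ^ 9)
  + 5591520 * (e ^ 14 * h) + 58999608 * (e ^ 12 * h ^ 3) + 73634368 * (e ^ 9 * h ^ 6)
  + 429952 * (e ^ 6 * h ^ 9)

theorem N36_lower0_c3_nn {e h : ℝ} (he : 0 < e) (hh : 0 < h) : 0 ≤ N36_lower0_c3 e h := by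
  unfold N36_lower0_c3; positivity

noncomputable def N36_lower0_c4 (e h : ℝ) : ℝ :=
  73728 * e ^ 16 + 5823528 * (e ^ 14 * h ^ 2) + 29396270 * (e ^ 12 * h ^ 4)
  + 19041088 * (e ^ 9 * h ^ 7) + 16640 * (e ^ 6 * h ^ 10) + 49152 * (e ^ 16 * h)
  + 2336976 * (e ^ 14 * h ^ 3) + 7744364 * (e ^ 12 * h ^ 5) + 2658496 * (e ^ 9 * h ^ 8)
  + 8192 * (e ^ 16 * h ^ 2)

theorem N36_lower0_c4_nn {e h : ℝ} (he : 0 < e) (hh : 0 < h) : 0 ≤ N36_lower0_c4 e h := by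
  unfold N36_lower0_c4; positivity

noncomputable def N36_lower0_c5 (e h : ℝ) : ℝ :=
  305576 * (e ^ 14 * h ^ 4) + 788158 * (e ^ 12 * h ^ 6) + 13376 * (e ^ 10 * h ^ 8)
  + 155648 * (e ^ 9 * h ^ 9)

theorem N36_lower0_c5_nn {e h : ℝ} (he : 0 < e) (hh : 0 < h) : 0 ≤ N36_lower0_c5 e h := by
  unfold N36_lower0_c5; positivity

noncomputable def N36_lower0_q0_0 (e h : ℝ) : ℝ :=
  848160 * e + 16104960 * e ^ 4 + 23442048 * e ^ 6 + 5923584 * e ^ 8 + 507456 * e ^ 10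

theorem N36_lower0_q0_0_le {e h : ℝ} (he : 0 < e) (he1 : e ≤ 1 / 100) (hh : 0 < h) (hh1 : h ≤ 1 / 100) : N36_lower0_q0_0 e h ≤ (4240881 / 500) := by
  unfold N36_lower0_q0_0
  refine le_trans (b := (848160 * (1 / 100) + 16104960 * (1 / 100) ^ 4 + 23442048 * (1 / 100) ^ 6
    + 5923584 * (1 / 100) ^ 8 + 507456 * (1 / 100) ^ 10 : ℝ)) (by gcongr) (by norm_num)

noncomputable def N36_lower0_q1_0 (e h : ℝ) : ℝ :=
  2654208 * e + 11588904 * e ^ 2 + 15404544 * (e * h) + 37777920 * (e ^ 2 * h)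
  + 33672192 * (e * h ^ 2) + 12922752 * e ^ 4 + 46991616 * (e ^ 2 * h ^ 2)
  + 35298048 * (e * h ^ 3) + 19989504 * e ^ 5 + 82926272 * (e ^ 4 * h)

theorem N36_lower0_q1_0_le {e h : ℝ} (he : 0 < e) (he1 : e ≤ 1 / 100) (hh : 0 < h) (hh1 : h ≤ 1 / 100) : N36_lower0_q1_0 e h ≤ (14656919 / 500) := by
  unfold N36_lower0_q1_0
  refine le_trans (b := (2654208 * (1 / 100) + 11588904 * (1 / 100) ^ 2 + 15404544 * ((1 / 100) * (1 / 100))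
    + 37777920 * ((1 / 100) ^ 2 * (1 / 100)) + 33672192 * ((1 / 100) * (1 / 100) ^ 2)
    + 12922752 * (1 / 100) ^ 4 + 46991616 * ((1 / 100) ^ 2 * (1 / 100) ^ 2)
    + 35298048 * ((1 / 100) * (1 / 100) ^ 3) + 19989504 * (1 / 100) ^ 5
    + 82926272 * ((1 / 100) ^ 4 * (1 / 100)) : ℝ)) (by gcongr) (by norm_num)

noncomputable def N36_lower0_q1_1 (e h : ℝ) : ℝ :=
  20817408 * (e ^ 2 * h ^ 3) + 18914304 * (e * h ^ 4) + 5177232 * e ^ 6 + 88825392 * (e ^ 5 * h)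
  + 217524912 * (e ^ 4 * h ^ 2) + 5478144 * (e * h ^ 5) + 124844928 * (e ^ 5 * h ^ 2)
  + 326795392 * (e ^ 4 * h ^ 3) + 832512 * (e * h ^ 6) + 78073200 * e ^ 8

theorem N36_lower0_q1_1_le {e h : ℝ} (he : 0 < e) (he1 : e ≤ 1 / 100) (hh : 0 < h) (hh1 : h ≤ 1 / 100) : N36_lower0_q1_1 e h ≤ (859 / 200000) := by
  unfold N36_lower0_q1_1
  refine le_trans (b := (20817408 * ((1 / 100) ^ 2 * (1 / 100) ^ 3) + 18914304 * ((1 / 100) * (1 / 100) ^ 4)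
    + 5177232 * (1 / 100) ^ 6 + 88825392 * ((1 / 100) ^ 5 * (1 / 100))
    + 217524912 * ((1 / 100) ^ 4 * (1 / 100) ^ 2) + 5478144 * ((1 / 100) * (1 / 100) ^ 5)
    + 124844928 * ((1 / 100) ^ 5 * (1 / 100) ^ 2) + 326795392 * ((1 / 100) ^ 4 * (1 / 100) ^ 3)
    + 832512 * ((1 / 100) * (1 / 100) ^ 6) + 78073200 * (1 / 100) ^ 8 : ℝ)) (by gcongr) (by norm_num)

noncomputable def N36_lower0_q1_2 (e h : ℝ) : ℝ :=
  86405656 * (e ^ 5 * h ^ 3) + 317017280 * (e ^ 4 * h ^ 4) + 52608 * (e * h ^ 7)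
  + 112008960 * (e ^ 8 * h) + 5298288 * (e ^ 7 * h ^ 2) + 33511488 * (e ^ 5 * h ^ 4)
  + 211262016 * (e ^ 4 * h ^ 5) + 18587376 * e ^ 10 + 95777676 * (e ^ 8 * h ^ 2)
  + 39242122 * (e ^ 7 * h ^ 3)

theorem N36_lower0_q1_2_le {e h : ℝ} (he : 0 < e) (he1 : e ≤ 1 / 100) (hh : 0 < h) (hh1 : h ≤ 1 / 100) : N36_lower0_q1_2 e h ≤ (1 / 1000000) := by
  unfold N36_lower0_q1_2
  refine le_trans (b := (86405656 * ((1 / 100) ^ 5 * (1 / 100) ^ 3) + 317017280 * ((1 / 100) ^ 4 * (1 / 100) ^ 4)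
    + 52608 * ((1 / 100) * (1 / 100) ^ 7) + 112008960 * ((1 / 100) ^ 8 * (1 / 100))
    + 5298288 * ((1 / 100) ^ 7 * (1 / 100) ^ 2) + 33511488 * ((1 / 100) ^ 5 * (1 / 100) ^ 4)
    + 211262016 * ((1 / 100) ^ 4 * (1 / 100) ^ 5) + 18587376 * (1 / 100) ^ 10
    + 95777676 * ((1 / 100) ^ 8 * (1 / 100) ^ 2) + 39242122 * ((1 / 100) ^ 7 * (1 / 100) ^ 3) : ℝ)) (by gcongr) (by norm_num)

noncomputable def N36_lower0_q1_3 (e h : ℝ) : ℝ :=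
  13244928 * (e ^ 5 * h ^ 5) + 95525248 * (e ^ 4 * h ^ 6) + 25272096 * (e ^ 10 * h)
  + 57475756 * (e ^ 8 * h ^ 3) + 24024536 * (e ^ 7 * h ^ 4) + 6556672 * (e ^ 5 * h ^ 6)
  + 28475456 * (e ^ 4 * h ^ 7) + 1043472 * e ^ 12 + 17282988 * (e ^ 10 * h ^ 2)
  + 22989816 * (e ^ 8 * h ^ 4)

theorem N36_lower0_q1_3_le {e h : ℝ} (he : 0 < e) (he1 : e ≤ 1 / 100) (hh : 0 < h) (hh1 : h ≤ 1 / 100) : N36_lower0_q1_3 e h ≤ (1 / 1000000) := by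
  unfold N36_lower0_q1_3
  refine le_trans (b := (13244928 * ((1 / 100) ^ 5 * (1 / 100) ^ 5) + 95525248 * ((1 / 100) ^ 4 * (1 / 100) ^ 6)
    + 25272096 * ((1 / 100) ^ 10 * (1 / 100)) + 57475756 * ((1 / 100) ^ 8 * (1 / 100) ^ 3)
    + 24024536 * ((1 / 100) ^ 7 * (1 / 100) ^ 4) + 6556672 * ((1 / 100) ^ 5 * (1 / 100) ^ 6)
    + 28475456 * ((1 / 100) ^ 4 * (1 / 100) ^ 7) + 1043472 * (1 / 100) ^ 12
    + 17282988 * ((1 / 100) ^ 10 * (1 / 100) ^ 2) + 22989816 * ((1 / 100) ^ 8 * (1 / 100) ^ 4) : ℝ)) (by gcongr) (by norm_num)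

noncomputable def N36_lower0_q1_4 (e h : ℝ) : ℝ :=
  5927616 * (e ^ 7 * h ^ 5) + 2264352 * (e ^ 5 * h ^ 7) + 5336448 * (e ^ 4 * h ^ 8)
  + 532832 * (e ^ 12 * h) + 5564104 * (e ^ 10 * h ^ 3) + 5318184 * (e ^ 8 * h ^ 5)
  + 444224 * (e ^ 7 * h ^ 6) + 398784 * (e ^ 5 * h ^ 8) + 570496 * (e ^ 4 * h ^ 9)
  + 78736 * (e ^ 12 * h ^ 2)

theorem N36_lower0_q1_4_le {e h : ℝ} (he : 0 < e) (he1 : e ≤ 1 / 100) (hh : 0 < h) (hh1 : h ≤ 1 / 100) : N36_lower0_q1_4 e h ≤ (1 / 1000000) := by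
  unfold N36_lower0_q1_4
  refine le_trans (b := (5927616 * ((1 / 100) ^ 7 * (1 / 100) ^ 5) + 2264352 * ((1 / 100) ^ 5 * (1 / 100) ^ 7)
    + 5336448 * ((1 / 100) ^ 4 * (1 / 100) ^ 8) + 532832 * ((1 / 100) ^ 12 * (1 / 100))
    + 5564104 * ((1 / 100) ^ 10 * (1 / 100) ^ 3) + 5318184 * ((1 / 100) ^ 8 * (1 / 100) ^ 5)
    + 444224 * ((1 / 100) ^ 7 * (1 / 100) ^ 6) + 398784 * ((1 / 100) ^ 5 * (1 / 100) ^ 8)
    + 570496 * ((1 / 100) ^ 4 * (1 / 100) ^ 9) + 78736 * ((1 / 100) ^ 12 * (1 / 100) ^ 2) : ℝ)) (by gcongr) (by norm_num)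

noncomputable def N36_lower0_q1_5 (e h : ℝ) : ℝ :=
  641948 * (e ^ 10 * h ^ 4) + 497420 * (e ^ 8 * h ^ 6) + 27616 * (e ^ 5 * h ^ 9)
  + 26688 * (e ^ 4 * h ^ 10)

theorem N36_lower0_q1_5_le {e h : ℝ} (he : 0 < e) (he1 : e ≤ 1 / 100) (hh : 0 < h) (hh1 : h ≤ 1 / 100) : N36_lower0_q1_5 e h ≤ (1 / 1000000) := by
  unfold N36_lower0_q1_5
  refine le_trans (b := (641948 * ((1 / 100) ^ 10 * (1 / 100) ^ 4) + 497420 * ((1 / 100) ^ 8 * (1 / 100) ^ 6)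
    + 27616 * ((1 / 100) ^ 5 * (1 / 100) ^ 9) + 26688 * ((1 / 100) ^ 4 * (1 / 100) ^ 10) : ℝ)) (by gcongr) (by norm_num)

theorem N36_lower0 {e h : ℝ} (he : 0 < e) (he1 : e ≤ 1 / 100) (hh : 0 < h) (hh1 : h ≤ 1 / 100) :
    0 ≤ ((2 + 2 * e ^ 2 - 4 * e - 3 * (h * e)) * R036 e h ^ 2 - P36 e h ^ 2 * (h * e + 2 + 4 * e)) - (14 * e ^ 5 + 100 * (e ^ 3 * h) + 20 * (e ^ 2 * h ^ 2)) * (11530 + 31500 * h) := by
  have k_e : ((2 + 2 * e ^ 2 - 4 * e - 3 * (h * e)) * R036 e h ^ 2 - P36 e h ^ 2 * (h * e + 2 + 4 * e)) - (14 * e ^ 5 + 100 * (e ^ 3 * h) + 20 * (e ^ 2 * h ^ 2)) * (11530 + 31500 * h)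
      = (11380 * e ^ 5 + 505880 * (e ^ 3 * h) + 138040 * (e ^ 2 * h ^ 2))
      + (N36_lower0_c0 e h + N36_lower0_c1 e h + N36_lower0_c2 e h + N36_lower0_c3 e h + N36_lower0_c4 e h + N36_lower0_c5 e h)
      - ((e ^ 5) * (N36_lower0_q0_0 e h) + (e ^ 3 * h) * (N36_lower0_q1_0 e h + N36_lower0_q1_1 e h + N36_lower0_q1_2 e h + N36_lower0_q1_3 e h + N36_lower0_q1_4 e h + N36_lower0_q1_5 e h)) := by
    unfold R036 R036_p0 R036_p1 R036_n0 R036_n1 P36 P36_p0 P36_p1 P36_n0 P36_n1 N36_lower0_c0 N36_lower0_c1 N36_lower0_c2 N36_lower0_c3 N36_lower0_c4 N36_lower0_c5 N36_lower0_q0_0 N36_lower0_q1_0 N36_lower0_q1_1 N36_lower0_q1_2 N36_lower0_q1_3 N36_lower0_q1_4 N36_lower0_q1_5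
    ring
  have k_p : 0 ≤ N36_lower0_c0 e h + N36_lower0_c1 e h + N36_lower0_c2 e h + N36_lower0_c3 e h + N36_lower0_c4 e h + N36_lower0_c5 e h := by
    linarith [N36_lower0_c0_nn he hh, N36_lower0_c1_nn he hh, N36_lower0_c2_nn he hh, N36_lower0_c3_nn he hh, N36_lower0_c4_nn he hh, N36_lower0_c5_nn he hh]
  have k_q0 : N36_lower0_q0_0 e h ≤ (4240881 / 500) := by
    linarith [N36_lower0_q0_0_le he he1 hh hh1]
  have k_q1 : N36_lower0_q1_0 e h + N36_lower0_q1_1 e h + N36_lower0_q1_2 e h + N36_lower0_q1_3 e h + N36_lower0_q1_4 e h + N36_lower0_q1_5 e h ≤ (29313842299 / 1000000) := by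
    linarith [N36_lower0_q1_0_le he he1 hh hh1, N36_lower0_q1_1_le he he1 hh hh1, N36_lower0_q1_2_le he he1 hh hh1, N36_lower0_q1_3_le he he1 hh hh1, N36_lower0_q1_4_le he he1 hh hh1, N36_lower0_q1_5_le he he1 hh hh1]
  have k_l0 : (0 : ℝ) < e ^ 5 := by positivity
  have k_l1 : (0 : ℝ) < e ^ 3 * h := by positivity
  have k_l2 : (0 : ℝ) < e ^ 2 * h ^ 2 := by positivity
  rw [k_e]
  exact fin2 (by positivity) (by positivity) k_p k_q0 k_q1 (by linarith)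

theorem N36_lower {e h : ℝ} (he : 0 < e) (he1 : e ≤ 1 / 100) (hh : 0 < h) (hh1 : h ≤ 1 / 100) :
    (14 * e ^ 5 + 100 * (e ^ 3 * h) + 20 * (e ^ 2 * h ^ 2)) * (11530 + 31500 * h)
      ≤ (2 + 2 * e ^ 2 - 4 * e - 3 * (h * e)) * R036 e h ^ 2 - P36 e h ^ 2 * (h * e + 2 + 4 * e) :=
  sub_nonneg.1 (N36_lower0 he he1 hh hh1)


end Pool.Agent.Work.MP_71a505_up
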