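import Mathlib
import Pool.Agent.Work.MP_71a505_up.Q36d

namespace Pool.Agent.Work.MP_71a505_up

noncomputable def N36_upper0_c0 (e h : ℝ) : ℝ :=
  2654208 * (e ^ 4 * h) + 848160 * e ^ 6 + 11147904 * (e ^ 5 * h) + 15404544 * (e ^ 4 * h ^ 2)
  + 37777920 * (e ^ 5 * h ^ 2) + 33672192 * (e ^ 4 * h ^ 3) + 12922752 * (e ^ 7 * h)
  + 46991616 * (e ^ 5 * h ^ 3) + 35298048 * (e ^ 4 * h ^ 4) + 16104960 * e ^ 9

theorem N36_upper0_c0_nn {e h : ℝ} (he : 0 < e) (hh : 0 < h) : 0 ≤ N36_upper0_c0 e h := by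
  unfold N36_upper0_c0; positivity

noncomputable def N36_upper0_c1 (e h : ℝ) : ℝ :=
  19989504 * (e ^ 8 * h) + 82926272 * (e ^ 7 * h ^ 2) + 20817408 * (e ^ 5 * h ^ 4)
  + 18914304 * (e ^ 4 * h ^ 5) + 5177232 * (e ^ 9 * h) + 88825392 * (e ^ 8 * h ^ 2)
  + 217524912 * (e ^ 7 * h ^ 3) + 5478144 * (e ^ 4 * h ^ 6) + 23442048 * e ^ 11
  + 124844928 * (e ^ 8 * h ^ 3)

theorem N36_upper0_c1_nn {e h : ℝ} (he : 0 < e) (hh : 0 < h) : 0 ≤ N36_upper0_c1 e h := by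
  unfold N36_upper0_c1; positivity

noncomputable def N36_upper0_c2 (e h : ℝ) : ℝ :=
  326795392 * (e ^ 7 * h ^ 4) + 832512 * (e ^ 4 * h ^ 7) + 78073200 * (e ^ 11 * h)
  + 86405656 * (e ^ 8 * h ^ 4) + 317017280 * (e ^ 7 * h ^ 5) + 52608 * (e ^ 4 * h ^ 8)
  + 5923584 * e ^ 13 + 112008960 * (e ^ 11 * h ^ 2) + 5298288 * (e ^ 10 * h ^ 3)
  + 33511488 * (e ^ 8 * h ^ 5)

theorem N36_upper0_c2_nn {e h : ℝ} (he : 0 < e) (hh : 0 < h) : 0 ≤ N36_upper0_c2 e h := by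
  unfold N36_upper0_c2; positivity

noncomputable def N36_upper0_c3 (e h : ℝ) : ℝ :=
  211262016 * (e ^ 7 * h ^ 6) + 18587376 * (e ^ 13 * h) + 95777676 * (e ^ 11 * h ^ 3)
  + 39242122 * (e ^ 10 * h ^ 4) + 13244928 * (e ^ 8 * h ^ 6) + 95525248 * (e ^ 7 * h ^ 7)
  + 507456 * e ^ 15 + 25272096 * (e ^ 13 * h ^ 2) + 57475756 * (e ^ 11 * h ^ 4)
  + 24024536 * (e ^ 10 * h ^ 5)

theorem N36_upper0_c3_nn {e h : ℝ} (he : 0 < e) (hh : 0 < h) : 0 ≤ N36_upper0_c3 e h := by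
  unfold N36_upper0_c3; positivity

noncomputable def N36_upper0_c4 (e h : ℝ) : ℝ :=
  6556672 * (e ^ 8 * h ^ 7) + 28475456 * (e ^ 7 * h ^ 8) + 1043472 * (e ^ 15 * h)
  + 17282988 * (e ^ 13 * h ^ 3) + 22989816 * (e ^ 11 * h ^ 5) + 5927616 * (e ^ 10 * h ^ 6)
  + 2264352 * (e ^ 8 * h ^ 8) + 5336448 * (e ^ 7 * h ^ 9) + 532832 * (e ^ 15 * h ^ 2)
  + 5564104 * (e ^ 13 * h ^ 4)

theorem N36_upper0_c4_nn {e h : ℝ} (he : 0 < e) (hh : 0 < h) : 0 ≤ N36_upper0_c4 e h := by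
  unfold N36_upper0_c4; positivity

noncomputable def N36_upper0_c5 (e h : ℝ) : ℝ :=
  5318184 * (e ^ 11 * h ^ 6) + 444224 * (e ^ 10 * h ^ 7) + 398784 * (e ^ 8 * h ^ 9)
  + 570496 * (e ^ 7 * h ^ 10) + 78736 * (e ^ 15 * h ^ 3) + 641948 * (e ^ 13 * h ^ 5)
  + 497420 * (e ^ 11 * h ^ 7) + 27616 * (e ^ 8 * h ^ 10) + 26688 * (e ^ 7 * h ^ 11)

theorem N36_upper0_c5_nn {e h : ℝ} (he : 0 < e) (hh : 0 < h) : 0 ≤ N36_upper0_c5 e h := by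
  unfold N36_upper0_c5; positivity

noncomputable def N36_upper0_q0_0 (e h : ℝ) : ℝ :=
  646848 * e ^ 2 + 4696704 * e ^ 3 + 25171776 * e ^ 5 + 14124672 * e ^ 7 + 1939680 * e ^ 9
  + 73728 * e ^ 11

theorem N36_upper0_q0_0_le {e h : ℝ} (he : 0 < e) (he1 : e ≤ 1 / 100) (hh : 0 < h) (hh1 : h ≤ 1 / 100) : N36_upper0_q0_0 e h ≤ (13877 / 200) := by
  unfold N36_upper0_q0_0
  refine le_trans (b := (646848 * (1 / 100) ^ 2 + 4696704 * (1 / 100) ^ 3 + 25171776 * (1 / 100) ^ 5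
    + 14124672 * (1 / 100) ^ 7 + 1939680 * (1 / 100) ^ 9 + 73728 * (1 / 100) ^ 11 : ℝ)) (by gcongr) (by norm_num)

noncomputable def N36_upper0_q1_0 (e h : ℝ) : ℝ :=
  6183936 * h + 7254528 * h ^ 2 + 30407808 * e ^ 3 + 3456000 * h ^ 3 + 135382496 * (e ^ 3 * h)
  + 746496 * h ^ 4 + 263396608 * (e ^ 3 * h ^ 2) + 70656 * h ^ 5 + 299273600 * (e ^ 3 * h ^ 3)
  + 7350144 * (e ^ 2 * h ^ 4)

theorem N36_upper0_q1_0_le {e h : ℝ} (he : 0 < e) (he1 : e ≤ 1 / 100) (hh : 0 < h) (hh1 : h ≤ 1 / 100) : N36_upper0_q1_0 e h ≤ (12520013 / 200) := by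
  unfold N36_upper0_q1_0
  refine le_trans (b := (6183936 * (1 / 100) + 7254528 * (1 / 100) ^ 2 + 30407808 * (1 / 100) ^ 3
    + 3456000 * (1 / 100) ^ 3 + 135382496 * ((1 / 100) ^ 3 * (1 / 100)) + 746496 * (1 / 100) ^ 4
    + 263396608 * ((1 / 100) ^ 3 * (1 / 100) ^ 2) + 70656 * (1 / 100) ^ 5
    + 299273600 * ((1 / 100) ^ 3 * (1 / 100) ^ 3) + 7350144 * ((1 / 100) ^ 2 * (1 / 100) ^ 4) : ℝ)) (by gcongr) (by norm_num)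

noncomputable def N36_upper0_q1_1 (e h : ℝ) : ℝ :=
  2304 * h ^ 6 + 64865376 * e ^ 7 + 90966144 * (e ^ 6 * h) + 215778560 * (e ^ 3 * h ^ 4)
  + 10553856 * (e ^ 2 * h ^ 5) + 54948840 * (e ^ 7 * h) + 208807776 * (e ^ 6 * h ^ 2)
  + 97953856 * (e ^ 3 * h ^ 5) + 4089600 * (e ^ 2 * h ^ 6) + 47022912 * e ^ 9

theorem N36_upper0_q1_1_le {e h : ℝ} (he : 0 < e) (he1 : e ≤ 1 / 100) (hh : 0 < h) (hh1 : h ≤ 1 / 100) : N36_upper0_q1_1 e h ≤ (1 / 250000) := by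
  unfold N36_upper0_q1_1
  refine le_trans (b := (2304 * (1 / 100) ^ 6 + 64865376 * (1 / 100) ^ 7 + 90966144 * ((1 / 100) ^ 6 * (1 / 100))
    + 215778560 * ((1 / 100) ^ 3 * (1 / 100) ^ 4) + 10553856 * ((1 / 100) ^ 2 * (1 / 100) ^ 5)
    + 54948840 * ((1 / 100) ^ 7 * (1 / 100)) + 208807776 * ((1 / 100) ^ 6 * (1 / 100) ^ 2)
    + 97953856 * ((1 / 100) ^ 3 * (1 / 100) ^ 5) + 4089600 * ((1 / 100) ^ 2 * (1 / 100) ^ 6)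
    + 47022912 * (1 / 100) ^ 9 : ℝ)) (by gcongr) (by norm_num)

noncomputable def N36_upper0_q1_2 (e h : ℝ) : ℝ :=
  238775360 * (e ^ 6 * h ^ 3) + 27643136 * (e ^ 3 * h ^ 6) + 716544 * (e ^ 2 * h ^ 7)
  + 69066240 * (e ^ 9 * h) + 169212596 * (e ^ 6 * h ^ 4) + 4672160 * (e ^ 3 * h ^ 7)
  + 48576 * (e ^ 2 * h ^ 8) + 5591520 * e ^ 11 + 58999608 * (e ^ 9 * h ^ 2)
  + 73634368 * (e ^ 6 * h ^ 5)

theorem N36_upper0_q1_2_le {e h : ℝ} (he : 0 < e) (he1 : e ≤ 1 / 100) (hh : 0 < h) (hh1 : h ≤ 1 / 100) : N36_upper0_q1_2 e h ≤ (1 / 1000000) := by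
  unfold N36_upper0_q1_2
  refine le_trans (b := (238775360 * ((1 / 100) ^ 6 * (1 / 100) ^ 3) + 27643136 * ((1 / 100) ^ 3 * (1 / 100) ^ 6)
    + 716544 * ((1 / 100) ^ 2 * (1 / 100) ^ 7) + 69066240 * ((1 / 100) ^ 9 * (1 / 100))
    + 169212596 * ((1 / 100) ^ 6 * (1 / 100) ^ 4) + 4672160 * ((1 / 100) ^ 3 * (1 / 100) ^ 7)
    + 48576 * ((1 / 100) ^ 2 * (1 / 100) ^ 8) + 5591520 * (1 / 100) ^ 11
    + 58999608 * ((1 / 100) ^ 9 * (1 / 100) ^ 2) + 73634368 * ((1 / 100) ^ 6 * (1 / 100) ^ 5) : ℝ)) (by gcongr) (by norm_num)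

noncomputable def N36_upper0_q1_3 (e h : ℝ) : ℝ :=
  429952 * (e ^ 3 * h ^ 8) + 5823528 * (e ^ 11 * h) + 29396270 * (e ^ 9 * h ^ 3)
  + 19041088 * (e ^ 6 * h ^ 6) + 16640 * (e ^ 3 * h ^ 9) + 49152 * e ^ 13
  + 2336976 * (e ^ 11 * h ^ 2) + 7744364 * (e ^ 9 * h ^ 4) + 2658496 * (e ^ 6 * h ^ 7)
  + 8192 * (e ^ 13 * h)

theorem N36_upper0_q1_3_le {e h : ℝ} (he : 0 < e) (he1 : e ≤ 1 / 100) (hh : 0 < h) (hh1 : h ≤ 1 / 100) : N36_upper0_q1_3 e h ≤ (1 / 1000000) := by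
  unfold N36_upper0_q1_3
  refine le_trans (b := (429952 * ((1 / 100) ^ 3 * (1 / 100) ^ 8) + 5823528 * ((1 / 100) ^ 11 * (1 / 100))
    + 29396270 * ((1 / 100) ^ 9 * (1 / 100) ^ 3) + 19041088 * ((1 / 100) ^ 6 * (1 / 100) ^ 6)
    + 16640 * ((1 / 100) ^ 3 * (1 / 100) ^ 9) + 49152 * (1 / 100) ^ 13
    + 2336976 * ((1 / 100) ^ 11 * (1 / 100) ^ 2) + 7744364 * ((1 / 100) ^ 9 * (1 / 100) ^ 4)
    + 2658496 * ((1 / 100) ^ 6 * (1 / 100) ^ 7) + 8192 * ((1 / 100) ^ 13 * (1 / 100)) : ℝ)) (by gcongr) (by norm_num)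

noncomputable def N36_upper0_q1_4 (e h : ℝ) : ℝ :=
  305576 * (e ^ 11 * h ^ 3) + 788158 * (e ^ 9 * h ^ 5) + 13376 * (e ^ 7 * h ^ 7)
  + 155648 * (e ^ 6 * h ^ 8)

theorem N36_upper0_q1_4_le {e h : ℝ} (he : 0 < e) (he1 : e ≤ 1 / 100) (hh : 0 < h) (hh1 : h ≤ 1 / 100) : N36_upper0_q1_4 e h ≤ (1 / 1000000) := by
  unfold N36_upper0_q1_4
  refine le_trans (b := (305576 * ((1 / 100) ^ 11 * (1 / 100) ^ 3) + 788158 * ((1 / 100) ^ 9 * (1 / 100) ^ 5)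
    + 13376 * ((1 / 100) ^ 7 * (1 / 100) ^ 7) + 155648 * ((1 / 100) ^ 6 * (1 / 100) ^ 8) : ℝ)) (by gcongr) (by norm_num)

noncomputable def N36_upper0_q2_0 (e h : ℝ) : ℝ :=
  675840 * h + 391680 * h ^ 2 + 92160 * h ^ 3 + 7680 * h ^ 4

theorem N36_upper0_q2_0_le {e h : ℝ} (he : 0 < e) (he1 : e ≤ 1 / 100) (hh : 0 < h) (hh1 : h ≤ 1 / 100) : N36_upper0_q2_0 e h ≤ (6797661 / 1000) := by
  unfold N36_upper0_q2_0
  refine le_trans (b := (675840 * (1 / 100) + 391680 * (1 / 100) ^ 2 + 92160 * (1 / 100) ^ 3 + 7680 * (1 / 100) ^ 4 : ℝ)) (by gcongr) (by norm_num)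

theorem N36_upper0 {e h : ℝ} (he : 0 < e) (he1 : e ≤ 1 / 100) (hh : 0 < h) (hh1 : h ≤ 1 / 100) :
    0 ≤ (20 * e ^ 5 + 200 * (e ^ 3 * h) + 50 * (e ^ 2 * h ^ 2)) * 10600 - ((2 + 2 * e ^ 2 - 4 * e - 3 * (h * e)) * R036 e h ^ 2 - P36 e h ^ 2 * (h * e + 2 + 4 * e)) := by
  have k_e : (20 * e ^ 5 + 200 * (e ^ 3 * h) + 50 * (e ^ 2 * h ^ 2)) * 10600 - ((2 + 2 * e ^ 2 - 4 * e - 3 * (h * e)) * R036 e h ^ 2 - P36 e h ^ 2 * (h * e + 2 + 4 * e))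
      = (39200 * e ^ 5 + 461120 * (e ^ 3 * h) + 161360 * (e ^ 2 * h ^ 2))
      + (N36_upper0_c0 e h + N36_upper0_c1 e h + N36_upper0_c2 e h + N36_upper0_c3 e h + N36_upper0_c4 e h + N36_upper0_c5 e h)
      - ((e ^ 5) * (N36_upper0_q0_0 e h) + (e ^ 3 * h) * (N36_upper0_q1_0 e h + N36_upper0_q1_1 e h + N36_upper0_q1_2 e h + N36_upper0_q1_3 e h + N36_upper0_q1_4 e h) + (e ^ 2 * h ^ 2) * (N36_upper0_q2_0 e h)) := by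
    unfold R036 R036_p0 R036_p1 R036_n0 R036_n1 P36 P36_p0 P36_p1 P36_n0 P36_n1 N36_upper0_c0 N36_upper0_c1 N36_upper0_c2 N36_upper0_c3 N36_upper0_c4 N36_upper0_c5 N36_upper0_q0_0 N36_upper0_q1_0 N36_upper0_q1_1 N36_upper0_q1_2 N36_upper0_q1_3 N36_upper0_q1_4 N36_upper0_q2_0
    ring
  have k_p : 0 ≤ N36_upper0_c0 e h + N36_upper0_c1 e h + N36_upper0_c2 e h + N36_upper0_c3 e h + N36_upper0_c4 e h + N36_upper0_c5 e h := by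
    linarith [N36_upper0_c0_nn he hh, N36_upper0_c1_nn he hh, N36_upper0_c2_nn he hh, N36_upper0_c3_nn he hh, N36_upper0_c4_nn he hh, N36_upper0_c5_nn he hh]
  have k_q0 : N36_upper0_q0_0 e h ≤ (13877 / 200) := by
    linarith [N36_upper0_q0_0_le he he1 hh hh1]
  have k_q1 : N36_upper0_q1_0 e h + N36_upper0_q1_1 e h + N36_upper0_q1_2 e h + N36_upper0_q1_3 e h + N36_upper0_q1_4 e h ≤ (62600065007 / 1000000) := by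
    linarith [N36_upper0_q1_0_le he he1 hh hh1, N36_upper0_q1_1_le he he1 hh hh1, N36_upper0_q1_2_le he he1 hh hh1, N36_upper0_q1_3_le he he1 hh hh1, N36_upper0_q1_4_le he he1 hh hh1]
  have k_q2 : N36_upper0_q2_0 e h ≤ (6797661 / 1000) := by
    linarith [N36_upper0_q2_0_le he he1 hh hh1]
  have k_l0 : (0 : ℝ) < e ^ 5 := by positivity
  have k_l1 : (0 : ℝ) < e ^ 3 * h := by positivity
  have k_l2 : (0 : ℝ) < e ^ 2 * h ^ 2 := by positivity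
  rw [k_e]
  exact fin3 (by positivity) (by positivity) (by positivity) k_p k_q0 k_q1 k_q2 (by linarith)

theorem N36_upper {e h : ℝ} (he : 0 < e) (he1 : e ≤ 1 / 100) (hh : 0 < h) (hh1 : h ≤ 1 / 100) :
    (2 + 2 * e ^ 2 - 4 * e - 3 * (h * e)) * R036 e h ^ 2 - P36 e h ^ 2 * (h * e + 2 + 4 * e)
      ≤ (20 * e ^ 5 + 200 * (e ^ 3 * h) + 50 * (e ^ 2 * h ^ 2)) * 10600 :=
  sub_nonneg.1 (N36_upper0 he he1 hh hh1)


end Pool.Agent.Work.MP_71a505_up
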