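import Mathlib
import Pool.Agent.Work.MP_71a505_up.Q36d

namespace Pool.Agent.Work.MP_71a505_up

noncomputable def R036_low_c0 (e h : ℝ) : ℝ :=
  40 * (e * h) + 80 * h ^ 2 + 1764 * e ^ 4 + 2184 * (e ^ 3 * h) + 1524 * (e ^ 4 * h)
  + 4668 * (e ^ 3 * h ^ 2) + 408 * e ^ 6 + 921 * (e ^ 4 * h ^ 2) + 3294 * (e ^ 3 * h ^ 3)
  + 814 * (e ^ 6 * h)

theorem R036_low_c0_nn {e h : ℝ} (he : 0 < e) (hh : 0 < h) : 0 ≤ R036_low_c0 e h := by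
  unfold R036_low_c0; positivity

noncomputable def R036_low_c1 (e h : ℝ) : ℝ :=
  558 * (e ^ 4 * h ^ 3) + 908 * (e ^ 3 * h ^ 4) + 214 * (e ^ 6 * h ^ 2) + 94 * (e ^ 4 * h ^ 4)
  + 92 * (e ^ 3 * h ^ 5)

theorem R036_low_c1_nn {e h : ℝ} (he : 0 < e) (hh : 0 < h) : 0 ≤ R036_low_c1 e h := by
  unfold R036_low_c1; positivity

noncomputable def R036_low_q0_0 (e h : ℝ) : ℝ :=
  1404 * e + 36 * e ^ 2 + 2520 * (e * h) + 336 * h ^ 2 + 1572 * (e * h ^ 2) + 96 * h ^ 3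
  + 1116 * e ^ 4 + 288 * (e * h ^ 3) + 2298 * (e ^ 4 * h) + 12 * (e * h ^ 4)

theorem R036_low_q0_0_le {e h : ℝ} (he : 0 < e) (he1 : e ≤ 1 / 100) (hh : 0 < h) (hh1 : h ≤ 1 / 100) : R036_low_q0_0 e h ≤ (14331 / 1000) := by
  unfold R036_low_q0_0
  refine le_trans (b := (1404 * (1 / 100) + 36 * (1 / 100) ^ 2 + 2520 * ((1 / 100) * (1 / 100)) + 336 * (1 / 100) ^ 2
    + 1572 * ((1 / 100) * (1 / 100) ^ 2) + 96 * (1 / 100) ^ 3 + 1116 * (1 / 100) ^ 4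
    + 288 * ((1 / 100) * (1 / 100) ^ 3) + 2298 * ((1 / 100) ^ 4 * (1 / 100))
    + 12 * ((1 / 100) * (1 / 100) ^ 4) : ℝ)) (by gcongr) (by norm_num)

noncomputable def R036_low_q0_1 (e h : ℝ) : ℝ :=
  192 * e ^ 6 + 1653 * (e ^ 4 * h ^ 2) + 64 * (e ^ 6 * h) + 309 * (e ^ 4 * h ^ 3)

theorem R036_low_q0_1_le {e h : ℝ} (he : 0 < e) (he1 : e ≤ 1 / 100) (hh : 0 < h) (hh1 : h ≤ 1 / 100) : R036_low_q0_1 e h ≤ (1 / 1000000) := by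
  unfold R036_low_q0_1
  refine le_trans (b := (192 * (1 / 100) ^ 6 + 1653 * ((1 / 100) ^ 4 * (1 / 100) ^ 2) + 64 * ((1 / 100) ^ 6 * (1 / 100))
    + 309 * ((1 / 100) ^ 4 * (1 / 100) ^ 3) : ℝ)) (by gcongr) (by norm_num)

theorem R036_low {e h : ℝ} (he : 0 < e) (he1 : e ≤ 1 / 100) (hh : 0 < h) (hh1 : h ≤ 1 / 100) :
    0 ≤ R036 e h - 240 := by
  have k_e : R036 e h - 240
      = (336 * e + 320 * h)
      + (R036_low_c0 e h + R036_low_c1 e h)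
      - ((e) * (R036_low_q0_0 e h + R036_low_q0_1 e h)) := by
    unfold R036 R036_p0 R036_p1 R036_n0 R036_n1 R036_low_c0 R036_low_c1 R036_low_q0_0 R036_low_q0_1
    ring
  have k_p : 0 ≤ R036_low_c0 e h + R036_low_c1 e h := by
    linarith [R036_low_c0_nn he hh, R036_low_c1_nn he hh]
  have k_q0 : R036_low_q0_0 e h + R036_low_q0_1 e h ≤ (14331001 / 1000000) := by
    linarith [R036_low_q0_0_le he he1 hh hh1, R036_low_q0_1_le he he1 hh hh1]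
  have k_l0 : (0 : ℝ) < e := by positivity
  have k_l1 : (0 : ℝ) < h := by positivity
  rw [k_e]
  exact fin1 (by positivity) k_p k_q0 (by linarith)

noncomputable def P36_low_c0 (e h : ℝ) : ℝ :=
  320 * h + 80 * h ^ 2 + 2652 * e ^ 3 + 5156 * (e ^ 3 * h) + 72 * e ^ 5 + 4052 * (e ^ 3 * h ^ 2)
  + 128 * (e ^ 2 * h ^ 3) + 240 * (e ^ 5 * h) + 1986 * (e ^ 3 * h ^ 3) + 60 * (e ^ 2 * h ^ 4)

theorem P36_low_c0_nn {e h : ℝ} (he : 0 < e) (hh : 0 < h) : 0 ≤ P36_low_c0 e h := by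
  unfold P36_low_c0; positivity

noncomputable def P36_low_c1 (e h : ℝ) : ℝ :=
  108 * e ^ 7 + 75 * (e ^ 5 * h ^ 2) + 420 * (e ^ 3 * h ^ 4) + 108 * (e ^ 7 * h)
  + 175 * (e ^ 5 * h ^ 3) + 36 * (e ^ 3 * h ^ 5)

theorem P36_low_c1_nn {e h : ℝ} (he : 0 < e) (hh : 0 < h) : 0 ≤ P36_low_c1 e h := by
  unfold P36_low_c1; positivity

noncomputable def P36_low_q0_0 (e h : ℝ) : ℝ :=
  144 * e + 1476 * e ^ 2 + 840 * (e * h) + 1896 * (e ^ 2 * h) + 816 * (e * h ^ 2) + 1368 * e ^ 4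
  + 804 * (e ^ 2 * h ^ 2) + 176 * (e * h ^ 3) + 2868 * (e ^ 4 * h) + 84 * e ^ 6

theorem P36_low_q0_0_le {e h : ℝ} (he : 0 < e) (he1 : e ≤ 1 / 100) (hh : 0 < h) (hh1 : h ≤ 1 / 100) : P36_low_q0_0 e h ≤ (67 / 40) := by
  unfold P36_low_q0_0
  refine le_trans (b := (144 * (1 / 100) + 1476 * (1 / 100) ^ 2 + 840 * ((1 / 100) * (1 / 100))
    + 1896 * ((1 / 100) ^ 2 * (1 / 100)) + 816 * ((1 / 100) * (1 / 100) ^ 2) + 1368 * (1 / 100) ^ 4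
    + 804 * ((1 / 100) ^ 2 * (1 / 100) ^ 2) + 176 * ((1 / 100) * (1 / 100) ^ 3)
    + 2868 * ((1 / 100) ^ 4 * (1 / 100)) + 84 * (1 / 100) ^ 6 : ℝ)) (by gcongr) (by norm_num)

noncomputable def P36_low_q0_1 (e h : ℝ) : ℝ :=
  2343 * (e ^ 4 * h ^ 2) + 220 * (e ^ 6 * h) + 574 * (e ^ 4 * h ^ 3) + 244 * (e ^ 6 * h ^ 2)
  + 102 * (e ^ 4 * h ^ 4)

theorem P36_low_q0_1_le {e h : ℝ} (he : 0 < e) (he1 : e ≤ 1 / 100) (hh : 0 < h) (hh1 : h ≤ 1 / 100) : P36_low_q0_1 e h ≤ (1 / 1000000) := by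
  unfold P36_low_q0_1
  refine le_trans (b := (2343 * ((1 / 100) ^ 4 * (1 / 100) ^ 2) + 220 * ((1 / 100) ^ 6 * (1 / 100))
    + 574 * ((1 / 100) ^ 4 * (1 / 100) ^ 3) + 244 * ((1 / 100) ^ 6 * (1 / 100) ^ 2)
    + 102 * ((1 / 100) ^ 4 * (1 / 100) ^ 4) : ℝ)) (by gcongr) (by norm_num)

theorem P36_low {e h : ℝ} (he : 0 < e) (he1 : e ≤ 1 / 100) (hh : 0 < h) (hh1 : h ≤ 1 / 100) :
    0 ≤ P36 e h - 238 := by
  have k_e : P36 e h - 238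
      = (2)
      + (P36_low_c0 e h + P36_low_c1 e h)
      - (1 * (P36_low_q0_0 e h + P36_low_q0_1 e h)) := by
    unfold P36 P36_p0 P36_p1 P36_n0 P36_n1 P36_low_c0 P36_low_c1 P36_low_q0_0 P36_low_q0_1
    ring
  have k_p : 0 ≤ P36_low_c0 e h + P36_low_c1 e h := by
    linarith [P36_low_c0_nn he hh, P36_low_c1_nn he hh]
  have k_q0 : P36_low_q0_0 e h + P36_low_q0_1 e h ≤ (1675001 / 1000000) := by
    linarith [P36_low_q0_0_le he he1 hh hh1, P36_low_q0_1_le he he1 hh hh1]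
  rw [k_e]
  exact fin1 (by positivity) k_p k_q0 (by linarith)

theorem RP36 {e h : ℝ} (he : 0 < e) (he1 : e ≤ 1 / 100) (hh : 0 < h) (hh1 : h ≤ 1 / 100) :
    240 ≤ R036 e h ∧ 238 ≤ P36 e h :=
  ⟨sub_nonneg.1 (R036_low he he1 hh hh1), sub_nonneg.1 (P36_low he he1 hh hh1)⟩

noncomputable def Den36_0_c0 (e h : ℝ) : ℝ :=
  71424 * e ^ 2 + 105216 * (e * h) + 272256 * (e ^ 2 * h) + 147712 * (e * h ^ 2) + 171360 * e ^ 4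
  + 475648 * (e ^ 2 * h ^ 2) + 99712 * (e * h ^ 3) + 276768 * e ^ 5 + 75648 * (e ^ 4 * h)
  + 432000 * (e ^ 2 * h ^ 3)

theorem Den36_0_c0_nn {e h : ℝ} (he : 0 < e) (hh : 0 < h) : 0 ≤ Den36_0_c0 e h := by
  unfold Den36_0_c0; positivity

noncomputable def Den36_0_c1 (e h : ℝ) : ℝ :=
  30720 * (e * h ^ 4) + 202752 * e ^ 6 + 3825840 * (e ^ 5 * h) + 200768 * (e ^ 2 * h ^ 4)
  + 3456 * (e * h ^ 5) + 12253472 * (e ^ 5 * h ^ 2) + 45952 * (e ^ 2 * h ^ 5) + 1128384 * e ^ 8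
  + 20696040 * (e ^ 5 * h ^ 3) + 502496 * (e ^ 4 * h ^ 4)

theorem Den36_0_c1_nn {e h : ℝ} (he : 0 < e) (hh : 0 < h) : 0 ≤ Den36_0_c1 e h := by
  unfold Den36_0_c1; positivity

noncomputable def Den36_0_c2 (e h : ℝ) : ℝ :=
  4160 * (e ^ 2 * h ^ 6) + 383040 * e ^ 9 + 4907664 * (e ^ 8 * h) + 22255456 * (e ^ 5 * h ^ 4)
  + 730368 * (e ^ 4 * h ^ 5) + 5372976 * (e ^ 9 * h) + 19279248 * (e ^ 8 * h ^ 2)
  + 15902344 * (e ^ 5 * h ^ 5) + 411952 * (e ^ 4 * h ^ 6) + 11325344 * (e ^ 9 * h ^ 2)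

theorem Den36_0_c2_nn {e h : ℝ} (he : 0 < e) (hh : 0 < h) : 0 ≤ Den36_0_c2 e h := by
  unfold Den36_0_c2; positivity

noncomputable def Den36_0_c3 (e h : ℝ) : ℝ :=
  49878564 * (e ^ 8 * h ^ 3) + 7368784 * (e ^ 5 * h ^ 6) + 104480 * (e ^ 4 * h ^ 7)
  + 1231200 * e ^ 12 + 486480 * (e ^ 11 * h) + 2979868 * (e ^ 9 * h ^ 3)
  + 79135984 * (e ^ 8 * h ^ 4) + 2098672 * (e ^ 5 * h ^ 7) + 9856 * (e ^ 4 * h ^ 8)
  + 3527856 * (e ^ 12 * h)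

theorem Den36_0_c3_nn {e h : ℝ} (he : 0 < e) (hh : 0 < h) : 0 ≤ Den36_0_c3 e h := by
  unfold Den36_0_c3; positivity

noncomputable def Den36_0_c4 (e h : ℝ) : ℝ :=
  9088424 * (e ^ 11 * h ^ 2) + 82080720 * (e ^ 8 * h ^ 5) + 333008 * (e ^ 5 * h ^ 8)
  + 144000 * e ^ 14 + 3620976 * (e ^ 12 * h ^ 2) + 19052376 * (e ^ 11 * h ^ 3)
  + 58935048 * (e ^ 8 * h ^ 6) + 22640 * (e ^ 5 * h ^ 9) + 380256 * (e ^ 14 * h)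
  + 1147384 * (e ^ 12 * h ^ 3)

theorem Den36_0_c4_nn {e h : ℝ} (he : 0 < e) (hh : 0 < h) : 0 ≤ Den36_0_c4 e h := by
  unfold Den36_0_c4; positivity

noncomputable def Den36_0_c5 (e h : ℝ) : ℝ :=
  19752860 * (e ^ 11 * h ^ 4) + 30530832 * (e ^ 8 * h ^ 7) + 49536 * e ^ 16
  + 262240 * (e ^ 14 * h ^ 2) + 11869436 * (e ^ 11 * h ^ 5) + 11530772 * (e ^ 8 * h ^ 8)
  + 81312 * (e ^ 7 * h ^ 9) + 139008 * (e ^ 16 * h) + 65000 * (e ^ 13 * h ^ 4)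
  + 3959068 * (e ^ 11 * h ^ 6)

theorem Den36_0_c5_nn {e h : ℝ} (he : 0 < e) (hh : 0 < h) : 0 ≤ Den36_0_c5 e h := by
  unfold Den36_0_c5; positivity

noncomputable def Den36_0_c6 (e h : ℝ) : ℝ :=
  3074008 * (e ^ 8 * h ^ 9) + 43248 * (e ^ 7 * h ^ 10) + 157952 * (e ^ 16 * h ^ 2)
  + 487432 * (e ^ 13 * h ^ 5) + 586796 * (e ^ 11 * h ^ 7) + 538536 * (e ^ 8 * h ^ 10)
  + 4176 * (e ^ 7 * h ^ 11) + 83200 * (e ^ 16 * h ^ 3) + 229640 * (e ^ 13 * h ^ 6)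
  + 104 * (e ^ 11 * h ^ 8)

theorem Den36_0_c6_nn {e h : ℝ} (he : 0 < e) (hh : 0 < h) : 0 ≤ Den36_0_c6 e h := by
  unfold Den36_0_c6; positivity

noncomputable def Den36_0_c7 (e h : ℝ) : ℝ :=
  64656 * (e ^ 10 * h ^ 9) + 55296 * (e ^ 8 * h ^ 11) + 14720 * (e ^ 16 * h ^ 4)
  + 32712 * (e ^ 13 * h ^ 7) + 10152 * (e ^ 10 * h ^ 10) + 2592 * (e ^ 8 * h ^ 12)

theorem Den36_0_c7_nn {e h : ℝ} (he : 0 < e) (hh : 0 < h) : 0 ≤ Den36_0_c7 e h := by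
  unfold Den36_0_c7; positivity

noncomputable def Den36_0_q0_0 (e h : ℝ) : ℝ :=
  28160 * h ^ 2 + 300672 * e ^ 3 + 10240 * h ^ 3 + 1247328 * (e ^ 3 * h) + 1280 * h ^ 4
  + 2615424 * (e ^ 3 * h ^ 2) + 270064 * (e ^ 4 * h ^ 2) + 3264160 * (e ^ 3 * h ^ 3)
  + 1414656 * e ^ 7 + 2441424 * (e ^ 6 * h)

theorem Den36_0_q0_0_le {e h : ℝ} (he : 0 < e) (he1 : e ≤ 1 / 100) (hh : 0 < h) (hh1 : h ≤ 1 / 100) : Den36_0_q0_0 e h ≤ (157 / 50) := by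
  unfold Den36_0_q0_0
  refine le_trans (b := (28160 * (1 / 100) ^ 2 + 300672 * (1 / 100) ^ 3 + 10240 * (1 / 100) ^ 3
    + 1247328 * ((1 / 100) ^ 3 * (1 / 100)) + 1280 * (1 / 100) ^ 4
    + 2615424 * ((1 / 100) ^ 3 * (1 / 100) ^ 2) + 270064 * ((1 / 100) ^ 4 * (1 / 100) ^ 2)
    + 3264160 * ((1 / 100) ^ 3 * (1 / 100) ^ 3) + 1414656 * (1 / 100) ^ 7
    + 2441424 * ((1 / 100) ^ 6 * (1 / 100)) : ℝ)) (by gcongr) (by norm_num)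

noncomputable def Den36_0_q0_1 (e h : ℝ) : ℝ :=
  103072 * (e ^ 4 * h ^ 3) + 2428544 * (e ^ 3 * h ^ 4) + 5352240 * (e ^ 7 * h)
  + 10813208 * (e ^ 6 * h ^ 2) + 1026720 * (e ^ 3 * h ^ 5) + 14289944 * (e ^ 7 * h ^ 2)
  + 22043584 * (e ^ 6 * h ^ 3) + 225344 * (e ^ 3 * h ^ 6) + 406656 * e ^ 10
  + 27403804 * (e ^ 7 * h ^ 3)

theorem Den36_0_q0_1_le {e h : ℝ} (he : 0 < e) (he1 : e ≤ 1 / 100) (hh : 0 < h) (hh1 : h ≤ 1 / 100) : Den36_0_q0_1 e h ≤ (1 / 1000000) := by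
  unfold Den36_0_q0_1
  refine le_trans (b := (103072 * ((1 / 100) ^ 4 * (1 / 100) ^ 3) + 2428544 * ((1 / 100) ^ 3 * (1 / 100) ^ 4)
    + 5352240 * ((1 / 100) ^ 7 * (1 / 100)) + 10813208 * ((1 / 100) ^ 6 * (1 / 100) ^ 2)
    + 1026720 * ((1 / 100) ^ 3 * (1 / 100) ^ 5) + 14289944 * ((1 / 100) ^ 7 * (1 / 100) ^ 2)
    + 22043584 * ((1 / 100) ^ 6 * (1 / 100) ^ 3) + 225344 * ((1 / 100) ^ 3 * (1 / 100) ^ 6)
    + 406656 * (1 / 100) ^ 10 + 27403804 * ((1 / 100) ^ 7 * (1 / 100) ^ 3) : ℝ)) (by gcongr) (by norm_num)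

noncomputable def Den36_0_q0_2 (e h : ℝ) : ℝ :=
  29381860 * (e ^ 6 * h ^ 4) + 19872 * (e ^ 3 * h ^ 7) + 887040 * e ^ 11 + 7921104 * (e ^ 10 * h)
  + 34569760 * (e ^ 7 * h ^ 4) + 27707344 * (e ^ 6 * h ^ 5) + 26007256 * (e ^ 10 * h ^ 2)
  + 28620668 * (e ^ 7 * h ^ 5) + 18461636 * (e ^ 6 * h ^ 6) + 575712 * e ^ 13

theorem Den36_0_q0_2_le {e h : ℝ} (he : 0 < e) (he1 : e ≤ 1 / 100) (hh : 0 < h) (hh1 : h ≤ 1 / 100) : Den36_0_q0_2 e h ≤ (1 / 1000000) := by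
  unfold Den36_0_q0_2
  refine le_trans (b := (29381860 * ((1 / 100) ^ 6 * (1 / 100) ^ 4) + 19872 * ((1 / 100) ^ 3 * (1 / 100) ^ 7)
    + 887040 * (1 / 100) ^ 11 + 7921104 * ((1 / 100) ^ 10 * (1 / 100))
    + 34569760 * ((1 / 100) ^ 7 * (1 / 100) ^ 4) + 27707344 * ((1 / 100) ^ 6 * (1 / 100) ^ 5)
    + 26007256 * ((1 / 100) ^ 10 * (1 / 100) ^ 2) + 28620668 * ((1 / 100) ^ 7 * (1 / 100) ^ 5)
    + 18461636 * ((1 / 100) ^ 6 * (1 / 100) ^ 6) + 575712 * (1 / 100) ^ 13 : ℝ)) (by gcongr) (by norm_num)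

noncomputable def Den36_0_q0_3 (e h : ℝ) : ℝ :=
  39979084 * (e ^ 10 * h ^ 3) + 18926652 * (e ^ 9 * h ^ 4) + 15584244 * (e ^ 7 * h ^ 6)
  + 8311768 * (e ^ 6 * h ^ 7) + 1844256 * (e ^ 13 * h) + 35692916 * (e ^ 10 * h ^ 4)
  + 33009004 * (e ^ 9 * h ^ 5) + 5168732 * (e ^ 7 * h ^ 7) + 2358440 * (e ^ 6 * h ^ 8)
  + 81792 * e ^ 15

theorem Den36_0_q0_3_le {e h : ℝ} (he : 0 < e) (he1 : e ≤ 1 / 100) (hh : 0 < h) (hh1 : h ≤ 1 / 100) : Den36_0_q0_3 e h ≤ (1 / 1000000) := by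
  unfold Den36_0_q0_3
  refine le_trans (b := (39979084 * ((1 / 100) ^ 10 * (1 / 100) ^ 3) + 18926652 * ((1 / 100) ^ 9 * (1 / 100) ^ 4)
    + 15584244 * ((1 / 100) ^ 7 * (1 / 100) ^ 6) + 8311768 * ((1 / 100) ^ 6 * (1 / 100) ^ 7)
    + 1844256 * ((1 / 100) ^ 13 * (1 / 100)) + 35692916 * ((1 / 100) ^ 10 * (1 / 100) ^ 4)
    + 33009004 * ((1 / 100) ^ 9 * (1 / 100) ^ 5) + 5168732 * ((1 / 100) ^ 7 * (1 / 100) ^ 7)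
    + 2358440 * ((1 / 100) ^ 6 * (1 / 100) ^ 8) + 81792 * (1 / 100) ^ 15 : ℝ)) (by gcongr) (by norm_num)

noncomputable def Den36_0_q0_4 (e h : ℝ) : ℝ :=
  2297744 * (e ^ 13 * h ^ 2) + 20095100 * (e ^ 10 * h ^ 5) + 28365860 * (e ^ 9 * h ^ 6)
  + 752512 * (e ^ 7 * h ^ 8) + 376736 * (e ^ 6 * h ^ 9) + 231936 * (e ^ 15 * h)
  + 1223600 * (e ^ 13 * h ^ 3) + 573408 * (e ^ 12 * h ^ 4) + 7397004 * (e ^ 10 * h ^ 6)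
  + 14795504 * (e ^ 9 * h ^ 7)

theorem Den36_0_q0_4_le {e h : ℝ} (he : 0 < e) (he1 : e ≤ 1 / 100) (hh : 0 < h) (hh1 : h ≤ 1 / 100) : Den36_0_q0_4 e h ≤ (1 / 1000000) := by
  unfold Den36_0_q0_4
  refine le_trans (b := (2297744 * ((1 / 100) ^ 13 * (1 / 100) ^ 2) + 20095100 * ((1 / 100) ^ 10 * (1 / 100) ^ 5)
    + 28365860 * ((1 / 100) ^ 9 * (1 / 100) ^ 6) + 752512 * ((1 / 100) ^ 7 * (1 / 100) ^ 8)
    + 376736 * ((1 / 100) ^ 6 * (1 / 100) ^ 9) + 231936 * ((1 / 100) ^ 15 * (1 / 100))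
    + 1223600 * ((1 / 100) ^ 13 * (1 / 100) ^ 3) + 573408 * ((1 / 100) ^ 12 * (1 / 100) ^ 4)
    + 7397004 * ((1 / 100) ^ 10 * (1 / 100) ^ 6) + 14795504 * ((1 / 100) ^ 9 * (1 / 100) ^ 7) : ℝ)) (by gcongr) (by norm_num)

noncomputable def Den36_0_q0_5 (e h : ℝ) : ℝ :=
  25728 * (e ^ 6 * h ^ 10) + 10368 * e ^ 17 + 271936 * (e ^ 15 * h ^ 2)
  + 154272 * (e ^ 14 * h ^ 3) + 526984 * (e ^ 12 * h ^ 5) + 1582416 * (e ^ 10 * h ^ 7)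
  + 4868868 * (e ^ 9 * h ^ 8) + 24192 * (e ^ 17 * h) + 183872 * (e ^ 15 * h ^ 3)
  + 299424 * (e ^ 14 * h ^ 4)

theorem Den36_0_q0_5_le {e h : ℝ} (he : 0 < e) (he1 : e ≤ 1 / 100) (hh : 0 < h) (hh1 : h ≤ 1 / 100) : Den36_0_q0_5 e h ≤ (1 / 1000000) := by
  unfold Den36_0_q0_5
  refine le_trans (b := (25728 * ((1 / 100) ^ 6 * (1 / 100) ^ 10) + 10368 * (1 / 100) ^ 17
    + 271936 * ((1 / 100) ^ 15 * (1 / 100) ^ 2) + 154272 * ((1 / 100) ^ 14 * (1 / 100) ^ 3)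
    + 526984 * ((1 / 100) ^ 12 * (1 / 100) ^ 5) + 1582416 * ((1 / 100) ^ 10 * (1 / 100) ^ 7)
    + 4868868 * ((1 / 100) ^ 9 * (1 / 100) ^ 8) + 24192 * ((1 / 100) ^ 17 * (1 / 100))
    + 183872 * ((1 / 100) ^ 15 * (1 / 100) ^ 3) + 299424 * ((1 / 100) ^ 14 * (1 / 100) ^ 4) : ℝ)) (by gcongr) (by norm_num)

noncomputable def Den36_0_q0_6 (e h : ℝ) : ℝ :=
  233736 * (e ^ 12 * h ^ 6) + 39000 * (e ^ 10 * h ^ 8) + 1012012 * (e ^ 9 * h ^ 9)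
  + 17280 * (e ^ 17 * h ^ 2) + 84160 * (e ^ 15 * h ^ 4) + 118720 * (e ^ 14 * h ^ 5)
  + 84864 * (e ^ 12 * h ^ 7) + 128736 * (e ^ 9 * h ^ 10) + 3456 * (e ^ 17 * h ^ 3)
  + 15168 * (e ^ 15 * h ^ 5)

theorem Den36_0_q0_6_le {e h : ℝ} (he : 0 < e) (he1 : e ≤ 1 / 100) (hh : 0 < h) (hh1 : h ≤ 1 / 100) : Den36_0_q0_6 e h ≤ (1 / 1000000) := by
  unfold Den36_0_q0_6
  refine le_trans (b := (233736 * ((1 / 100) ^ 12 * (1 / 100) ^ 6) + 39000 * ((1 / 100) ^ 10 * (1 / 100) ^ 8)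
    + 1012012 * ((1 / 100) ^ 9 * (1 / 100) ^ 9) + 17280 * ((1 / 100) ^ 17 * (1 / 100) ^ 2)
    + 84160 * ((1 / 100) ^ 15 * (1 / 100) ^ 4) + 118720 * ((1 / 100) ^ 14 * (1 / 100) ^ 5)
    + 84864 * ((1 / 100) ^ 12 * (1 / 100) ^ 7) + 128736 * ((1 / 100) ^ 9 * (1 / 100) ^ 10)
    + 3456 * ((1 / 100) ^ 17 * (1 / 100) ^ 3) + 15168 * ((1 / 100) ^ 15 * (1 / 100) ^ 5) : ℝ)) (by gcongr) (by norm_num)

noncomputable def Den36_0_q0_7 (e h : ℝ) : ℝ :=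
  13888 * (e ^ 14 * h ^ 6) + 13576 * (e ^ 12 * h ^ 8) + 5880 * (e ^ 11 * h ^ 9)
  + 8208 * (e ^ 9 * h ^ 11)

theorem Den36_0_q0_7_le {e h : ℝ} (he : 0 < e) (he1 : e ≤ 1 / 100) (hh : 0 < h) (hh1 : h ≤ 1 / 100) : Den36_0_q0_7 e h ≤ (1 / 1000000) := by
  unfold Den36_0_q0_7
  refine le_trans (b := (13888 * ((1 / 100) ^ 14 * (1 / 100) ^ 6) + 13576 * ((1 / 100) ^ 12 * (1 / 100) ^ 8)
    + 5880 * ((1 / 100) ^ 11 * (1 / 100) ^ 9) + 8208 * ((1 / 100) ^ 9 * (1 / 100) ^ 11) : ℝ)) (by gcongr) (by norm_num)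

theorem Den36_0 {e h : ℝ} (he : 0 < e) (he1 : e ≤ 1 / 100) (hh : 0 < h) (hh1 : h ≤ 1 / 100) :
    0 ≤ (11530 + 31500 * h) - (1 + 2 * e + 2 * e ^ 2 + 2 * (e * h)) * (2 * (2 + 2 * e ^ 2 - 4 * e - 3 * (h * e)) * (h + 3) * (h + 1 - e) * (1 - e - h * e)) * (R036 e h + P36 e h * (1 + 2 * e + 2 * e ^ 2 + 2 * (e * h))) * (2 + 2 * e ^ 2 - 4 * e - 3 * (h * e)) := by
  have k_e : (11530 + 31500 * h) - (1 + 2 * e + 2 * e ^ 2 + 2 * (e * h)) * (2 * (2 + 2 * e ^ 2 - 4 * e - 3 * (h * e)) * (h + 3) * (h + 1 - e) * (1 - e - h * e)) * (R036 e h + P36 e h * (1 + 2 * e + 2 * e ^ 2 + 2 * (e * h))) * (2 + 2 * e ^ 2 - 4 * e - 3 * (h * e))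
      = (10 + 29952 * e + 780 * h)
      + (Den36_0_c0 e h + Den36_0_c1 e h + Den36_0_c2 e h + Den36_0_c3 e h + Den36_0_c4 e h + Den36_0_c5 e h + Den36_0_c6 e h + Den36_0_c7 e h)
      - (1 * (Den36_0_q0_0 e h + Den36_0_q0_1 e h + Den36_0_q0_2 e h + Den36_0_q0_3 e h + Den36_0_q0_4 e h + Den36_0_q0_5 e h + Den36_0_q0_6 e h + Den36_0_q0_7 e h)) := by
    unfold R036 R036_p0 R036_p1 R036_n0 R036_n1 P36 P36_p0 P36_p1 P36_n0 P36_n1 Den36_0_c0 Den36_0_c1 Den36_0_c2 Den36_0_c3 Den36_0_c4 Den36_0_c5 Den36_0_c6 Den36_0_c7 Den36_0_q0_0 Den36_0_q0_1 Den36_0_q0_2 Den36_0_q0_3 Den36_0_q0_4 Den36_0_q0_5 Den36_0_q0_6 Den36_0_q0_7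
    ring
  have k_p : 0 ≤ Den36_0_c0 e h + Den36_0_c1 e h + Den36_0_c2 e h + Den36_0_c3 e h + Den36_0_c4 e h + Den36_0_c5 e h + Den36_0_c6 e h + Den36_0_c7 e h := by
    linarith [Den36_0_c0_nn he hh, Den36_0_c1_nn he hh, Den36_0_c2_nn he hh, Den36_0_c3_nn he hh, Den36_0_c4_nn he hh, Den36_0_c5_nn he hh, Den36_0_c6_nn he hh, Den36_0_c7_nn he hh]
  have k_q0 : Den36_0_q0_0 e h + Den36_0_q0_1 e h + Den36_0_q0_2 e h + Den36_0_q0_3 e h + Den36_0_q0_4 e h + Den36_0_q0_5 e h + Den36_0_q0_6 e h + Den36_0_q0_7 e h ≤ (3140007 / 1000000) := by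
    linarith [Den36_0_q0_0_le he he1 hh hh1, Den36_0_q0_1_le he he1 hh hh1, Den36_0_q0_2_le he he1 hh hh1, Den36_0_q0_3_le he he1 hh hh1, Den36_0_q0_4_le he he1 hh hh1, Den36_0_q0_5_le he he1 hh hh1, Den36_0_q0_6_le he he1 hh hh1, Den36_0_q0_7_le he he1 hh hh1]
  have k_l1 : (0 : ℝ) < e := by positivity
  have k_l2 : (0 : ℝ) < h := by positivity
  rw [k_e]
  exact fin1 (by positivity) k_p k_q0 (by linarith)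

theorem Den36 {e h : ℝ} (he : 0 < e) (he1 : e ≤ 1 / 100) (hh : 0 < h) (hh1 : h ≤ 1 / 100) :
    (1 + 2 * e + 2 * e ^ 2 + 2 * (e * h)) * (2 * (2 + 2 * e ^ 2 - 4 * e - 3 * (h * e)) * (h + 3) * (h + 1 - e) * (1 - e - h * e)) * (R036 e h + P36 e h * (1 + 2 * e + 2 * e ^ 2 + 2 * (e * h))) * (2 + 2 * e ^ 2 - 4 * e - 3 * (h * e)) ≤ 11530 + 31500 * h :=
  sub_nonneg.1 (Den36_0 he he1 hh hh1)


end Pool.Agent.Work.MP_71a505_up
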