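import Mathlib
import Pool.Agent.Work.MP_71a505_up.QFin

namespace Pool.Agent.Work.MP_71a505_up

noncomputable def R0E_p0 (e h : ℝ) : ℝ :=
  6 + 6 * e + 2 * h + 9 * e ^ 3 + 6 * (e ^ 3 * h) + e ^ 3 * h ^ 2

noncomputable def R0E_n0 (e h : ℝ) : ℝ :=
  21 * e ^ 2 + e * h + 34 * (e ^ 2 * h) + e * h ^ 2 + 15 * (e ^ 2 * h ^ 2) + 2 * (e ^ 2 * h ^ 3)

noncomputable def R0E (e h : ℝ) : ℝ :=
  R0E_p0 e h - (R0E_n0 e h)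

noncomputable def PE_p0 (e h : ℝ) : ℝ :=
  6 + 3 * (e * h) + 30 * e ^ 3 + 15 * (e * h ^ 2) + 42 * (e ^ 3 * h) + 24 * (e ^ 3 * h ^ 2)

noncomputable def PE_n0 (e h : ℝ) : ℝ :=
  6 * e + 6 * h + 18 * e ^ 2 + 27 * (e ^ 2 * h) + 12 * e ^ 4 + 12 * (e ^ 2 * h ^ 2)
  + 12 * (e ^ 4 * h) + 9 * (e ^ 2 * h ^ 3)

noncomputable def PE (e h : ℝ) : ℝ :=
  PE_p0 e h - (PE_n0 e h)

theorem R0E_eq (e h : ℝ) : R0E e h = ((h + 3) * (h * e + 2 + 4 * e) * (1 - e - h * e) - (h + 3) ^ 2 * (h + 1 - e) * e ^ 2) := by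
  unfold R0E R0E_p0 R0E_n0
  ring

theorem PE_eq (e h : ℝ) : PE e h = ((3 * (h + 3) - 6 * (h + 1 - e)) * (2 + 2 * e ^ 2 - 4 * e - 3 * (h * e)) * (1 - e - h * e)) := by
  unfold PE PE_p0 PE_n0
  ring

noncomputable def NE_pos_c0 (e h : ℝ) : ℝ :=
  2208 * (e ^ 3 * h) + 304 * (e * h ^ 3) + 108 * (e ^ 4 * h) + 4376 * (e ^ 3 * h ^ 2)
  + 224 * (e ^ 2 * h ^ 3) + 3852 * e ^ 6 + 2190 * (e ^ 4 * h ^ 2) + 3068 * (e ^ 3 * h ^ 3)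
  + 13746 * (e ^ 6 * h) + 2076 * (e ^ 4 * h ^ 3)

theorem NE_pos_c0_nn {e h : ℝ} (he : 0 < e) (hh : 0 < h) : 0 ≤ NE_pos_c0 e h := by
  unfold NE_pos_c0; positivity

noncomputable def NE_pos_c1 (e h : ℝ) : ℝ :=
  2754 * e ^ 8 + 21032 * (e ^ 6 * h ^ 2) + 352 * (e ^ 4 * h ^ 4) + 236 * (e ^ 3 * h ^ 5)
  + 7272 * (e ^ 8 * h) + 17560 * (e ^ 6 * h ^ 3) + 1064 * (e ^ 4 * h ^ 5) + 7884 * (e ^ 8 * h ^ 2)
  + 8736 * (e ^ 6 * h ^ 4) + 104 * (e ^ 4 * h ^ 6)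

theorem NE_pos_c1_nn {e h : ℝ} (he : 0 < e) (hh : 0 < h) : 0 ≤ NE_pos_c1 e h := by
  unfold NE_pos_c1; positivity

noncomputable def NE_pos_c2 (e h : ℝ) : ℝ :=
  3912 * (e ^ 8 * h ^ 3) + 3358 * (e ^ 6 * h ^ 5) + 578 * (e ^ 8 * h ^ 4) + 452 * (e ^ 6 * h ^ 6)

theorem NE_pos_c2_nn {e h : ℝ} (he : 0 < e) (hh : 0 < h) : 0 ≤ NE_pos_c2 e h := by
  unfold NE_pos_c2; positivity

noncomputable def NE_pos_q0_0 (e h : ℝ) : ℝ :=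
  144 * e + 64 * h + 1296 * e ^ 2 + 480 * (e * h) + 1320 * (e ^ 2 * h) + 6111 * e ^ 5
  + 488 * (e ^ 2 * h ^ 3) + 13782 * (e ^ 5 * h) + 288 * (e ^ 3 * h ^ 3) + 14679 * e ^ 7

theorem NE_pos_q0_0_le {e h : ℝ} (he : 0 < e) (he1 : e ≤ 1 / 100) (hh : 0 < h) (hh1 : h ≤ 1 / 100) : NE_pos_q0_0 e h ≤ (2259 / 1000) := by
  unfold NE_pos_q0_0
  refine le_trans (b := (144 * (1 / 100) + 64 * (1 / 100) + 1296 * (1 / 100) ^ 2 + 480 * ((1 / 100) * (1 / 100))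
    + 1320 * ((1 / 100) ^ 2 * (1 / 100)) + 6111 * (1 / 100) ^ 5
    + 488 * ((1 / 100) ^ 2 * (1 / 100) ^ 3) + 13782 * ((1 / 100) ^ 5 * (1 / 100))
    + 288 * ((1 / 100) ^ 3 * (1 / 100) ^ 3) + 14679 * (1 / 100) ^ 7 : ℝ)) (by gcongr) (by norm_num)

noncomputable def NE_pos_q0_1 (e h : ℝ) : ℝ :=
  15341 * (e ^ 5 * h ^ 2) + 18972 * (e ^ 7 * h) + 9858 * (e ^ 5 * h ^ 3) + 1296 * e ^ 9
  + 13846 * (e ^ 7 * h ^ 2) + 2667 * (e ^ 5 * h ^ 4) + 864 * (e ^ 9 * h) + 5836 * (e ^ 7 * h ^ 3)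
  + 736 * (e ^ 5 * h ^ 5) + 144 * (e ^ 9 * h ^ 2)

theorem NE_pos_q0_1_le {e h : ℝ} (he : 0 < e) (he1 : e ≤ 1 / 100) (hh : 0 < h) (hh1 : h ≤ 1 / 100) : NE_pos_q0_1 e h ≤ (1 / 1000000) := by
  unfold NE_pos_q0_1
  refine le_trans (b := (15341 * ((1 / 100) ^ 5 * (1 / 100) ^ 2) + 18972 * ((1 / 100) ^ 7 * (1 / 100))
    + 9858 * ((1 / 100) ^ 5 * (1 / 100) ^ 3) + 1296 * (1 / 100) ^ 9
    + 13846 * ((1 / 100) ^ 7 * (1 / 100) ^ 2) + 2667 * ((1 / 100) ^ 5 * (1 / 100) ^ 4)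
    + 864 * ((1 / 100) ^ 9 * (1 / 100)) + 5836 * ((1 / 100) ^ 7 * (1 / 100) ^ 3)
    + 736 * ((1 / 100) ^ 5 * (1 / 100) ^ 5) + 144 * ((1 / 100) ^ 9 * (1 / 100) ^ 2) : ℝ)) (by gcongr) (by norm_num)

noncomputable def NE_pos_q0_2 (e h : ℝ) : ℝ :=
  803 * (e ^ 7 * h ^ 4) + 93 * (e ^ 5 * h ^ 6)

theorem NE_pos_q0_2_le {e h : ℝ} (he : 0 < e) (he1 : e ≤ 1 / 100) (hh : 0 < h) (hh1 : h ≤ 1 / 100) : NE_pos_q0_2 e h ≤ (1 / 1000000) := by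
  unfold NE_pos_q0_2
  refine le_trans (b := (803 * ((1 / 100) ^ 7 * (1 / 100) ^ 4) + 93 * ((1 / 100) ^ 5 * (1 / 100) ^ 6) : ℝ)) (by gcongr) (by norm_num)

noncomputable def NE_pos_q1_0 (e h : ℝ) : ℝ :=
  702 * e + 648 * e ^ 2 + 4968 * e ^ 4 + 576 * e ^ 6

theorem NE_pos_q1_0_le {e h : ℝ} (he : 0 < e) (he1 : e ≤ 1 / 100) (hh : 0 < h) (hh1 : h ≤ 1 / 100) : NE_pos_q1_0 e h ≤ (1417 / 200) := by
  unfold NE_pos_q1_0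
  refine le_trans (b := (702 * (1 / 100) + 648 * (1 / 100) ^ 2 + 4968 * (1 / 100) ^ 4 + 576 * (1 / 100) ^ 6 : ℝ)) (by gcongr) (by norm_num)

theorem NE_pos {e h : ℝ} (he : 0 < e) (he1 : e ≤ 1 / 100) (hh : 0 < h) (hh1 : h ≤ 1 / 100) :
    0 < ((2 + 2 * e ^ 2 - 4 * e - 3 * (h * e)) * R0E e h ^ 2 - PE e h ^ 2 * (h * e + 2 + 4 * e)) := by
  have k_e : ((2 + 2 * e ^ 2 - 4 * e - 3 * (h * e)) * R0E e h ^ 2 - PE e h ^ 2 * (h * e + 2 + 4 * e))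
      = (192 * h + 288 * e ^ 3)
      + (NE_pos_c0 e h + NE_pos_c1 e h + NE_pos_c2 e h)
      - ((h) * (NE_pos_q0_0 e h + NE_pos_q0_1 e h + NE_pos_q0_2 e h) + (e ^ 3) * (NE_pos_q1_0 e h)) := by
    unfold R0E R0E_p0 R0E_n0 PE PE_p0 PE_n0 NE_pos_c0 NE_pos_c1 NE_pos_c2 NE_pos_q0_0 NE_pos_q0_1 NE_pos_q0_2 NE_pos_q1_0
    ring
  have k_p : 0 ≤ NE_pos_c0 e h + NE_pos_c1 e h + NE_pos_c2 e h := by
    linarith [NE_pos_c0_nn he hh, NE_pos_c1_nn he hh, NE_pos_c2_nn he hh]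
  have k_q0 : NE_pos_q0_0 e h + NE_pos_q0_1 e h + NE_pos_q0_2 e h ≤ (1129501 / 500000) := by
    linarith [NE_pos_q0_0_le he he1 hh hh1, NE_pos_q0_1_le he he1 hh hh1, NE_pos_q0_2_le he he1 hh hh1]
  have k_q1 : NE_pos_q1_0 e h ≤ (1417 / 200) := by
    linarith [NE_pos_q1_0_le he he1 hh hh1]
  have k_l0 : (0 : ℝ) < h := by positivity
  have k_l1 : (0 : ℝ) < e ^ 3 := by positivity
  rw [k_e]
  exact fins2 (by positivity) (by positivity) k_p k_q0 k_q1 (by linarith)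

noncomputable def DE_pos_c0 (e h : ℝ) : ℝ :=
  2 * e ^ 2

theorem DE_pos_c0_nn {e h : ℝ} (he : 0 < e) (hh : 0 < h) : 0 ≤ DE_pos_c0 e h := by
  unfold DE_pos_c0; positivity

noncomputable def DE_pos_q0_0 (e h : ℝ) : ℝ :=
  4 * e + 3 * (e * h)

theorem DE_pos_q0_0_le {e h : ℝ} (he : 0 < e) (he1 : e ≤ 1 / 100) (hh : 0 < h) (hh1 : h ≤ 1 / 100) : DE_pos_q0_0 e h ≤ (403 / 10000) := by
  unfold DE_pos_q0_0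
  refine le_trans (b := (4 * (1 / 100) + 3 * ((1 / 100) * (1 / 100)) : ℝ)) (by gcongr) (by norm_num)

theorem DE_pos {e h : ℝ} (he : 0 < e) (he1 : e ≤ 1 / 100) (hh : 0 < h) (hh1 : h ≤ 1 / 100) :
    0 < (2 + 2 * e ^ 2 - 4 * e - 3 * (h * e)) := by
  have k_e : (2 + 2 * e ^ 2 - 4 * e - 3 * (h * e))
      = (2)
      + (DE_pos_c0 e h)
      - (1 * (DE_pos_q0_0 e h)) := by
    unfold DE_pos_c0 DE_pos_q0_0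
    ring
  have k_p : 0 ≤ DE_pos_c0 e h := by
    linarith [DE_pos_c0_nn he hh]
  have k_q0 : DE_pos_q0_0 e h ≤ (403 / 10000) := by
    linarith [DE_pos_q0_0_le he he1 hh hh1]
  rw [k_e]
  exact fins1 (by positivity) k_p k_q0 (by linarith)

noncomputable def PE_low_c0 (e h : ℝ) : ℝ :=
  3 * (e * h) + 30 * e ^ 3 + 15 * (e * h ^ 2) + 42 * (e ^ 3 * h) + 24 * (e ^ 3 * h ^ 2)

theorem PE_low_c0_nn {e h : ℝ} (he : 0 < e) (hh : 0 < h) : 0 ≤ PE_low_c0 e h := by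
  unfold PE_low_c0; positivity

noncomputable def PE_low_q0_0 (e h : ℝ) : ℝ :=
  6 * e + 6 * h + 18 * e ^ 2 + 27 * (e ^ 2 * h) + 12 * e ^ 4 + 12 * (e ^ 2 * h ^ 2)
  + 12 * (e ^ 4 * h) + 9 * (e ^ 2 * h ^ 3)

theorem PE_low_q0_0_le {e h : ℝ} (he : 0 < e) (he1 : e ≤ 1 / 100) (hh : 0 < h) (hh1 : h ≤ 1 / 100) : PE_low_q0_0 e h ≤ (30457 / 250000) := by
  unfold PE_low_q0_0
  refine le_trans (b := (6 * (1 / 100) + 6 * (1 / 100) + 18 * (1 / 100) ^ 2 + 27 * ((1 / 100) ^ 2 * (1 / 100))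
    + 12 * (1 / 100) ^ 4 + 12 * ((1 / 100) ^ 2 * (1 / 100) ^ 2) + 12 * ((1 / 100) ^ 4 * (1 / 100))
    + 9 * ((1 / 100) ^ 2 * (1 / 100) ^ 3) : ℝ)) (by gcongr) (by norm_num)

theorem PE_low {e h : ℝ} (he : 0 < e) (he1 : e ≤ 1 / 100) (hh : 0 < h) (hh1 : h ≤ 1 / 100) :
    0 ≤ PE e h - 117 / 20 := by
  have k_e : PE e h - 117 / 20
      = ((3 / 20))
      + (PE_low_c0 e h)
      - (1 * (PE_low_q0_0 e h)) := by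
    unfold PE PE_p0 PE_n0 PE_low_c0 PE_low_q0_0
    ring
  have k_p : 0 ≤ PE_low_c0 e h := by
    linarith [PE_low_c0_nn he hh]
  have k_q0 : PE_low_q0_0 e h ≤ (30457 / 250000) := by
    linarith [PE_low_q0_0_le he he1 hh hh1]
  rw [k_e]
  exact fin1 (by positivity) k_p k_q0 (by linarith)

noncomputable def R0E_low_c0 (e h : ℝ) : ℝ :=
  6 * e + 2 * h + 9 * e ^ 3 + 6 * (e ^ 3 * h) + e ^ 3 * h ^ 2

theorem R0E_low_c0_nn {e h : ℝ} (he : 0 < e) (hh : 0 < h) : 0 ≤ R0E_low_c0 e h := by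
  unfold R0E_low_c0; positivity

noncomputable def R0E_low_q0_0 (e h : ℝ) : ℝ :=
  21 * e ^ 2 + e * h + 34 * (e ^ 2 * h) + e * h ^ 2 + 15 * (e ^ 2 * h ^ 2) + 2 * (e ^ 2 * h ^ 3)

theorem R0E_low_q0_0_le {e h : ℝ} (he : 0 < e) (he1 : e ≤ 1 / 100) (hh : 0 < h) (hh1 : h ≤ 1 / 100) : R0E_low_q0_0 e h ≤ (559 / 250000) := by
  unfold R0E_low_q0_0
  refine le_trans (b := (21 * (1 / 100) ^ 2 + (1 / 100) * (1 / 100) + 34 * ((1 / 100) ^ 2 * (1 / 100))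
    + (1 / 100) * (1 / 100) ^ 2 + 15 * ((1 / 100) ^ 2 * (1 / 100) ^ 2)
    + 2 * ((1 / 100) ^ 2 * (1 / 100) ^ 3) : ℝ)) (by gcongr) (by norm_num)

theorem R0E_low {e h : ℝ} (he : 0 < e) (he1 : e ≤ 1 / 100) (hh : 0 < h) (hh1 : h ≤ 1 / 100) :
    0 ≤ R0E e h - 117 / 20 := by
  have k_e : R0E e h - 117 / 20
      = ((3 / 20))
      + (R0E_low_c0 e h)
      - (1 * (R0E_low_q0_0 e h)) := by
    unfold R0E R0E_p0 R0E_n0 R0E_low_c0 R0E_low_q0_0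
    ring
  have k_p : 0 ≤ R0E_low_c0 e h := by
    linarith [R0E_low_c0_nn he hh]
  have k_q0 : R0E_low_q0_0 e h ≤ (559 / 250000) := by
    linarith [R0E_low_q0_0_le he he1 hh hh1]
  rw [k_e]
  exact fin1 (by positivity) k_p k_q0 (by linarith)

noncomputable def NE_up_c0 (e h : ℝ) : ℝ :=
  144 * (e * h) + 64 * h ^ 2 + 1296 * (e ^ 2 * h) + 480 * (e * h ^ 2) + 702 * e ^ 4
  + 1320 * (e ^ 2 * h ^ 2) + 648 * e ^ 5 + 6111 * (e ^ 5 * h) + 488 * (e ^ 2 * h ^ 4)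
  + 4968 * e ^ 7

theorem NE_up_c0_nn {e h : ℝ} (he : 0 < e) (hh : 0 < h) : 0 ≤ NE_up_c0 e h := by
  unfold NE_up_c0; positivity

noncomputable def NE_up_c1 (e h : ℝ) : ℝ :=
  13782 * (e ^ 5 * h ^ 2) + 288 * (e ^ 3 * h ^ 4) + 14679 * (e ^ 7 * h) + 15341 * (e ^ 5 * h ^ 3)
  + 576 * e ^ 9 + 18972 * (e ^ 7 * h ^ 2) + 9858 * (e ^ 5 * h ^ 4) + 1296 * (e ^ 9 * h)
  + 13846 * (e ^ 7 * h ^ 3) + 2667 * (e ^ 5 * h ^ 5)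

theorem NE_up_c1_nn {e h : ℝ} (he : 0 < e) (hh : 0 < h) : 0 ≤ NE_up_c1 e h := by
  unfold NE_up_c1; positivity

noncomputable def NE_up_c2 (e h : ℝ) : ℝ :=
  864 * (e ^ 9 * h ^ 2) + 5836 * (e ^ 7 * h ^ 4) + 736 * (e ^ 5 * h ^ 6) + 144 * (e ^ 9 * h ^ 3)
  + 803 * (e ^ 7 * h ^ 5) + 93 * (e ^ 5 * h ^ 7)

theorem NE_up_c2_nn {e h : ℝ} (he : 0 < e) (hh : 0 < h) : 0 ≤ NE_up_c2 e h := by
  unfold NE_up_c2; positivity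

noncomputable def NE_up_q0_0 (e h : ℝ) : ℝ :=
  2208 * e ^ 3 + 304 * (e * h ^ 2) + 108 * e ^ 4 + 4376 * (e ^ 3 * h) + 224 * (e ^ 2 * h ^ 2)
  + 2190 * (e ^ 4 * h) + 3068 * (e ^ 3 * h ^ 2) + 13746 * e ^ 6 + 2076 * (e ^ 4 * h ^ 2)
  + 21032 * (e ^ 6 * h)

theorem NE_up_q0_0_le {e h : ℝ} (he : 0 < e) (he1 : e ≤ 1 / 100) (hh : 0 < h) (hh1 : h ≤ 1 / 100) : NE_up_q0_0 e h ≤ (8 / 3125) := by
  unfold NE_up_q0_0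
  refine le_trans (b := (2208 * (1 / 100) ^ 3 + 304 * ((1 / 100) * (1 / 100) ^ 2) + 108 * (1 / 100) ^ 4
    + 4376 * ((1 / 100) ^ 3 * (1 / 100)) + 224 * ((1 / 100) ^ 2 * (1 / 100) ^ 2)
    + 2190 * ((1 / 100) ^ 4 * (1 / 100)) + 3068 * ((1 / 100) ^ 3 * (1 / 100) ^ 2)
    + 13746 * (1 / 100) ^ 6 + 2076 * ((1 / 100) ^ 4 * (1 / 100) ^ 2)
    + 21032 * ((1 / 100) ^ 6 * (1 / 100)) : ℝ)) (by gcongr) (by norm_num)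

noncomputable def NE_up_q0_1 (e h : ℝ) : ℝ :=
  352 * (e ^ 4 * h ^ 3) + 236 * (e ^ 3 * h ^ 4) + 7272 * e ^ 8 + 17560 * (e ^ 6 * h ^ 2)
  + 1064 * (e ^ 4 * h ^ 4) + 7884 * (e ^ 8 * h) + 8736 * (e ^ 6 * h ^ 3) + 104 * (e ^ 4 * h ^ 5)
  + 3912 * (e ^ 8 * h ^ 2) + 3358 * (e ^ 6 * h ^ 4)

theorem NE_up_q0_1_le {e h : ℝ} (he : 0 < e) (he1 : e ≤ 1 / 100) (hh : 0 < h) (hh1 : h ≤ 1 / 100) : NE_up_q0_1 e h ≤ (1 / 1000000) := by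
  unfold NE_up_q0_1
  refine le_trans (b := (352 * ((1 / 100) ^ 4 * (1 / 100) ^ 3) + 236 * ((1 / 100) ^ 3 * (1 / 100) ^ 4)
    + 7272 * (1 / 100) ^ 8 + 17560 * ((1 / 100) ^ 6 * (1 / 100) ^ 2)
    + 1064 * ((1 / 100) ^ 4 * (1 / 100) ^ 4) + 7884 * ((1 / 100) ^ 8 * (1 / 100))
    + 8736 * ((1 / 100) ^ 6 * (1 / 100) ^ 3) + 104 * ((1 / 100) ^ 4 * (1 / 100) ^ 5)
    + 3912 * ((1 / 100) ^ 8 * (1 / 100) ^ 2) + 3358 * ((1 / 100) ^ 6 * (1 / 100) ^ 4) : ℝ)) (by gcongr) (by norm_num)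

noncomputable def NE_up_q0_2 (e h : ℝ) : ℝ :=
  578 * (e ^ 8 * h ^ 3) + 452 * (e ^ 6 * h ^ 5)

theorem NE_up_q0_2_le {e h : ℝ} (he : 0 < e) (he1 : e ≤ 1 / 100) (hh : 0 < h) (hh1 : h ≤ 1 / 100) : NE_up_q0_2 e h ≤ (1 / 1000000) := by
  unfold NE_up_q0_2
  refine le_trans (b := (578 * ((1 / 100) ^ 8 * (1 / 100) ^ 3) + 452 * ((1 / 100) ^ 6 * (1 / 100) ^ 5) : ℝ)) (by gcongr) (by norm_num)

noncomputable def NE_up_q1_0 (e h : ℝ) : ℝ :=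
  3852 * e ^ 3 + 2754 * e ^ 5

theorem NE_up_q1_0_le {e h : ℝ} (he : 0 < e) (he1 : e ≤ 1 / 100) (hh : 0 < h) (hh1 : h ≤ 1 / 100) : NE_up_q1_0 e h ≤ (3853 / 1000000) := by
  unfold NE_up_q1_0
  refine le_trans (b := (3852 * (1 / 100) ^ 3 + 2754 * (1 / 100) ^ 5 : ℝ)) (by gcongr) (by norm_num)

theorem NE_up {e h : ℝ} (he : 0 < e) (he1 : e ≤ 1 / 100) (hh : 0 < h) (hh1 : h ≤ 1 / 100) :
    0 ≤ 130 * (2 * h + 3 * e ^ 3) - ((2 + 2 * e ^ 2 - 4 * e - 3 * (h * e)) * R0E e h ^ 2 - PE e h ^ 2 * (h * e + 2 + 4 * e)) := by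
  have k_e : 130 * (2 * h + 3 * e ^ 3) - ((2 + 2 * e ^ 2 - 4 * e - 3 * (h * e)) * R0E e h ^ 2 - PE e h ^ 2 * (h * e + 2 + 4 * e))
      = (68 * h + 102 * e ^ 3)
      + (NE_up_c0 e h + NE_up_c1 e h + NE_up_c2 e h)
      - ((h) * (NE_up_q0_0 e h + NE_up_q0_1 e h + NE_up_q0_2 e h) + (e ^ 3) * (NE_up_q1_0 e h)) := by
    unfold R0E R0E_p0 R0E_n0 PE PE_p0 PE_n0 NE_up_c0 NE_up_c1 NE_up_c2 NE_up_q0_0 NE_up_q0_1 NE_up_q0_2 NE_up_q1_0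
    ring
  have k_p : 0 ≤ NE_up_c0 e h + NE_up_c1 e h + NE_up_c2 e h := by
    linarith [NE_up_c0_nn he hh, NE_up_c1_nn he hh, NE_up_c2_nn he hh]
  have k_q0 : NE_up_q0_0 e h + NE_up_q0_1 e h + NE_up_q0_2 e h ≤ (1281 / 500000) := by
    linarith [NE_up_q0_0_le he he1 hh hh1, NE_up_q0_1_le he he1 hh hh1, NE_up_q0_2_le he he1 hh hh1]
  have k_q1 : NE_up_q1_0 e h ≤ (3853 / 1000000) := by
    linarith [NE_up_q1_0_le he he1 hh hh1]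
  have k_l0 : (0 : ℝ) < h := by positivity
  have k_l1 : (0 : ℝ) < e ^ 3 := by positivity
  rw [k_e]
  exact fin2 (by positivity) (by positivity) k_p k_q0 k_q1 (by linarith)


theorem phiE_poly {e h : ℝ} (he : 0 < e) (he1 : e ≤ 1 / 100) (hh : 0 < h) (hh1 : h ≤ 1 / 100) :
    0 < (2 + 2 * e ^ 2 - 4 * e - 3 * (h * e)) * ((h + 3) * (h * e + 2 + 4 * e) * (1 - e - h * e) - (h + 3) ^ 2 * (h + 1 - e) * e ^ 2) ^ 2 - ((3 * (h + 3) - 6 * (h + 1 - e)) * (2 + 2 * e ^ 2 - 4 * e - 3 * (h * e)) * (1 - e - h * e)) ^ 2 * (h * e + 2 + 4 * e) ∧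
    0 < (2 + 2 * e ^ 2 - 4 * e - 3 * (h * e)) ∧ 117 / 20 ≤ ((3 * (h + 3) - 6 * (h + 1 - e)) * (2 + 2 * e ^ 2 - 4 * e - 3 * (h * e)) * (1 - e - h * e)) ∧ 117 / 20 ≤ ((h + 3) * (h * e + 2 + 4 * e) * (1 - e - h * e) - (h + 3) ^ 2 * (h + 1 - e) * e ^ 2) ∧
    0 ≤ 130 * (2 * h + 3 * e ^ 3) - ((2 + 2 * e ^ 2 - 4 * e - 3 * (h * e)) * ((h + 3) * (h * e + 2 + 4 * e) * (1 - e - h * e) - (h + 3) ^ 2 * (h + 1 - e) * e ^ 2) ^ 2 - ((3 * (h + 3) - 6 * (h + 1 - e)) * (2 + 2 * e ^ 2 - 4 * e - 3 * (h * e)) * (1 - e - h * e)) ^ 2 * (h * e + 2 + 4 * e)) := by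
  have k1 := NE_pos he he1 hh hh1
  have k2 := DE_pos he he1 hh hh1
  have k3 := sub_nonneg.1 (PE_low he he1 hh hh1)
  have k4 := sub_nonneg.1 (R0E_low he he1 hh hh1)
  have k5 := NE_up he he1 hh hh1
  rw [R0E_eq, PE_eq] at k1 k5
  rw [PE_eq] at k3
  rw [R0E_eq] at k4
  exact ⟨k1, k2, k3, k4, k5⟩


end Pool.Agent.Work.MP_71a505_up
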