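import Mathlib
import Pool.Agent.Work.MP_71a505_up.Defs
import Pool.Agent.Work.MP_71a505_up.QEp

namespace Pool.Agent.Work.MP_71a505_up

/-- elimination of `q` -/
theorem elimq {Φ q Dn D C R0 P N : ℝ} (hq2 : q ^ 2 * D = C)
    (h1 : Φ * (q * Dn) = R0 - P * q) (hN : N = D * R0 ^ 2 - P ^ 2 * C) :
    Φ * (q * Dn * (R0 + P * q) * D) = N := by
  rw [hN, ← hq2]
  linear_combination ((R0 + P * q) * D) * h1

theorem q_one {e h q : ℝ} (he : 0 < e) (hh : 0 < h) (hq : 0 < q)
    (hD : 0 < qD e h) (hD2 : qD e h ≤ 2)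
    (hq2 : q ^ 2 * qD e h = qC e h) : 1 ≤ q := by
  by_contra hlt
  push Not at hlt
  have h1 : q ^ 2 < 1 := by nlinarith
  have h2 : q ^ 2 * qD e h < 1 * qD e h := mul_lt_mul_of_pos_right h1 hD
  rw [hq2] at h2
  have h3 : 0 < h * e := mul_pos hh he
  unfold qC at h2
  linarith

theorem phiE {e h : ℝ} (he : 0 < e) (he1 : e ≤ 1 / 100) (hh : 0 < h) (hh1 : h ≤ 1 / 100) {q : ℝ}
    (hq : 0 < q) (hq2 : q ^ 2 * qD e h = qC e h) :
    0 < PhiE e h q ∧ PhiE e h q ≤ 2 * h + 3 * e ^ 3 := by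
  obtain ⟨k1, k2, k3, k4, k5⟩ := phiE_poly he he1 hh hh1
  have hD : 0 < qD e h := k2
  have hD2 : qD e h ≤ 2 := by
    unfold qD
    have : 0 < h * e := mul_pos hh he
    nlinarith
  have hq1 := q_one he hh hq hD hD2 hq2
  have hl1 : 0 < h + 3 := by linarith
  have hl2 : 0 < h + 1 - e := by linarith
  have hl3 : 989 / 1000 ≤ 1 - e - h * e := by nlinarith
  have hD3 : 1959 / 1000 ≤ qD e h := by unfold qD; nlinarith
  have eD : 2 + 2 * e ^ 2 - 4 * e - 3 * (h * e) = qD e h := rfl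
  have eC : h * e + 2 + 4 * e = qC e h := rfl
  rw [eD] at k1 k3 k5
  rw [eC] at k1 k4 k5
  have h1 : PhiE e h q * (q * ((h + 3) * qD e h * (1 - e - h * e)))
      = ((h + 3) * qC e h * (1 - e - h * e) - (h + 3) ^ 2 * (h + 1 - e) * e ^ 2)
        - ((3 * (h + 3) - 6 * (h + 1 - e)) * qD e h * (1 - e - h * e)) * q := by
    unfold PhiE
    generalize qD e h = D at *
    generalize qC e h = C at *
    have hl3' : (1 - e - h * e) ≠ 0 := by linarith
    generalize 1 - e - h * e = l3 at *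
    field_simp
    linear_combination ((h + 3) * l3) * hq2
  have h2 := elimq hq2 h1 rfl
  set R0 := (h + 3) * qC e h * (1 - e - h * e) - (h + 3) ^ 2 * (h + 1 - e) * e ^ 2
  set P := (3 * (h + 3) - 6 * (h + 1 - e)) * qD e h * (1 - e - h * e)
  have hden : 130 / 2 ≤ q * ((h + 3) * qD e h * (1 - e - h * e)) * (R0 + P * q) * qD e h / 2 := by
    have g1 : 3 * (1959 / 1000) * (989 / 1000) ≤ (h + 3) * qD e h * (1 - e - h * e) := by
      have : 3 * (1959 / 1000) ≤ (h + 3) * qD e h := mul_le_mul (by linarith) hD3 (by norm_num) hl1.le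
      exact mul_le_mul this hl3 (by norm_num) (by positivity)
    have g2 : 1 * (3 * (1959 / 1000) * (989 / 1000)) ≤ q * ((h + 3) * qD e h * (1 - e - h * e)) :=
      mul_le_mul hq1 g1 (by norm_num) hq.le
    have g3 : 117 / 10 ≤ R0 + P * q := by
      have : 117 / 20 * 1 ≤ P * q := mul_le_mul k3 hq1 (by norm_num) (by linarith)
      linarith
    have g4 : 1 * (3 * (1959 / 1000) * (989 / 1000)) * (117 / 10)
        ≤ q * ((h + 3) * qD e h * (1 - e - h * e)) * (R0 + P * q) :=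
      mul_le_mul g2 g3 (by norm_num) (by linarith)
    have g5 : 1 * (3 * (1959 / 1000) * (989 / 1000)) * (117 / 10) * (1959 / 1000)
        ≤ q * ((h + 3) * qD e h * (1 - e - h * e)) * (R0 + P * q) * qD e h :=
      mul_le_mul g4 hD3 (by norm_num) (by linarith)
    norm_num at g5
    linarith
  set Den := q * ((h + 3) * qD e h * (1 - e - h * e)) * (R0 + P * q) * qD e h
  have hDen : 0 < Den := by linarith
  constructor
  · by_contra hneg
    push Not at hneg
    have : PhiE e h q * Den ≤ 0 := mul_nonpos_of_nonpos_of_nonneg hneg hDen.le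
    rw [h2] at this
    linarith
  · by_contra hneg
    push Not at hneg
    have g1 : (2 * h + 3 * e ^ 3) * Den < PhiE e h q * Den := mul_lt_mul_of_pos_right hneg hDen
    rw [h2] at g1
    have g2 : (2 * h + 3 * e ^ 3) * 130 ≤ (2 * h + 3 * e ^ 3) * Den :=
      mul_le_mul_of_nonneg_left (by linarith) (by positivity)
    linarith

end Pool.Agent.Work.MP_71a505_up
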