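import Mathlib
import Pool.Agent.Work.MP_71a505_up.Defs
import Pool.Agent.Work.MP_71a505_up.QE
import Pool.Agent.Work.MP_71a505_up.Q36a
import Pool.Agent.Work.MP_71a505_up.Q36b
import Pool.Agent.Work.MP_71a505_up.Q36c

namespace Pool.Agent.Work.MP_71a505_up

theorem fm_mul {e D l1 l2 l3 q C : ℝ} (h3 : l3 ≠ 0) (hq : q ≠ 0) (hq2 : q ^ 2 * D = C) :
    fm e (l3 * q) * (q * (2 * D * l1 * l2 * l3))
      = (e ^ 4 + 2 * e ^ 2 * (1 + e) - 2 * (1 + e) ^ 2) * D * l1 * l2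
        + (-e ^ 2 + 2 * (1 + e)) * q * (2 * D * l1 * l2 * l3) - 2 * l3 ^ 2 * C * l1 * l2 := by
  unfold fm
  have e1 : (e ^ 4 + 2 * e ^ 2 * (1 + e - l3 * q) - 2 * (1 + e - l3 * q) ^ 2) / (2 * (l3 * q))
      * (q * (2 * D * l1 * l2 * l3))
      = (e ^ 4 + 2 * e ^ 2 * (1 + e - l3 * q) - 2 * (1 + e - l3 * q) ^ 2) * D * l1 * l2 := by
    field_simp
  rw [e1]
  linear_combination (-2 * l3 ^ 2 * l1 * l2) * hq2

theorem split36 {e h q D l1 l2 l3 C : ℝ} (hD : D ≠ 0) (h1 : l1 ≠ 0) (h2 : l2 ≠ 0) (h3 : l3 ≠ 0)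
    (hq : q ≠ 0) (hq2 : q ^ 2 * D = C) {X b4 : ℝ} :
    (-33 * (h * e) - 63 * e ^ 2 + 33 * (2 - q * D)
    + 75 * X / (2 * (D * (l3 * q)))
    - 43 * fm e (l3 * q)
    - 27 * (q - 1) * (e * b4 * l2 / (2 * l1) + h * e * l1 / (2 * l2)))
      * (q * (2 * D * l1 * l2 * l3))
    = (-33 * C * (2 * D * l1 * l2 * l3) + 75 * X * l1 * l2
        - 43 * (e ^ 4 + 2 * e ^ 2 * (1 + e) - 2 * (1 + e) ^ 2) * D * l1 * l2
        + 86 * l3 ^ 2 * C * l1 * l2
        - 27 * C * l3 * (e * b4 * l2 ^ 2 + h * e * l1 ^ 2))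
      - (-((-33 * (h * e) - 63 * e ^ 2 + 66 + 43 * e ^ 2 - 86 * (1 + e)) * (2 * D * l1 * l2 * l3)
          + 27 * (e * b4 * l2 ^ 2 + h * e * l1 ^ 2) * D * l3)) * q := by
  have p2 : 75 * X / (2 * (D * (l3 * q))) * (q * (2 * D * l1 * l2 * l3)) = 75 * X * l1 * l2 := by
    field_simp
  have p3 := fm_mul (e := e) (l1 := l1) (l2 := l2) h3 hq hq2
  have p4 : (e * b4 * l2 / (2 * l1) + h * e * l1 / (2 * l2)) * (q * (2 * D * l1 * l2 * l3))
      = (e * b4 * l2 ^ 2 + h * e * l1 ^ 2) * (q * D * l3) := by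
    field_simp
  linear_combination p2 - 43 * p3 - 27 * (q - 1) * p4 - (33 * (2 * D * l1 * l2 * l3)) * hq2
    - (27 * (e * b4 * l2 ^ 2 + h * e * l1 ^ 2) * l3) * hq2

theorem R036_eq (e h : ℝ) : R036 e h =
    (-33 * qC e h * (2 * qD e h * (h + 3) * (h + 1 - e) * (1 - e - h * e))
      + 75 * (qB e h * (h + 1 - e) ^ 2 * e ^ 2 + h * e * (h + 3) ^ 2 * e ^ 2) * (h + 3) * (h + 1 - e)
        - 43 * (e ^ 4 + 2 * e ^ 2 * (1 + e) - 2 * (1 + e) ^ 2) * qD e h * (h + 3) * (h + 1 - e)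
        + 86 * (1 - e - h * e) ^ 2 * qC e h * (h + 3) * (h + 1 - e)
        - 27 * qC e h * (1 - e - h * e)
          * (e * (4 + 2 * e + h) * (h + 1 - e) ^ 2 + h * e * (h + 3) ^ 2)) := by
  unfold R036 R036_p0 R036_p1 R036_n0 R036_n1 qC qD qB
  ring

theorem P36_eq (e h : ℝ) : P36 e h =
    -((-33 * (h * e) - 63 * e ^ 2 + 66 + 43 * e ^ 2 - 86 * (1 + e))
        * (2 * qD e h * (h + 3) * (h + 1 - e) * (1 - e - h * e))
      + 27 * (e * (4 + 2 * e + h) * (h + 1 - e) ^ 2 + h * e * (h + 3) ^ 2) * qD e h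
        * (1 - e - h * e)) := by
  unfold P36 P36_p0 P36_p1 P36_n0 P36_n1 qD
  ring

theorem q_up {e h q : ℝ} (he : 0 < e) (he1 : e ≤ 1 / 100) (hh : 0 < h) (hh1 : h ≤ 1 / 100)
    (hq : 0 < q) (hD : 0 < qD e h) (hq2 : q ^ 2 * qD e h = qC e h) :
    q ≤ 1 + 2 * e + 2 * e ^ 2 + 2 * (e * h) := by
  by_contra hlt
  push Not at hlt
  have h0 : 0 < 1 + 2 * e + 2 * e ^ 2 + 2 * (e * h) := by positivity
  have h1 : (1 + 2 * e + 2 * e ^ 2 + 2 * (e * h)) ^ 2 < q ^ 2 :=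
    pow_lt_pow_left₀ hlt h0.le two_ne_zero
  have h2 := mul_lt_mul_of_pos_right h1 hD
  rw [hq2] at h2
  have h3_e : (1 + 2 * e + 2 * e ^ 2 + 2 * (e * h)) ^ 2 * (2 + 2 * e ^ 2 - 4 * e - 3 * (h * e)) - (h * e + 2 + 4 * e)
      = (2 * e ^ 2 + 4 * (e * h))
      + (8 * e ^ 6 + 4 * (e ^ 5 * h))
      - ((e ^ 2) * ((8 * e + 12 * h + 8 * e ^ 2) + (32 * (e * h) + 4 * h ^ 2 + 40 * (e ^ 2 * h)) + (40 * (e * h ^ 2)
      + 16 * (e ^ 2 * h ^ 2) + 12 * (e * h ^ 3)))) := by ring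
  have h3_p : 0 ≤ 8 * e ^ 6 + 4 * (e ^ 5 * h) := by positivity
  have h3_q0 : (8 * e + 12 * h + 8 * e ^ 2) + (32 * (e * h) + 4 * h ^ 2 + 40 * (e ^ 2 * h)) + (40 * (e * h ^ 2)
      + 16 * (e ^ 2 * h ^ 2) + 12 * (e * h ^ 3)) ≤ (41 / 200) := by
    refine le_trans (b := ((8 * (1 / 100) + 12 * (1 / 100) + 8 * (1 / 100) ^ 2) + (32 * ((1 / 100) * (1 / 100))
      + 4 * (1 / 100) ^ 2 + 40 * ((1 / 100) ^ 2 * (1 / 100))) + (40 * ((1 / 100) * (1 / 100) ^ 2)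
      + 16 * ((1 / 100) ^ 2 * (1 / 100) ^ 2) + 12 * ((1 / 100) * (1 / 100) ^ 3)) : ℝ)) (by gcongr) (by norm_num)
  have h3_r0 := mul_le_mul_of_nonneg_left h3_q0 (show (0 : ℝ) ≤ e ^ 2 by positivity)
  have h3_l0 : (0 : ℝ) < e ^ 2 := by positivity
  have h3_l1 : (0 : ℝ) < e * h := by positivity
  have h3 : 0 ≤ (1 + 2 * e + 2 * e ^ 2 + 2 * (e * h)) ^ 2 * (2 + 2 * e ^ 2 - 4 * e - 3 * (h * e)) - (h * e + 2 + 4 * e) := by
    rw [h3_e]; linarith [h3_p, h3_r0, h3_l0, h3_l1]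
  unfold qD qC at h2
  linarith

theorem phi36 {e h : ℝ} (he : 0 < e) (he1 : e ≤ 1 / 100) (hh : 0 < h) (hh1 : h ≤ 1 / 100) {q : ℝ}
    (hq : 0 < q) (hq2 : q ^ 2 * qD e h = qC e h) :
    14 * e ^ 5 + 100 * (e ^ 3 * h) + 20 * (e ^ 2 * h ^ 2) ≤ Phi36 e h q ∧
      Phi36 e h q ≤ 20 * e ^ 5 + 200 * (e ^ 3 * h) + 50 * (e ^ 2 * h ^ 2) := by
  have hhe : 0 < h * e := mul_pos hh he
  have hhe1 : h * e ≤ 1 / 100 * (1 / 100) := mul_le_mul hh1 he1 he.le (by norm_num)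
  have he2 : 0 ≤ e ^ 2 := by positivity
  have hD3 : 1959 / 1000 ≤ qD e h := by unfold qD; linarith
  have hD : 0 < qD e h := by linarith
  have hD2 : qD e h ≤ 2 := by
    unfold qD
    have : e ^ 2 ≤ e * (1 / 100) := by nlinarith
    linarith
  have hq1 := q_one he hh hq hD hD2 hq2
  have hqu := q_up he he1 hh hh1 hq hD hq2
  have hl1 : 3 ≤ h + 3 := by linarith
  have hl2 : 99 / 100 ≤ h + 1 - e := by linarith
  have hl3 : 989 / 1000 ≤ 1 - e - h * e := by linarith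
  have n1 := N36_lower he he1 hh hh1
  have n2 := N36_upper he he1 hh hh1
  have n3 := Den36 he he1 hh hh1
  obtain ⟨n4, n5⟩ := RP36 he he1 hh hh1
  have eD : 2 + 2 * e ^ 2 - 4 * e - 3 * (h * e) = qD e h := rfl
  have eC : h * e + 2 + 4 * e = qC e h := rfl
  rw [eD] at n1 n2 n3
  rw [eC] at n1 n2
  have h1 : Phi36 e h q * (q * (2 * qD e h * (h + 3) * (h + 1 - e) * (1 - e - h * e)))
      = R036 e h - P36 e h * q := by
    rw [R036_eq, P36_eq]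
    unfold Phi36
    exact split36 hD.ne' (by linarith) (by linarith) (by linarith) hq.ne' hq2
  have h2 := elimq hq2 h1 rfl
  have hDn : 57 / 5 ≤ 2 * qD e h * (h + 3) * (h + 1 - e) * (1 - e - h * e) := by
    have g1 : 2 * (1959 / 1000) * 3 ≤ 2 * qD e h * (h + 3) :=
      mul_le_mul (by linarith) hl1 (by norm_num) (by linarith)
    have g2 : 2 * (1959 / 1000) * 3 * (99 / 100) ≤ 2 * qD e h * (h + 3) * (h + 1 - e) :=
      mul_le_mul g1 hl2 (by norm_num) (by linarith)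
    have g3 : 2 * (1959 / 1000) * 3 * (99 / 100) * (989 / 1000)
        ≤ 2 * qD e h * (h + 3) * (h + 1 - e) * (1 - e - h * e) :=
      mul_le_mul g2 hl3 (by norm_num) (by linarith)
    linarith
  have hlow : 10600 ≤ (q * (2 * qD e h * (h + 3) * (h + 1 - e) * (1 - e - h * e)))
      * (R036 e h + P36 e h * q) * qD e h := by
    have g1 : 1 * (57 / 5) ≤ q * (2 * qD e h * (h + 3) * (h + 1 - e) * (1 - e - h * e)) :=
      mul_le_mul hq1 hDn (by norm_num) hq.le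
    have g2 : 238 * 1 ≤ P36 e h * q := mul_le_mul n5 hq1 (by norm_num) (by linarith)
    have g3 : 1 * (57 / 5) * 478 ≤ (q * (2 * qD e h * (h + 3) * (h + 1 - e) * (1 - e - h * e)))
      * (R036 e h + P36 e h * q) := mul_le_mul g1 (by linarith) (by norm_num) (by linarith)
    have g4 : 1 * (57 / 5) * 478 * (1959 / 1000)
        ≤ (q * (2 * qD e h * (h + 3) * (h + 1 - e) * (1 - e - h * e)))
      * (R036 e h + P36 e h * q) * qD e h := mul_le_mul g3 hD3 (by norm_num) (by linarith)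
    linarith
  have hup : (q * (2 * qD e h * (h + 3) * (h + 1 - e) * (1 - e - h * e)))
      * (R036 e h + P36 e h * q) * qD e h ≤ 11530 + 31500 * h := by
    refine le_trans ?_ n3
    have hP : 0 < P36 e h := by linarith
    have hR : 0 < R036 e h := by linarith
    have hl2' : 0 < h + 1 - e := by linarith
    have hl3' : 0 < 1 - e - h * e := by linarith
    gcongr
  set Den := (q * (2 * qD e h * (h + 3) * (h + 1 - e) * (1 - e - h * e)))
      * (R036 e h + P36 e h * q) * qD e h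
  have hDen : 0 < Den := by linarith
  constructor
  · by_contra hneg
    push Not at hneg
    have g1 := mul_lt_mul_of_pos_right hneg hDen
    rw [h2] at g1
    have g2 : (14 * e ^ 5 + 100 * (e ^ 3 * h) + 20 * (e ^ 2 * h ^ 2)) * Den
        ≤ (14 * e ^ 5 + 100 * (e ^ 3 * h) + 20 * (e ^ 2 * h ^ 2)) * (11530 + 31500 * h) :=
      mul_le_mul_of_nonneg_left hup (by positivity)
    linarith
  · by_contra hneg
    push Not at hneg
    have g1 := mul_lt_mul_of_pos_right hneg hDen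
    rw [h2] at g1
    have g2 : (20 * e ^ 5 + 200 * (e ^ 3 * h) + 50 * (e ^ 2 * h ^ 2)) * 10600
        ≤ (20 * e ^ 5 + 200 * (e ^ 3 * h) + 50 * (e ^ 2 * h ^ 2)) * Den :=
      mul_le_mul_of_nonneg_left hlow (by positivity)
    linarith

end Pool.Agent.Work.MP_71a505_up
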