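import Mathlib
import Pool.Agent.Work.MP_71a505_up.QFin

namespace Pool.Agent.Work.MP_71a505_up

noncomputable def R05_p0 (e h : ℝ) : ℝ :=
  128 + 128 * e + 1044 * e ^ 4 + 442 * (e ^ 3 * h) + 32 * (e ^ 2 * h ^ 2) + 1988 * (e ^ 4 * h)
  + 848 * (e ^ 3 * h ^ 2) + 1201 * (e ^ 4 * h ^ 2) + 126 * (e ^ 3 * h ^ 3) + 134 * (e ^ 4 * h ^ 3)

noncomputable def R05_p1 (e h : ℝ) : ℝ :=
  64 * e ^ 8 + 80 * (e ^ 8 * h) + 16 * (e ^ 8 * h ^ 2) + e ^ 6 * h ^ 4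

noncomputable def R05_n0 (e h : ℝ) : ℝ :=
  640 * e ^ 2 + 256 * (e * h) + 216 * e ^ 3 + 896 * (e ^ 2 * h) + 216 * e ^ 5 + 236 * e ^ 6
  + 828 * (e ^ 5 * h) + 56 * e ^ 7 + 412 * (e ^ 6 * h) + 1110 * (e ^ 5 * h ^ 2)

noncomputable def R05_n1 (e h : ℝ) : ℝ :=
  118 * (e ^ 7 * h) + 311 * (e ^ 6 * h ^ 2) + 624 * (e ^ 5 * h ^ 3) + 15 * (e ^ 4 * h ^ 4)
  + 136 * (e ^ 7 * h ^ 2) + 42 * (e ^ 6 * h ^ 3) + 163 * (e ^ 5 * h ^ 4) + 26 * (e ^ 7 * h ^ 3)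
  + 15 * (e ^ 5 * h ^ 5)

noncomputable def R05 (e h : ℝ) : ℝ :=
  R05_p0 e h + R05_p1 e h - (R05_n0 e h + R05_n1 e h)

noncomputable def P5_p0 (e h : ℝ) : ℝ :=
  128 + 872 * e ^ 3 + 244 * e ^ 4 + 1882 * (e ^ 3 * h) + 288 * (e ^ 2 * h ^ 2)
  + 1232 * (e ^ 3 * h ^ 2) + 530 * e ^ 6 + 62 * (e ^ 3 * h ^ 3) + 1238 * (e ^ 6 * h) + 54 * e ^ 8

noncomputable def P5_p1 (e h : ℝ) : ℝ :=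
  1075 * (e ^ 6 * h ^ 2) + 36 * (e ^ 8 * h) + 404 * (e ^ 6 * h ^ 3) + 6 * (e ^ 8 * h ^ 2)
  + 49 * (e ^ 6 * h ^ 4) + 4 * (e ^ 5 * h ^ 5)

noncomputable def P5_n0 (e h : ℝ) : ℝ :=
  128 * e + 576 * e ^ 2 + 384 * (e * h) + 384 * (e ^ 2 * h) + 972 * e ^ 5 + 220 * (e ^ 4 * h)
  + 1761 * (e ^ 5 * h) + 815 * (e ^ 4 * h ^ 2) + 152 * e ^ 7 + 1254 * (e ^ 5 * h ^ 2)

noncomputable def P5_n1 (e h : ℝ) : ℝ :=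
  634 * (e ^ 4 * h ^ 3) + 407 * (e ^ 7 * h) + 446 * (e ^ 5 * h ^ 3) + 95 * (e ^ 4 * h ^ 4)
  + 262 * (e ^ 7 * h ^ 2) + 47 * (e ^ 5 * h ^ 4) + 43 * (e ^ 7 * h ^ 3)

noncomputable def P5 (e h : ℝ) : ℝ :=
  P5_p0 e h + P5_p1 e h - (P5_n0 e h + P5_n1 e h)


end Pool.Agent.Work.MP_71a505_up
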