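import Mathlib
import Pool.Agent.Work.MP_71a505_up.Q5d

namespace Pool.Agent.Work.MP_71a505_up

noncomputable def N5_lower0_c0 (e h : ℝ) : ℝ :=
  35840 * (e ^ 4 * h ^ 2) + 10240 * (e ^ 4 * h ^ 3) + 65280 * e ^ 8 + 351744 * (e ^ 7 * h)
  + 1024 * (e ^ 4 * h ^ 4) + 581248 * e ^ 9 + 1293312 * (e ^ 8 * h) + 2231392 * (e ^ 7 * h ^ 2)
  + 205312 * (e ^ 6 * h ^ 3) + 64000 * (e ^ 9 * h)

theorem N5_lower0_c0_nn {e h : ℝ} (he : 0 < e) (hh : 0 < h) : 0 ≤ N5_lower0_c0 e h := by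
  unfold N5_lower0_c0; positivity

noncomputable def N5_lower0_c1 (e h : ℝ) : ℝ :=
  1681808 * (e ^ 8 * h ^ 2) + 2904944 * (e ^ 7 * h ^ 3) + 240128 * (e ^ 6 * h ^ 4)
  + 1097408 * (e ^ 7 * h ^ 4) + 75776 * (e ^ 6 * h ^ 5) + 2425656 * e ^ 12
  + 1306824 * (e ^ 11 * h) + 130464 * (e ^ 7 * h ^ 5) + 7680 * (e ^ 6 * h ^ 6)
  + 10148256 * (e ^ 12 * h)

theorem N5_lower0_c1_nn {e h : ℝ} (he : 0 < e) (hh : 0 < h) : 0 ≤ N5_lower0_c1 e h := by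
  unfold N5_lower0_c1; positivity

noncomputable def N5_lower0_c2 (e h : ℝ) : ℝ :=
  4171836 * (e ^ 11 * h ^ 2) + 1281456 * e ^ 14 + 18708768 * (e ^ 12 * h ^ 2)
  + 4298591 * (e ^ 11 * h ^ 3) + 6215252 * (e ^ 10 * h ^ 4) + 5469952 * (e ^ 14 * h)
  + 20345948 * (e ^ 12 * h ^ 3) + 154048 * (e ^ 11 * h ^ 4) + 7306832 * (e ^ 10 * h ^ 5)
  + 714352 * (e ^ 9 * h ^ 6)

theorem N5_lower0_c2_nn {e h : ℝ} (he : 0 < e) (hh : 0 < h) : 0 ≤ N5_lower0_c2 e h := by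
  unfold N5_lower0_c2; positivity

noncomputable def N5_lower0_c3 (e h : ℝ) : ℝ :=
  42552 * e ^ 16 + 10387910 * (e ^ 14 * h ^ 2) + 14536200 * (e ^ 12 * h ^ 4)
  + 3627314 * (e ^ 10 * h ^ 6) + 331368 * (e ^ 9 * h ^ 7) + 211920 * (e ^ 16 * h)
  + 11318444 * (e ^ 14 * h ^ 3) + 7243336 * (e ^ 12 * h ^ 5) + 949320 * (e ^ 10 * h ^ 7)
  + 57280 * (e ^ 9 * h ^ 8)

theorem N5_lower0_c3_nn {e h : ℝ} (he : 0 < e) (hh : 0 < h) : 0 ≤ N5_lower0_c3 e h := by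
  unfold N5_lower0_c3; positivity

noncomputable def N5_lower0_c4 (e h : ℝ) : ℝ :=
  8192 * e ^ 18 + 361868 * (e ^ 16 * h ^ 2) + 7633932 * (e ^ 14 * h ^ 4)
  + 2470990 * (e ^ 12 * h ^ 6) + 124168 * (e ^ 10 * h ^ 8) + 3564 * (e ^ 9 * h ^ 9)
  + 20480 * (e ^ 18 * h) + 340320 * (e ^ 16 * h ^ 3) + 3218284 * (e ^ 14 * h ^ 5)
  + 574752 * (e ^ 12 * h ^ 7)

theorem N5_lower0_c4_nn {e h : ℝ} (he : 0 < e) (hh : 0 < h) : 0 ≤ N5_lower0_c4 e h := by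
  unfold N5_lower0_c4; positivity

noncomputable def N5_lower0_c5 (e h : ℝ) : ℝ :=
  5304 * (e ^ 10 * h ^ 9) + 16896 * (e ^ 18 * h ^ 2) + 190608 * (e ^ 16 * h ^ 4)
  + 838274 * (e ^ 14 * h ^ 6) + 86978 * (e ^ 12 * h ^ 8) + 5120 * (e ^ 18 * h ^ 3)
  + 48944 * (e ^ 16 * h ^ 5) + 121544 * (e ^ 14 * h ^ 7) + 6904 * (e ^ 12 * h ^ 9)
  + 512 * (e ^ 18 * h ^ 4)

theorem N5_lower0_c5_nn {e h : ℝ} (he : 0 < e) (hh : 0 < h) : 0 ≤ N5_lower0_c5 e h := by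
  unfold N5_lower0_c5; positivity

noncomputable def N5_lower0_c6 (e h : ℝ) : ℝ :=
  4428 * (e ^ 16 * h ^ 6) + 7324 * (e ^ 14 * h ^ 8) + 148 * (e ^ 12 * h ^ 10)

theorem N5_lower0_c6_nn {e h : ℝ} (he : 0 < e) (hh : 0 < h) : 0 ≤ N5_lower0_c6 e h := by
  unfold N5_lower0_c6; positivity

noncomputable def N5_lower0_q0_0 (e h : ℝ) : ℝ :=
  96768 * e + 1186272 * e ^ 4 + 75744 * e ^ 5 + 2820528 * e ^ 7 + 197024 * e ^ 9 + 42384 * e ^ 11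

theorem N5_lower0_q0_0_le {e h : ℝ} (he : 0 < e) (he1 : e ≤ 1 / 1000) (hh : 0 < h) (hh1 : h ≤ 1 / 1000) : N5_lower0_q0_0 e h ≤ (96769 / 1000) := by
  unfold N5_lower0_q0_0
  refine le_trans (b := (96768 * (1 / 1000) + 1186272 * (1 / 1000) ^ 4 + 75744 * (1 / 1000) ^ 5
    + 2820528 * (1 / 1000) ^ 7 + 197024 * (1 / 1000) ^ 9 + 42384 * (1 / 1000) ^ 11 : ℝ)) (by gcongr) (by norm_num)

noncomputable def N5_lower0_q1_0 (e h : ℝ) : ℝ :=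
  62464 * e + 398336 * e ^ 2 + 290816 * (e * h) + 507392 * (e ^ 2 * h) + 179712 * (e * h ^ 2)
  + 48128 * (e * h ^ 3) + 4608 * (e * h ^ 4) + 4938384 * e ^ 6 + 4144320 * (e ^ 5 * h)
  + 1289728 * (e ^ 4 * h ^ 2)

theorem N5_lower0_q1_0_le {e h : ℝ} (he : 0 < e) (he1 : e ≤ 1 / 1000) (hh : 0 < h) (hh1 : h ≤ 1 / 1000) : N5_lower0_q1_0 e h ≤ (31577 / 500) := by
  unfold N5_lower0_q1_0
  refine le_trans (b := (62464 * (1 / 1000) + 398336 * (1 / 1000) ^ 2 + 290816 * ((1 / 1000) * (1 / 1000))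
    + 507392 * ((1 / 1000) ^ 2 * (1 / 1000)) + 179712 * ((1 / 1000) * (1 / 1000) ^ 2)
    + 48128 * ((1 / 1000) * (1 / 1000) ^ 3) + 4608 * ((1 / 1000) * (1 / 1000) ^ 4)
    + 4938384 * (1 / 1000) ^ 6 + 4144320 * ((1 / 1000) ^ 5 * (1 / 1000))
    + 1289728 * ((1 / 1000) ^ 4 * (1 / 1000) ^ 2) : ℝ)) (by gcongr) (by norm_num)

noncomputable def N5_lower0_q1_1 (e h : ℝ) : ℝ :=
  6377778 * (e ^ 6 * h) + 7581408 * (e ^ 5 * h ^ 2) + 3620888 * (e ^ 4 * h ^ 3)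
  + 710416 * (e ^ 6 * h ^ 2) + 5169872 * (e ^ 5 * h ^ 3) + 2069856 * (e ^ 4 * h ^ 4)
  + 21280 * (e ^ 3 * h ^ 5) + 12510548 * e ^ 9 + 494996 * (e ^ 5 * h ^ 4)
  + 549088 * (e ^ 4 * h ^ 5)

theorem N5_lower0_q1_1_le {e h : ℝ} (he : 0 < e) (he1 : e ≤ 1 / 1000) (hh : 0 < h) (hh1 : h ≤ 1 / 1000) : N5_lower0_q1_1 e h ≤ (1 / 1000000) := by
  unfold N5_lower0_q1_1
  refine le_trans (b := (6377778 * ((1 / 1000) ^ 6 * (1 / 1000)) + 7581408 * ((1 / 1000) ^ 5 * (1 / 1000) ^ 2)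
    + 3620888 * ((1 / 1000) ^ 4 * (1 / 1000) ^ 3) + 710416 * ((1 / 1000) ^ 6 * (1 / 1000) ^ 2)
    + 5169872 * ((1 / 1000) ^ 5 * (1 / 1000) ^ 3) + 2069856 * ((1 / 1000) ^ 4 * (1 / 1000) ^ 4)
    + 21280 * ((1 / 1000) ^ 3 * (1 / 1000) ^ 5) + 12510548 * (1 / 1000) ^ 9
    + 494996 * ((1 / 1000) ^ 5 * (1 / 1000) ^ 4) + 549088 * ((1 / 1000) ^ 4 * (1 / 1000) ^ 5) : ℝ)) (by gcongr) (by norm_num)

noncomputable def N5_lower0_q1_2 (e h : ℝ) : ℝ :=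
  4368 * (e ^ 3 * h ^ 6) + 24441104 * (e ^ 9 * h) + 64672 * (e ^ 4 * h ^ 6) + 888112 * e ^ 11
  + 27886478 * (e ^ 9 * h ^ 2) + 3608144 * (e ^ 7 * h ^ 4) + 2456 * (e ^ 4 * h ^ 7)
  + 1682572 * (e ^ 11 * h) + 20657612 * (e ^ 9 * h ^ 3) + 4115338 * (e ^ 7 * h ^ 5)

theorem N5_lower0_q1_2_le {e h : ℝ} (he : 0 < e) (he1 : e ≤ 1 / 1000) (hh : 0 < h) (hh1 : h ≤ 1 / 1000) : N5_lower0_q1_2 e h ≤ (1 / 1000000) := by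
  unfold N5_lower0_q1_2
  refine le_trans (b := (4368 * ((1 / 1000) ^ 3 * (1 / 1000) ^ 6) + 24441104 * ((1 / 1000) ^ 9 * (1 / 1000))
    + 64672 * ((1 / 1000) ^ 4 * (1 / 1000) ^ 6) + 888112 * (1 / 1000) ^ 11
    + 27886478 * ((1 / 1000) ^ 9 * (1 / 1000) ^ 2) + 3608144 * ((1 / 1000) ^ 7 * (1 / 1000) ^ 4)
    + 2456 * ((1 / 1000) ^ 4 * (1 / 1000) ^ 7) + 1682572 * ((1 / 1000) ^ 11 * (1 / 1000))
    + 20657612 * ((1 / 1000) ^ 9 * (1 / 1000) ^ 3) + 4115338 * ((1 / 1000) ^ 7 * (1 / 1000) ^ 5) : ℝ)) (by gcongr) (by norm_num)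

noncomputable def N5_lower0_q1_3 (e h : ℝ) : ℝ :=
  119844 * e ^ 13 + 1684193 * (e ^ 11 * h ^ 2) + 10298362 * (e ^ 9 * h ^ 4)
  + 2282536 * (e ^ 7 * h ^ 6) + 152336 * (e ^ 13 * h) + 983708 * (e ^ 11 * h ^ 3)
  + 3438886 * (e ^ 9 * h ^ 5) + 739760 * (e ^ 7 * h ^ 7) + 96984 * (e ^ 13 * h ^ 2)
  + 364222 * (e ^ 11 * h ^ 4)

theorem N5_lower0_q1_3_le {e h : ℝ} (he : 0 < e) (he1 : e ≤ 1 / 1000) (hh : 0 < h) (hh1 : h ≤ 1 / 1000) : N5_lower0_q1_3 e h ≤ (1 / 1000000) := by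
  unfold N5_lower0_q1_3
  refine le_trans (b := (119844 * (1 / 1000) ^ 13 + 1684193 * ((1 / 1000) ^ 11 * (1 / 1000) ^ 2)
    + 10298362 * ((1 / 1000) ^ 9 * (1 / 1000) ^ 4) + 2282536 * ((1 / 1000) ^ 7 * (1 / 1000) ^ 6)
    + 152336 * ((1 / 1000) ^ 13 * (1 / 1000)) + 983708 * ((1 / 1000) ^ 11 * (1 / 1000) ^ 3)
    + 3438886 * ((1 / 1000) ^ 9 * (1 / 1000) ^ 5) + 739760 * ((1 / 1000) ^ 7 * (1 / 1000) ^ 7)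
    + 96984 * ((1 / 1000) ^ 13 * (1 / 1000) ^ 2) + 364222 * ((1 / 1000) ^ 11 * (1 / 1000) ^ 4) : ℝ)) (by gcongr) (by norm_num)

noncomputable def N5_lower0_q1_4 (e h : ℝ) : ℝ :=
  733776 * (e ^ 9 * h ^ 6) + 143108 * (e ^ 7 * h ^ 8) + 172 * (e ^ 6 * h ^ 9)
  + 26304 * (e ^ 13 * h ^ 3) + 72560 * (e ^ 11 * h ^ 5) + 88438 * (e ^ 9 * h ^ 7)
  + 15258 * (e ^ 7 * h ^ 9) + 2468 * (e ^ 13 * h ^ 4) + 5625 * (e ^ 11 * h ^ 6)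
  + 4460 * (e ^ 9 * h ^ 8)

theorem N5_lower0_q1_4_le {e h : ℝ} (he : 0 < e) (he1 : e ≤ 1 / 1000) (hh : 0 < h) (hh1 : h ≤ 1 / 1000) : N5_lower0_q1_4 e h ≤ (1 / 1000000) := by
  unfold N5_lower0_q1_4
  refine le_trans (b := (733776 * ((1 / 1000) ^ 9 * (1 / 1000) ^ 6) + 143108 * ((1 / 1000) ^ 7 * (1 / 1000) ^ 8)
    + 172 * ((1 / 1000) ^ 6 * (1 / 1000) ^ 9) + 26304 * ((1 / 1000) ^ 13 * (1 / 1000) ^ 3)
    + 72560 * ((1 / 1000) ^ 11 * (1 / 1000) ^ 5) + 88438 * ((1 / 1000) ^ 9 * (1 / 1000) ^ 7)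
    + 15258 * ((1 / 1000) ^ 7 * (1 / 1000) ^ 9) + 2468 * ((1 / 1000) ^ 13 * (1 / 1000) ^ 4)
    + 5625 * ((1 / 1000) ^ 11 * (1 / 1000) ^ 6) + 4460 * ((1 / 1000) ^ 9 * (1 / 1000) ^ 8) : ℝ)) (by gcongr) (by norm_num)

noncomputable def N5_lower0_q1_5 (e h : ℝ) : ℝ :=
  691 * (e ^ 7 * h ^ 10)

theorem N5_lower0_q1_5_le {e h : ℝ} (he : 0 < e) (he1 : e ≤ 1 / 1000) (hh : 0 < h) (hh1 : h ≤ 1 / 1000) : N5_lower0_q1_5 e h ≤ (1 / 1000000) := by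
  unfold N5_lower0_q1_5
  refine le_trans (b := (691 * ((1 / 1000) ^ 7 * (1 / 1000) ^ 10) : ℝ)) (by gcongr) (by norm_num)

theorem N5_lower0 {e h : ℝ} (he : 0 < e) (he1 : e ≤ 1 / 1000) (hh : 0 < h) (hh1 : h ≤ 1 / 1000) :
    0 ≤ ((2 + 2 * e ^ 2 - 4 * e - 3 * (h * e)) * R05 e h ^ 2 - P5 e h ^ 2 * (h * e + 2 + 4 * e)) - (6 * e ^ 6 + 20 * (e ^ 4 * h)) * 2100 := by
  have k_e : ((2 + 2 * e ^ 2 - 4 * e - 3 * (h * e)) * R05 e h ^ 2 - P5 e h ^ 2 * (h * e + 2 + 4 * e)) - (6 * e ^ 6 + 20 * (e ^ 4 * h)) * 2100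
      = (1736 * e ^ 6 + 9200 * (e ^ 4 * h))
      + (N5_lower0_c0 e h + N5_lower0_c1 e h + N5_lower0_c2 e h + N5_lower0_c3 e h + N5_lower0_c4 e h + N5_lower0_c5 e h + N5_lower0_c6 e h)
      - ((e ^ 6) * (N5_lower0_q0_0 e h) + (e ^ 4 * h) * (N5_lower0_q1_0 e h + N5_lower0_q1_1 e h + N5_lower0_q1_2 e h + N5_lower0_q1_3 e h + N5_lower0_q1_4 e h + N5_lower0_q1_5 e h)) := by
    unfold R05 R05_p0 R05_p1 R05_n0 R05_n1 P5 P5_p0 P5_p1 P5_n0 P5_n1 N5_lower0_c0 N5_lower0_c1 N5_lower0_c2 N5_lower0_c3 N5_lower0_c4 N5_lower0_c5 N5_lower0_c6 N5_lower0_q0_0 N5_lower0_q1_0 N5_lower0_q1_1 N5_lower0_q1_2 N5_lower0_q1_3 N5_lower0_q1_4 N5_lower0_q1_5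
    ring
  have k_p : 0 ≤ N5_lower0_c0 e h + N5_lower0_c1 e h + N5_lower0_c2 e h + N5_lower0_c3 e h + N5_lower0_c4 e h + N5_lower0_c5 e h + N5_lower0_c6 e h := by
    linarith [N5_lower0_c0_nn he hh, N5_lower0_c1_nn he hh, N5_lower0_c2_nn he hh, N5_lower0_c3_nn he hh, N5_lower0_c4_nn he hh, N5_lower0_c5_nn he hh, N5_lower0_c6_nn he hh]
  have k_q0 : N5_lower0_q0_0 e h ≤ (96769 / 1000) := by
    linarith [N5_lower0_q0_0_le he he1 hh hh1]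
  have k_q1 : N5_lower0_q1_0 e h + N5_lower0_q1_1 e h + N5_lower0_q1_2 e h + N5_lower0_q1_3 e h + N5_lower0_q1_4 e h + N5_lower0_q1_5 e h ≤ (12630801 / 200000) := by
    linarith [N5_lower0_q1_0_le he he1 hh hh1, N5_lower0_q1_1_le he he1 hh hh1, N5_lower0_q1_2_le he he1 hh hh1, N5_lower0_q1_3_le he he1 hh hh1, N5_lower0_q1_4_le he he1 hh hh1, N5_lower0_q1_5_le he he1 hh hh1]
  have k_l0 : (0 : ℝ) < e ^ 6 := by positivity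
  have k_l1 : (0 : ℝ) < e ^ 4 * h := by positivity
  rw [k_e]
  exact fin2 (by positivity) (by positivity) k_p k_q0 k_q1 (by linarith)

theorem N5_lower {e h : ℝ} (he : 0 < e) (he1 : e ≤ 1 / 1000) (hh : 0 < h) (hh1 : h ≤ 1 / 1000) :
    (6 * e ^ 6 + 20 * (e ^ 4 * h)) * 2100
      ≤ (2 + 2 * e ^ 2 - 4 * e - 3 * (h * e)) * R05 e h ^ 2 - P5 e h ^ 2 * (h * e + 2 + 4 * e) :=
  sub_nonneg.1 (N5_lower0 he he1 hh hh1)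


end Pool.Agent.Work.MP_71a505_up
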