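import Mathlib
import Pool.Agent.Work.MP_71a505_up.Q5d

namespace Pool.Agent.Work.MP_71a505_up

noncomputable def R05_low_c0 (e h : ℝ) : ℝ :=
  128 * e + 1044 * e ^ 4 + 442 * (e ^ 3 * h) + 32 * (e ^ 2 * h ^ 2) + 1988 * (e ^ 4 * h)
  + 848 * (e ^ 3 * h ^ 2) + 1201 * (e ^ 4 * h ^ 2) + 126 * (e ^ 3 * h ^ 3) + 134 * (e ^ 4 * h ^ 3)
  + 64 * e ^ 8

theorem R05_low_c0_nn {e h : ℝ} (he : 0 < e) (hh : 0 < h) : 0 ≤ R05_low_c0 e h := by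
  unfold R05_low_c0; positivity

noncomputable def R05_low_c1 (e h : ℝ) : ℝ :=
  80 * (e ^ 8 * h) + 16 * (e ^ 8 * h ^ 2) + e ^ 6 * h ^ 4

theorem R05_low_c1_nn {e h : ℝ} (he : 0 < e) (hh : 0 < h) : 0 ≤ R05_low_c1 e h := by
  unfold R05_low_c1; positivity

noncomputable def R05_low_q0_0 (e h : ℝ) : ℝ :=
  640 * e ^ 2 + 256 * (e * h) + 216 * e ^ 3 + 896 * (e ^ 2 * h) + 216 * e ^ 5 + 236 * e ^ 6
  + 828 * (e ^ 5 * h) + 56 * e ^ 7 + 412 * (e ^ 6 * h) + 1110 * (e ^ 5 * h ^ 2)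

theorem R05_low_q0_0_le {e h : ℝ} (he : 0 < e) (he1 : e ≤ 1 / 1000) (hh : 0 < h) (hh1 : h ≤ 1 / 1000) : R05_low_q0_0 e h ≤ (449 / 500000) := by
  unfold R05_low_q0_0
  refine le_trans (b := (640 * (1 / 1000) ^ 2 + 256 * ((1 / 1000) * (1 / 1000)) + 216 * (1 / 1000) ^ 3
    + 896 * ((1 / 1000) ^ 2 * (1 / 1000)) + 216 * (1 / 1000) ^ 5 + 236 * (1 / 1000) ^ 6
    + 828 * ((1 / 1000) ^ 5 * (1 / 1000)) + 56 * (1 / 1000) ^ 7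
    + 412 * ((1 / 1000) ^ 6 * (1 / 1000)) + 1110 * ((1 / 1000) ^ 5 * (1 / 1000) ^ 2) : ℝ)) (by gcongr) (by norm_num)

noncomputable def R05_low_q0_1 (e h : ℝ) : ℝ :=
  118 * (e ^ 7 * h) + 311 * (e ^ 6 * h ^ 2) + 624 * (e ^ 5 * h ^ 3) + 15 * (e ^ 4 * h ^ 4)
  + 136 * (e ^ 7 * h ^ 2) + 42 * (e ^ 6 * h ^ 3) + 163 * (e ^ 5 * h ^ 4) + 26 * (e ^ 7 * h ^ 3)
  + 15 * (e ^ 5 * h ^ 5)

theorem R05_low_q0_1_le {e h : ℝ} (he : 0 < e) (he1 : e ≤ 1 / 1000) (hh : 0 < h) (hh1 : h ≤ 1 / 1000) : R05_low_q0_1 e h ≤ (1 / 1000000) := by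
  unfold R05_low_q0_1
  refine le_trans (b := (118 * ((1 / 1000) ^ 7 * (1 / 1000)) + 311 * ((1 / 1000) ^ 6 * (1 / 1000) ^ 2)
    + 624 * ((1 / 1000) ^ 5 * (1 / 1000) ^ 3) + 15 * ((1 / 1000) ^ 4 * (1 / 1000) ^ 4)
    + 136 * ((1 / 1000) ^ 7 * (1 / 1000) ^ 2) + 42 * ((1 / 1000) ^ 6 * (1 / 1000) ^ 3)
    + 163 * ((1 / 1000) ^ 5 * (1 / 1000) ^ 4) + 26 * ((1 / 1000) ^ 7 * (1 / 1000) ^ 3)
    + 15 * ((1 / 1000) ^ 5 * (1 / 1000) ^ 5) : ℝ)) (by gcongr) (by norm_num)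

theorem R05_low {e h : ℝ} (he : 0 < e) (he1 : e ≤ 1 / 1000) (hh : 0 < h) (hh1 : h ≤ 1 / 1000) :
    0 ≤ R05 e h - 127 := by
  have k_e : R05 e h - 127
      = (1)
      + (R05_low_c0 e h + R05_low_c1 e h)
      - (1 * (R05_low_q0_0 e h + R05_low_q0_1 e h)) := by
    unfold R05 R05_p0 R05_p1 R05_n0 R05_n1 R05_low_c0 R05_low_c1 R05_low_q0_0 R05_low_q0_1
    ring
  have k_p : 0 ≤ R05_low_c0 e h + R05_low_c1 e h := by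
    linarith [R05_low_c0_nn he hh, R05_low_c1_nn he hh]
  have k_q0 : R05_low_q0_0 e h + R05_low_q0_1 e h ≤ (899 / 1000000) := by
    linarith [R05_low_q0_0_le he he1 hh hh1, R05_low_q0_1_le he he1 hh hh1]
  rw [k_e]
  exact fin1 (by positivity) k_p k_q0 (by linarith)

noncomputable def P5_low_c0 (e h : ℝ) : ℝ :=
  872 * e ^ 3 + 244 * e ^ 4 + 1882 * (e ^ 3 * h) + 288 * (e ^ 2 * h ^ 2) + 1232 * (e ^ 3 * h ^ 2)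
  + 530 * e ^ 6 + 62 * (e ^ 3 * h ^ 3) + 1238 * (e ^ 6 * h) + 54 * e ^ 8 + 1075 * (e ^ 6 * h ^ 2)

theorem P5_low_c0_nn {e h : ℝ} (he : 0 < e) (hh : 0 < h) : 0 ≤ P5_low_c0 e h := by
  unfold P5_low_c0; positivity

noncomputable def P5_low_c1 (e h : ℝ) : ℝ :=
  36 * (e ^ 8 * h) + 404 * (e ^ 6 * h ^ 3) + 6 * (e ^ 8 * h ^ 2) + 49 * (e ^ 6 * h ^ 4)
  + 4 * (e ^ 5 * h ^ 5)

theorem P5_low_c1_nn {e h : ℝ} (he : 0 < e) (hh : 0 < h) : 0 ≤ P5_low_c1 e h := by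
  unfold P5_low_c1; positivity

noncomputable def P5_low_q0_0 (e h : ℝ) : ℝ :=
  128 * e + 576 * e ^ 2 + 384 * (e * h) + 384 * (e ^ 2 * h) + 972 * e ^ 5 + 220 * (e ^ 4 * h)
  + 1761 * (e ^ 5 * h) + 815 * (e ^ 4 * h ^ 2) + 152 * e ^ 7 + 1254 * (e ^ 5 * h ^ 2)

theorem P5_low_q0_0_le {e h : ℝ} (he : 0 < e) (he1 : e ≤ 1 / 1000) (hh : 0 < h) (hh1 : h ≤ 1 / 1000) : P5_low_q0_0 e h ≤ (128961 / 1000000) := by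
  unfold P5_low_q0_0
  refine le_trans (b := (128 * (1 / 1000) + 576 * (1 / 1000) ^ 2 + 384 * ((1 / 1000) * (1 / 1000))
    + 384 * ((1 / 1000) ^ 2 * (1 / 1000)) + 972 * (1 / 1000) ^ 5
    + 220 * ((1 / 1000) ^ 4 * (1 / 1000)) + 1761 * ((1 / 1000) ^ 5 * (1 / 1000))
    + 815 * ((1 / 1000) ^ 4 * (1 / 1000) ^ 2) + 152 * (1 / 1000) ^ 7
    + 1254 * ((1 / 1000) ^ 5 * (1 / 1000) ^ 2) : ℝ)) (by gcongr) (by norm_num)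

noncomputable def P5_low_q0_1 (e h : ℝ) : ℝ :=
  634 * (e ^ 4 * h ^ 3) + 407 * (e ^ 7 * h) + 446 * (e ^ 5 * h ^ 3) + 95 * (e ^ 4 * h ^ 4)
  + 262 * (e ^ 7 * h ^ 2) + 47 * (e ^ 5 * h ^ 4) + 43 * (e ^ 7 * h ^ 3)

theorem P5_low_q0_1_le {e h : ℝ} (he : 0 < e) (he1 : e ≤ 1 / 1000) (hh : 0 < h) (hh1 : h ≤ 1 / 1000) : P5_low_q0_1 e h ≤ (1 / 1000000) := by
  unfold P5_low_q0_1
  refine le_trans (b := (634 * ((1 / 1000) ^ 4 * (1 / 1000) ^ 3) + 407 * ((1 / 1000) ^ 7 * (1 / 1000))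
    + 446 * ((1 / 1000) ^ 5 * (1 / 1000) ^ 3) + 95 * ((1 / 1000) ^ 4 * (1 / 1000) ^ 4)
    + 262 * ((1 / 1000) ^ 7 * (1 / 1000) ^ 2) + 47 * ((1 / 1000) ^ 5 * (1 / 1000) ^ 4)
    + 43 * ((1 / 1000) ^ 7 * (1 / 1000) ^ 3) : ℝ)) (by gcongr) (by norm_num)

theorem P5_low {e h : ℝ} (he : 0 < e) (he1 : e ≤ 1 / 1000) (hh : 0 < h) (hh1 : h ≤ 1 / 1000) :
    0 ≤ P5 e h - 127 := by
  have k_e : P5 e h - 127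
      = (1)
      + (P5_low_c0 e h + P5_low_c1 e h)
      - (1 * (P5_low_q0_0 e h + P5_low_q0_1 e h)) := by
    unfold P5 P5_p0 P5_p1 P5_n0 P5_n1 P5_low_c0 P5_low_c1 P5_low_q0_0 P5_low_q0_1
    ring
  have k_p : 0 ≤ P5_low_c0 e h + P5_low_c1 e h := by
    linarith [P5_low_c0_nn he hh, P5_low_c1_nn he hh]
  have k_q0 : P5_low_q0_0 e h + P5_low_q0_1 e h ≤ (64481 / 500000) := by
    linarith [P5_low_q0_0_le he he1 hh hh1, P5_low_q0_1_le he he1 hh hh1]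
  rw [k_e]
  exact fin1 (by positivity) k_p k_q0 (by linarith)

noncomputable def R05_up_c0 (e h : ℝ) : ℝ :=
  640 * e ^ 2 + 256 * (e * h) + 216 * e ^ 3 + 896 * (e ^ 2 * h) + 216 * e ^ 5 + 236 * e ^ 6
  + 828 * (e ^ 5 * h) + 56 * e ^ 7 + 412 * (e ^ 6 * h) + 1110 * (e ^ 5 * h ^ 2)

theorem R05_up_c0_nn {e h : ℝ} (he : 0 < e) (hh : 0 < h) : 0 ≤ R05_up_c0 e h := by
  unfold R05_up_c0; positivity

noncomputable def R05_up_c1 (e h : ℝ) : ℝ :=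
  118 * (e ^ 7 * h) + 311 * (e ^ 6 * h ^ 2) + 624 * (e ^ 5 * h ^ 3) + 15 * (e ^ 4 * h ^ 4)
  + 136 * (e ^ 7 * h ^ 2) + 42 * (e ^ 6 * h ^ 3) + 163 * (e ^ 5 * h ^ 4) + 26 * (e ^ 7 * h ^ 3)
  + 15 * (e ^ 5 * h ^ 5)

theorem R05_up_c1_nn {e h : ℝ} (he : 0 < e) (hh : 0 < h) : 0 ≤ R05_up_c1 e h := by
  unfold R05_up_c1; positivity

noncomputable def R05_up_q0_0 (e h : ℝ) : ℝ :=
  128 * e + 1044 * e ^ 4 + 442 * (e ^ 3 * h) + 32 * (e ^ 2 * h ^ 2) + 1988 * (e ^ 4 * h)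
  + 848 * (e ^ 3 * h ^ 2) + 1201 * (e ^ 4 * h ^ 2) + 126 * (e ^ 3 * h ^ 3) + 134 * (e ^ 4 * h ^ 3)
  + 64 * e ^ 8

theorem R05_up_q0_0_le {e h : ℝ} (he : 0 < e) (he1 : e ≤ 1 / 1000) (hh : 0 < h) (hh1 : h ≤ 1 / 1000) : R05_up_q0_0 e h ≤ (128001 / 1000000) := by
  unfold R05_up_q0_0
  refine le_trans (b := (128 * (1 / 1000) + 1044 * (1 / 1000) ^ 4 + 442 * ((1 / 1000) ^ 3 * (1 / 1000))
    + 32 * ((1 / 1000) ^ 2 * (1 / 1000) ^ 2) + 1988 * ((1 / 1000) ^ 4 * (1 / 1000))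
    + 848 * ((1 / 1000) ^ 3 * (1 / 1000) ^ 2) + 1201 * ((1 / 1000) ^ 4 * (1 / 1000) ^ 2)
    + 126 * ((1 / 1000) ^ 3 * (1 / 1000) ^ 3) + 134 * ((1 / 1000) ^ 4 * (1 / 1000) ^ 3)
    + 64 * (1 / 1000) ^ 8 : ℝ)) (by gcongr) (by norm_num)

noncomputable def R05_up_q0_1 (e h : ℝ) : ℝ :=
  80 * (e ^ 8 * h) + 16 * (e ^ 8 * h ^ 2) + e ^ 6 * h ^ 4

theorem R05_up_q0_1_le {e h : ℝ} (he : 0 < e) (he1 : e ≤ 1 / 1000) (hh : 0 < h) (hh1 : h ≤ 1 / 1000) : R05_up_q0_1 e h ≤ (1 / 1000000) := by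
  unfold R05_up_q0_1
  refine le_trans (b := (80 * ((1 / 1000) ^ 8 * (1 / 1000)) + 16 * ((1 / 1000) ^ 8 * (1 / 1000) ^ 2)
    + (1 / 1000) ^ 6 * (1 / 1000) ^ 4 : ℝ)) (by gcongr) (by norm_num)

theorem R05_up {e h : ℝ} (he : 0 < e) (he1 : e ≤ 1 / 1000) (hh : 0 < h) (hh1 : h ≤ 1 / 1000) :
    0 ≤ 129 - R05 e h := by
  have k_e : 129 - R05 e h
      = (1)
      + (R05_up_c0 e h + R05_up_c1 e h)
      - (1 * (R05_up_q0_0 e h + R05_up_q0_1 e h)) := by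
    unfold R05 R05_p0 R05_p1 R05_n0 R05_n1 R05_up_c0 R05_up_c1 R05_up_q0_0 R05_up_q0_1
    ring
  have k_p : 0 ≤ R05_up_c0 e h + R05_up_c1 e h := by
    linarith [R05_up_c0_nn he hh, R05_up_c1_nn he hh]
  have k_q0 : R05_up_q0_0 e h + R05_up_q0_1 e h ≤ (64001 / 500000) := by
    linarith [R05_up_q0_0_le he he1 hh hh1, R05_up_q0_1_le he he1 hh hh1]
  rw [k_e]
  exact fin1 (by positivity) k_p k_q0 (by linarith)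

noncomputable def P5_up_c0 (e h : ℝ) : ℝ :=
  128 * e + 576 * e ^ 2 + 384 * (e * h) + 384 * (e ^ 2 * h) + 972 * e ^ 5 + 220 * (e ^ 4 * h)
  + 1761 * (e ^ 5 * h) + 815 * (e ^ 4 * h ^ 2) + 152 * e ^ 7 + 1254 * (e ^ 5 * h ^ 2)

theorem P5_up_c0_nn {e h : ℝ} (he : 0 < e) (hh : 0 < h) : 0 ≤ P5_up_c0 e h := by
  unfold P5_up_c0; positivity

noncomputable def P5_up_c1 (e h : ℝ) : ℝ :=
  634 * (e ^ 4 * h ^ 3) + 407 * (e ^ 7 * h) + 446 * (e ^ 5 * h ^ 3) + 95 * (e ^ 4 * h ^ 4)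
  + 262 * (e ^ 7 * h ^ 2) + 47 * (e ^ 5 * h ^ 4) + 43 * (e ^ 7 * h ^ 3)

theorem P5_up_c1_nn {e h : ℝ} (he : 0 < e) (hh : 0 < h) : 0 ≤ P5_up_c1 e h := by
  unfold P5_up_c1; positivity

noncomputable def P5_up_q0_0 (e h : ℝ) : ℝ :=
  872 * e ^ 3 + 244 * e ^ 4 + 1882 * (e ^ 3 * h) + 288 * (e ^ 2 * h ^ 2) + 1232 * (e ^ 3 * h ^ 2)
  + 530 * e ^ 6 + 62 * (e ^ 3 * h ^ 3) + 1238 * (e ^ 6 * h) + 54 * e ^ 8 + 1075 * (e ^ 6 * h ^ 2)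

theorem P5_up_q0_0_le {e h : ℝ} (he : 0 < e) (he1 : e ≤ 1 / 1000) (hh : 0 < h) (hh1 : h ≤ 1 / 1000) : P5_up_q0_0 e h ≤ (1 / 1000000) := by
  unfold P5_up_q0_0
  refine le_trans (b := (872 * (1 / 1000) ^ 3 + 244 * (1 / 1000) ^ 4 + 1882 * ((1 / 1000) ^ 3 * (1 / 1000))
    + 288 * ((1 / 1000) ^ 2 * (1 / 1000) ^ 2) + 1232 * ((1 / 1000) ^ 3 * (1 / 1000) ^ 2)
    + 530 * (1 / 1000) ^ 6 + 62 * ((1 / 1000) ^ 3 * (1 / 1000) ^ 3)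
    + 1238 * ((1 / 1000) ^ 6 * (1 / 1000)) + 54 * (1 / 1000) ^ 8
    + 1075 * ((1 / 1000) ^ 6 * (1 / 1000) ^ 2) : ℝ)) (by gcongr) (by norm_num)

noncomputable def P5_up_q0_1 (e h : ℝ) : ℝ :=
  36 * (e ^ 8 * h) + 404 * (e ^ 6 * h ^ 3) + 6 * (e ^ 8 * h ^ 2) + 49 * (e ^ 6 * h ^ 4)
  + 4 * (e ^ 5 * h ^ 5)

theorem P5_up_q0_1_le {e h : ℝ} (he : 0 < e) (he1 : e ≤ 1 / 1000) (hh : 0 < h) (hh1 : h ≤ 1 / 1000) : P5_up_q0_1 e h ≤ (1 / 1000000) := by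
  unfold P5_up_q0_1
  refine le_trans (b := (36 * ((1 / 1000) ^ 8 * (1 / 1000)) + 404 * ((1 / 1000) ^ 6 * (1 / 1000) ^ 3)
    + 6 * ((1 / 1000) ^ 8 * (1 / 1000) ^ 2) + 49 * ((1 / 1000) ^ 6 * (1 / 1000) ^ 4)
    + 4 * ((1 / 1000) ^ 5 * (1 / 1000) ^ 5) : ℝ)) (by gcongr) (by norm_num)

theorem P5_up {e h : ℝ} (he : 0 < e) (he1 : e ≤ 1 / 1000) (hh : 0 < h) (hh1 : h ≤ 1 / 1000) :
    0 ≤ 129 - P5 e h := by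
  have k_e : 129 - P5 e h
      = (1)
      + (P5_up_c0 e h + P5_up_c1 e h)
      - (1 * (P5_up_q0_0 e h + P5_up_q0_1 e h)) := by
    unfold P5 P5_p0 P5_p1 P5_n0 P5_n1 P5_up_c0 P5_up_c1 P5_up_q0_0 P5_up_q0_1
    ring
  have k_p : 0 ≤ P5_up_c0 e h + P5_up_c1 e h := by
    linarith [P5_up_c0_nn he hh, P5_up_c1_nn he hh]
  have k_q0 : P5_up_q0_0 e h + P5_up_q0_1 e h ≤ (1 / 500000) := by
    linarith [P5_up_q0_0_le he he1 hh hh1, P5_up_q0_1_le he he1 hh hh1]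
  rw [k_e]
  exact fin1 (by positivity) k_p k_q0 (by linarith)

theorem RP5 {e h : ℝ} (he : 0 < e) (he1 : e ≤ 1 / 1000) (hh : 0 < h) (hh1 : h ≤ 1 / 1000) :
    127 ≤ R05 e h ∧ 127 ≤ P5 e h ∧ R05 e h ≤ 129 ∧ P5 e h ≤ 129 :=
  ⟨sub_nonneg.1 (R05_low he he1 hh hh1), sub_nonneg.1 (P5_low he he1 hh hh1),
    sub_nonneg.1 (R05_up he he1 hh hh1), sub_nonneg.1 (P5_up he he1 hh hh1)⟩


end Pool.Agent.Work.MP_71a505_up
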