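import Mathlib
import Pool.Agent.Work.MP_71a505_up.Defs
import Pool.Agent.Work.MP_71a505_up.QE
import Pool.Agent.Work.MP_71a505_up.Q36
import Pool.Agent.Work.MP_71a505_up.Q5a
import Pool.Agent.Work.MP_71a505_up.Q5b
import Pool.Agent.Work.MP_71a505_up.Q5c

namespace Pool.Agent.Work.MP_71a505_up

theorem fm_mul5 {e D l3 q C : ℝ} (h3 : l3 ≠ 0) (hq : q ≠ 0) (hq2 : q ^ 2 * D = C) :
    16 * fm e (l3 * q) * (q * (D * l3 ^ 2 * C))
      = 8 * (e ^ 4 + 2 * e ^ 2 * (1 + e) - 2 * (1 + e) ^ 2) * (D * l3 * C)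
        + 16 * (-e ^ 2 + 2 * (1 + e)) * q * (D * l3 ^ 2 * C) - 16 * C * l3 ^ 3 * C := by
  unfold fm
  have e1 : 16 * ((e ^ 4 + 2 * e ^ 2 * (1 + e - l3 * q) - 2 * (1 + e - l3 * q) ^ 2)
      / (2 * (l3 * q))) * (q * (D * l3 ^ 2 * C))
      = 8 * (e ^ 4 + 2 * e ^ 2 * (1 + e - l3 * q) - 2 * (1 + e - l3 * q) ^ 2) * (D * l3 * C) := by
    field_simp
    ring
  rw [e1]
  linear_combination (-16 * l3 ^ 3 * C) * hq2

theorem split5 {e h q D l3 C : ℝ} (hD : D ≠ 0) (h3 : l3 ≠ 0) (hC : C ≠ 0)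
    (hq : q ≠ 0) (hq2 : q ^ 2 * D = C) {B k : ℝ} :
    (h * e * B * k / (D * (l3 * q)) * (q - 1)
      - 16 * (h * e) * fm e (l3 * q)
      - 3 * (h * e * B * k ^ 2) / (D * (l3 * q)) ^ 2) * (q * (D * l3 ^ 2 * C))
    = h * e * ((-(B * k * l3 * C)
        - 8 * (e ^ 4 + 2 * e ^ 2 * (1 + e) - 2 * (1 + e) ^ 2) * (D * l3 * C)
        + 16 * C * l3 ^ 3 * C)
      - (-(B * k * l3 * C - 16 * (-e ^ 2 + 2 * (1 + e)) * (D * l3 ^ 2 * C)
          - 3 * B * k ^ 2)) * q) := by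
  have p1 : h * e * B * k / (D * (l3 * q)) * (q - 1) * (q * (D * l3 ^ 2 * C))
      = h * e * B * k * l3 * C * (q - 1) := by
    field_simp
  have p2 := fm_mul5 (e := e) h3 hq hq2
  have p3 : 3 * (h * e * B * k ^ 2) / (D * (l3 * q)) ^ 2 * (q * (D * l3 ^ 2 * C))
      = 3 * (h * e * B * k ^ 2) * q := by
    rw [← hq2]
    field_simp
  linear_combination p1 - h * e * p2 - p3

theorem R05_eq (e h : ℝ) : R05 e h =
    (-(qB e h * ((h + 3) * (h + 1 - e) * e ^ 2) * (1 - e - h * e) * qC e h)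
        - 8 * (e ^ 4 + 2 * e ^ 2 * (1 + e) - 2 * (1 + e) ^ 2)
          * (qD e h * (1 - e - h * e) * qC e h)
        + 16 * qC e h * (1 - e - h * e) ^ 3 * qC e h) := by
  unfold R05 R05_p0 R05_p1 R05_n0 R05_n1 qC qD qB
  ring

theorem P5_eq (e h : ℝ) : P5 e h =
    -(qB e h * ((h + 3) * (h + 1 - e) * e ^ 2) * (1 - e - h * e) * qC e h
        - 16 * (-e ^ 2 + 2 * (1 + e)) * (qD e h * (1 - e - h * e) ^ 2 * qC e h)
          - 3 * qB e h * ((h + 3) * (h + 1 - e) * e ^ 2) ^ 2) := by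
  unfold P5 P5_p0 P5_p1 P5_n0 P5_n1 qC qD qB
  ring

theorem phi5 {e h : ℝ} (he : 0 < e) (he1 : e ≤ 1 / 1000) (hh : 0 < h) (hh1 : h ≤ 1 / 1000)
    {q : ℝ} (hq : 0 < q) (hq2 : q ^ 2 * qD e h = qC e h) :
    6 * (e ^ 7 * h) + 20 * (e ^ 5 * h ^ 2) ≤ Phi5 e h q ∧
      Phi5 e h q ≤ 8 * (e ^ 7 * h) + 30 * (e ^ 5 * h ^ 2) := by
  have hhe : 0 < h * e := mul_pos hh he
  have hhe1 : h * e ≤ 1 / 1000 * (1 / 1000) := mul_le_mul hh1 he1 he.le (by norm_num)
  have he2 : 0 ≤ e ^ 2 := by positivity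
  have hD3 : 1995 / 1000 ≤ qD e h := by unfold qD; linarith
  have hD : 0 < qD e h := by linarith
  have hD2 : qD e h ≤ 2 := by
    unfold qD
    have : e ^ 2 ≤ e * (1 / 1000) := by nlinarith
    linarith
  have hC2 : 2 ≤ qC e h := by unfold qC; linarith
  have hC3 : qC e h ≤ 2005 / 1000 := by unfold qC; linarith
  have hq1 := q_one he hh hq hD hD2 hq2
  have hqu : q ≤ 1003 / 1000 := by
    have := q_up he (by linarith) hh (by linarith) hq hD hq2
    have h5 : e ^ 2 ≤ e * (1 / 1000) := by nlinarith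
    have h6 : e * h ≤ 1 / 1000 * (1 / 1000) := mul_le_mul he1 hh1 hh.le (by norm_num)
    linarith
  have hl3 : 998 / 1000 ≤ 1 - e - h * e := by linarith
  have hl3' : 1 - e - h * e ≤ 1 := by linarith
  have n1 := N5_lower he he1 hh hh1
  have n2 := N5_upper he he1 hh hh1
  obtain ⟨n3, n4, n5, n6⟩ := RP5 he he1 hh hh1
  have eD : 2 + 2 * e ^ 2 - 4 * e - 3 * (h * e) = qD e h := rfl
  have eC : h * e + 2 + 4 * e = qC e h := rfl
  rw [eD, eC] at n1 n2
  obtain ⟨ψ, hψ⟩ : ∃ ψ : ℝ, ψ = Phi5 e h q / (h * e) := ⟨_, rfl⟩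
  have hψ2 : Phi5 e h q = h * e * ψ := by rw [hψ]; field_simp
  have h1 : ψ * (q * (qD e h * (1 - e - h * e) ^ 2 * qC e h)) = R05 e h - P5 e h * q := by
    have h3 : Phi5 e h q * (q * (qD e h * (1 - e - h * e) ^ 2 * qC e h))
        = h * e * (R05 e h - P5 e h * q) := by
      rw [R05_eq, P5_eq]
      unfold Phi5
      exact split5 hD.ne' (by linarith) (by linarith) hq.ne' hq2
    rw [hψ2] at h3
    have h4 : (h * e) * (ψ * (q * (qD e h * (1 - e - h * e) ^ 2 * qC e h)))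
        = (h * e) * (R05 e h - P5 e h * q) := by linear_combination h3
    exact mul_left_cancel₀ hhe.ne' h4
  have h2 := elimq hq2 h1 rfl
  have hl32 : (998 / 1000) ^ 2 ≤ (1 - e - h * e) ^ 2 := pow_le_pow_left₀ (by norm_num) hl3 2
  have hl32' : (1 - e - h * e) ^ 2 ≤ 1 ^ 2 := pow_le_pow_left₀ (by linarith) hl3' 2
  have hlow : 1900 ≤ (q * (qD e h * (1 - e - h * e) ^ 2 * qC e h))
      * (R05 e h + P5 e h * q) * qD e h := by
    have g0 : 1995 / 1000 * (998 / 1000) ^ 2 * 2 ≤ qD e h * (1 - e - h * e) ^ 2 * qC e h :=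
      mul_le_mul (mul_le_mul hD3 hl32 (by norm_num) hD.le) hC2 (by norm_num) (by positivity)
    have g1 : 1 * (1995 / 1000 * (998 / 1000) ^ 2 * 2)
        ≤ q * (qD e h * (1 - e - h * e) ^ 2 * qC e h) := mul_le_mul hq1 g0 (by norm_num) hq.le
    have g2 : 127 * 1 ≤ P5 e h * q := mul_le_mul n4 hq1 (by norm_num) (by linarith)
    have g3 : 1 * (1995 / 1000 * (998 / 1000) ^ 2 * 2) * 254
        ≤ (q * (qD e h * (1 - e - h * e) ^ 2 * qC e h)) * (R05 e h + P5 e h * q) :=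
      mul_le_mul g1 (by linarith) (by norm_num) (by linarith)
    have g4 : 1 * (1995 / 1000 * (998 / 1000) ^ 2 * 2) * 254 * (1995 / 1000)
        ≤ (q * (qD e h * (1 - e - h * e) ^ 2 * qC e h)) * (R05 e h + P5 e h * q) * qD e h :=
      mul_le_mul g3 hD3 (by norm_num) (by linarith)
    norm_num at g4 ⊢
    linarith
  have hup : (q * (qD e h * (1 - e - h * e) ^ 2 * qC e h))
      * (R05 e h + P5 e h * q) * qD e h ≤ 2100 := by
    have g0 : qD e h * (1 - e - h * e) ^ 2 * qC e h ≤ 2 * 1 ^ 2 * (2005 / 1000) :=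
      mul_le_mul (mul_le_mul hD2 hl32' (by positivity) (by norm_num)) hC3 (by linarith)
        (by norm_num)
    have g1 : q * (qD e h * (1 - e - h * e) ^ 2 * qC e h)
        ≤ 1003 / 1000 * (2 * 1 ^ 2 * (2005 / 1000)) :=
      mul_le_mul hqu g0 (by positivity) (by norm_num)
    have g2 : P5 e h * q ≤ 129 * (1003 / 1000) := mul_le_mul n6 hqu hq.le (by norm_num)
    have g3 : (q * (qD e h * (1 - e - h * e) ^ 2 * qC e h)) * (R05 e h + P5 e h * q)
        ≤ 1003 / 1000 * (2 * 1 ^ 2 * (2005 / 1000)) * (129 + 129 * (1003 / 1000)) :=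
      mul_le_mul g1 (by linarith) (by
        have : 0 < P5 e h * q := mul_pos (by linarith) hq
        linarith) (by norm_num)
    have g4 : (q * (qD e h * (1 - e - h * e) ^ 2 * qC e h)) * (R05 e h + P5 e h * q) * qD e h
        ≤ 1003 / 1000 * (2 * 1 ^ 2 * (2005 / 1000)) * (129 + 129 * (1003 / 1000)) * 2 :=
      mul_le_mul g3 hD2 hD.le (by norm_num)
    norm_num at g4
    linarith
  set Den := (q * (qD e h * (1 - e - h * e) ^ 2 * qC e h))
      * (R05 e h + P5 e h * q) * qD e h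
  have hDen : 0 < Den := by linarith
  have m1 : 6 * e ^ 6 + 20 * (e ^ 4 * h) ≤ ψ := by
    by_contra hneg
    push Not at hneg
    have g1 := mul_lt_mul_of_pos_right hneg hDen
    rw [h2] at g1
    have g2 : (6 * e ^ 6 + 20 * (e ^ 4 * h)) * Den ≤ (6 * e ^ 6 + 20 * (e ^ 4 * h)) * 2100 :=
      mul_le_mul_of_nonneg_left hup (by positivity)
    linarith
  have m2 : ψ ≤ 8 * e ^ 6 + 30 * (e ^ 4 * h) := by
    by_contra hneg
    push Not at hneg
    have g1 := mul_lt_mul_of_pos_right hneg hDen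
    rw [h2] at g1
    have g2 : (8 * e ^ 6 + 30 * (e ^ 4 * h)) * 1900 ≤ (8 * e ^ 6 + 30 * (e ^ 4 * h)) * Den :=
      mul_le_mul_of_nonneg_left hlow (by positivity)
    linarith
  have m3 := mul_le_mul_of_nonneg_left m1 hhe.le
  have m4 := mul_le_mul_of_nonneg_left m2 hhe.le
  rw [hψ2]
  constructor
  · calc _ = h * e * (6 * e ^ 6 + 20 * (e ^ 4 * h)) := by ring
      _ ≤ _ := m3
  · calc _ ≤ h * e * (8 * e ^ 6 + 30 * (e ^ 4 * h)) := m4
      _ = _ := by ring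

end Pool.Agent.Work.MP_71a505_up
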