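import Mathlib
import Pool.Agent.Work.MP_71a505_up.Classify
import Pool.Agent.Work.MP_71a505_up.Q36
import Pool.Agent.Work.MP_71a505_up.Q5
import Pool.Agent.Work.MP_71a505_up.FinalA
import Pool.Agent.Work.MP_71a505_up.FinalB
import Pool.Agent.Work.MP_71a505_up_helper31.SZ1
import Pool.Agent.Work.MP_71a505_up_helper31.SZ2
import Pool.Agent.Work.MP_71a505_up_helper67.FB
import Pool.Agent.Work.MP_71a505_up_helper67.G1
import Pool.Agent.Work.MP_71a505_up_helper40.G1R
import Pool.Agent.Work.MP_71a505_up_helper4.EB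
import Pool.Agent.Work.MP_71a505_up_helper96.F5
import Pool.Agent.Work.MP_71a505_up_helper70.F36

namespace Pool.Agent.Work.MP_71a505_up

open Pool.Agent.Work.MP_71a505_nt

/-- case `c > 16 a² b²` -/
theorem case_far {a b c : ℝ} (ha1 : 1 ≤ a) (hb : 0 < b)
    (hB : 100000 * c ^ 3 < a ^ 2 * b ^ 7)
    (hE : c ^ 3 ≤ 1000000 * (a * b ^ 5) ∨ b ≤ 1000000 * a ^ 4)
    (hfar : 16 * a ^ 2 * b ^ 2 < c) : False := by
  have ha0 : 0 < a := by linarith
  have h1 : (16 * a ^ 2 * b ^ 2) ^ 3 < c ^ 3 := pow_lt_pow_left₀ hfar (by positivity) (by norm_num)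
  have h2 : (a ^ 2 * b ^ 6) * (409600000 * a ^ 4) < (a ^ 2 * b ^ 6) * b := by
    calc (a ^ 2 * b ^ 6) * (409600000 * a ^ 4) = 100000 * (16 * a ^ 2 * b ^ 2) ^ 3 := by ring
      _ < 100000 * c ^ 3 := by linarith
      _ < a ^ 2 * b ^ 7 := hB
      _ = (a ^ 2 * b ^ 6) * b := by ring
  have h3 : 409600000 * a ^ 4 < b := lt_of_mul_lt_mul_left h2 (by positivity)
  have ha4 : 1 ≤ a ^ 4 := one_le_pow₀ ha1
  rcases hE with h4 | h4
  · have h5 : (a * b ^ 5) * (4096 * (a ^ 5 * b)) < (a * b ^ 5) * 1000000 := by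
      calc (a * b ^ 5) * (4096 * (a ^ 5 * b)) = (16 * a ^ 2 * b ^ 2) ^ 3 := by ring
        _ < c ^ 3 := h1
        _ ≤ 1000000 * (a * b ^ 5) := h4
        _ = (a * b ^ 5) * 1000000 := by ring
    have h6 : 4096 * (a ^ 5 * b) < 1000000 := lt_of_mul_lt_mul_left h5 (by positivity)
    have ha5 : 1 ≤ a ^ 5 := one_le_pow₀ ha1
    have h7 : 1 * b ≤ a ^ 5 * b := mul_le_mul_of_nonneg_right ha5 hb.le
    linarith
  · linarith

/-- from `(x - r)² = a²` and the relations: `s = 2 r x - 1` -/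
theorem s_eq {a b c r s t x d : ℝ} (X : RX a b c r s t x d) (r2 : a * b + 1 = r ^ 2)
    (hs1 : 1 < s) (hx : (x - r) ^ 2 = a ^ 2) : s = 2 * r * x - 1 := by
  have h1 := X.sy
  have h2 : r ^ 2 + x ^ 2 - 1 - a ^ 2 = 2 * r * x - 1 := by linear_combination hx
  rw [h2] at h1
  have h3 : (s - 1) * (2 * r * x - s - 1) = 0 := by linear_combination h1
  rcases mul_eq_zero.1 h3 with h4 | h4
  · linarith
  · linarith

theorem main_int {a b c r s t x l m : ℤ} (h : Sq3 a b c r s t) (ha : 0 < a) (hab : a < b)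
    (hbc : b < c) (hD : Data a b c x l m) :
    (∃ d g : ℤ, 1 ≤ d ∧ 1 ≤ g ∧
        IsSquare (a * d + 1) ∧ IsSquare (b * d + 1) ∧ IsSquare (c * d + 1) ∧
        IsSquare (a * g + 1) ∧ IsSquare (b * g + 1) ∧ IsSquare (d * g + 1) ∧
        (a + b - c - d) ^ 2 = 4 * (a * b + 1) * (c * d + 1) ∧
        (a + d - b - g) ^ 2 = 4 * (a * d + 1) * (b * g + 1) ∧
        4 * a * d * g < b ∧ 4 * a * b * d < c) ∧ c < b ^ 2 ∧
      b < 10 ^ 10 * a ^ 7 ∧ c < 10 ^ 11 * a ^ 4 * b ∧ a ^ 13 < (10 ^ 4 * b) ^ 10 := by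
  have hb : 0 < b := ha.trans hab
  have hB := thmB h ha hab hbc hD
  have hd1 := dm_pos_of_data h ha hab hbc hD
  have hdc := (dm_lt ha hb (hab.trans hbc) hbc h).1
  have hX := rx_of h ha hab hbc hd1
  obtain ⟨W, e, g, α, β, γ, δ, R, I⟩ := base h ha hab hbc hD
  have hz1 := sz1 R
  have hz2 := fun h1 h2 => sz2 R h1 h2
  have hf := f_bound hz1 R I hX
  have hE := E_bound hz1 R I hX (fun q hq hq2 h1 h2 => phiE R.he h1 R.hh h2 hq hq2)
  have ha1R : (1 : ℝ) ≤ a := by exact_mod_cast (show 1 ≤ a from ha)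
  have hbR : (0 : ℝ) < b := by exact_mod_cast hb
  have hcR : (0 : ℝ) < c := by exact_mod_cast (hb.trans hbc)
  have hBR : 100000 * (c : ℝ) ^ 3 < (a : ℝ) ^ 2 * (b : ℝ) ^ 7 := by exact_mod_cast hB
  rcases classify h ha hab hbc hD with hfar | ⟨hx, hb6⟩ | ⟨hdb, hg⟩
  · exfalso
    exact case_far ha1R hbR hBR hE (by exact_mod_cast hfar)
  · exfalso
    have hxR : (((r * s - a * t : ℤ) : ℝ) - r) ^ 2 = (a : ℝ) ^ 2 := by exact_mod_cast hx
    have hs1 : (1 : ℝ) < s := by
      have h2 := h.2.2.2.2.2.2.2.1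
      have h3 := h.2.2.2.2.1
      have : 1 < s := by
        by_contra hh
        push Not at hh
        have h4 : s = 1 := by linarith
        rw [h4] at h2
        have : 0 < a * c := mul_pos ha (hb.trans hbc)
        linarith
      exact_mod_cast this
    have hs := s_eq hX R.r2 hs1 hxR
    have hG := G1_real hz1 R hX.x0 hxR hs (by exact_mod_cast hb6)
    exact G1_excl R I hX hxR hG
  · have hats := ats_lt h ha hb (hab.trans hbc)
    obtain ⟨Q, hgb⟩ := rq_of h ha hab hbc hd1 hdb rfl rfl hg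
    have hS := Sq3_dm ha hb h
    have q1 := dm_u h
    have q2 := dm_v h
    have q3 := dm_w h
    have q4 := dm_reg h
    have hd0 : 0 < dm a b c r s t := hd1
    -- squares for `g`
    have hu : 0 < r * s - a * t := by linarith
    have hvR := Q.xb0
    have hv : 0 < r * t - b * s := by exact_mod_cast hvR
    have hS' : Sq3 a (dm a b c r s t) b (r * s - a * t) r (r * t - b * s) := by
      refine ⟨ha.le, hd0.le, hb.le, hu, h.2.2.2.1, hv, ?_, h.2.2.2.2.2.2.1, ?_⟩
      · rw [q1]; ring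
      · have : dm a b c r s t * b + 1 = b * dm a b c r s t + 1 := by ring
        rw [this, q2]; ring
    have p1 := dm_u hS'
    have p2 := dm_v hS'
    have p3 := dm_w hS'
    have p4 := dm_reg hS'
    have hclt := c_lt_sq R.hb R.r2 R.hr Q
    have hup := final_upper ha1R hbR hcR hBR hf hE
      (by
        rcases eq_or_ne a 1 with h1 | h1
        · left; exact_mod_cast h1
        · right
          have : 2 ≤ a := by omega
          exact_mod_cast this)
      (fun h1 => by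
        by_contra hh
        push Not at hh
        exact F5_bound hz1 hz2 R I hX h1 hh hf (fun q hq hq2 h1 h2 => phi5 R.he h1 R.hh h2 hq hq2))
      (fun h1 => F36_bound R I hX h1 hf (fun q hq hq2 h1 h2 => phi36 R.he h1 R.hh h2 hq hq2))
      hclt
    have hlow := lower_bound hz1 R I Q hX.ix (by exact_mod_cast hdc) (by exact_mod_cast hgb)
    refine ⟨⟨dm a b c r s t, _, hd1, hg, ⟨_, by rw [q1, sq]⟩, ⟨_, by rw [q2, sq]⟩,
      ⟨_, by rw [q3, sq]⟩, ⟨_, by rw [p1, sq]⟩, ⟨_, by rw [p3, sq]⟩, ⟨_, by rw [p2, sq]⟩, q4, p4,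
      hgb, hdc⟩, by exact_mod_cast hclt, ?_, ?_, ?_⟩
    · have h5 := hup.1
      exact_mod_cast h5
    · have h5 := hup.2
      exact_mod_cast h5
    · exact_mod_cast hlow

end Pool.Agent.Work.MP_71a505_up
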